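import Pool.Agent.Lib.MP_2ec175_al.Mach5

/-!
The array built by the machine, described as a function on a box of the lattice.
-/

set_option autoImplicit false
set_option linter.unusedSectionVars false

namespace Pool.Agent.Lib.MP_2ec175_al

open Function

/-- The linear position of a lattice point in a box of side `D`. -/
def pos {r : ℕ} (D : ℕ) (x : Fin r → ℤ) : ℤ := ∑ i, x i * (D : ℤ) ^ (i : ℕ)

/-- The lattice point with a given linear position. -/
def mu (r D y : ℕ) : Fin r → ℤ := fun i => ((y / D ^ (i : ℕ) % D : ℕ) : ℤ)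

/-- The point lies in the box of side `D`. -/
def InBox {r : ℕ} (D : ℕ) (x : Fin r → ℤ) : Prop := ∀ i, 0 ≤ x i ∧ x i < D

theorem pos_add {r : ℕ} (D : ℕ) (x y : Fin r → ℤ) : pos D (x + y) = pos D x + pos D y := by
  simp [pos, add_mul, Finset.sum_add_distrib]

theorem pos_sub {r : ℕ} (D : ℕ) (x y : Fin r → ℤ) : pos D (x - y) = pos D x - pos D y := by
  simp [pos, sub_mul, Finset.sum_sub_distrib]

theorem pos_single {r : ℕ} (D : ℕ) (i : Fin r) (c : ℤ) :
    pos D (Pi.single i c) = c * (D : ℤ) ^ (i : ℕ) := by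
  rw [pos, Finset.sum_eq_single i] <;> simp +contextual [Pi.single_apply]

theorem box_exists {r D : ℕ} {x : Fin r → ℤ} (hx : InBox D x) :
    ∃ y, y < D ^ r ∧ pos D x = y ∧ mu r D y = x := by
  let f : Fin r → Fin D := fun i => ⟨(x i).toNat, by have := hx i; omega⟩
  refine ⟨finFunctionFinEquiv f, (finFunctionFinEquiv f).2, ?_, ?_⟩
  · rw [finFunctionFinEquiv_apply, pos]
    push_cast
    refine Finset.sum_congr rfl fun i _ => ?_
    simp [f, (hx i).1]
  · funext i
    have := finFunctionFinEquiv_symm_apply_val (finFunctionFinEquiv f) i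
    rw [Equiv.symm_apply_apply] at this
    rw [mu, ← this]
    simp [f, (hx i).1]

theorem pos_mu {r D y : ℕ} (hy : y < D ^ r) : pos D (mu r D y) = y := by
  have := finFunctionFinEquiv_apply (finFunctionFinEquiv.symm (⟨y, hy⟩ : Fin (D ^ r)))
  rw [Equiv.apply_symm_apply] at this
  simp only [finFunctionFinEquiv_symm_apply_val] at this
  conv_rhs => rw [this]
  simp [pos, mu]

theorem mu_inBox {r D : ℕ} (hD : 0 < D) (y : ℕ) : InBox D (mu r D y) := fun i =>
  ⟨Nat.cast_nonneg _, by simp only [mu]; exact_mod_cast Nat.mod_lt _ hD⟩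

theorem mu_eq_iff {r D y : ℕ} (hy : y < D ^ r) {x : Fin r → ℤ} (hx : InBox D x) :
    mu r D y = x ↔ pos D x = y := by
  constructor
  · rintro rfl; exact pos_mu hy
  · intro h
    obtain ⟨y', -, h1, h2⟩ := box_exists hx
    have : y' = y := by omega
    rw [← this, h2]

theorem map_range_mul {β : Type} (M : ℕ) (F : ℕ → β) (m : ℕ) :
    (List.range (m * M)).map F =
      (List.range m).flatMap fun t => (List.range M).map fun x => F (t * M + x) := by
  induction m with
  | zero => simp
  | succ m ih =>
    rw [Nat.succ_mul, List.range_add, List.map_append, ih, List.range_succ, List.flatMap_append]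
    simp

variable {P : Par}

theorem labRep_eq (i : Fin P.r) (lab : List (Fin P.r → P.Cl)) : ∀ (m : ℕ) (c : P.Cl),
    labRep i lab c m = (List.range m).flatMap fun t => lab.map fun κ => update κ i (P.nxt^[t] c) := by
  intro m
  induction m with
  | zero => simp [labRep]
  | succ m ih =>
    intro c
    rw [labRep, ih, List.range_succ_eq_map, List.flatMap_cons, List.flatMap_map]
    rfl

theorem genLab_eq {D : ℕ} (hD : 0 < D) : ∀ n, n ≤ P.r → genLab P D n = (List.range (D ^ n)).map
    fun x (j : Fin P.r) => if (j : ℕ) < n then P.nxt^[x / D ^ (j : ℕ) % D] P.c0 else P.c0 := by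
  intro n
  induction n with
  | zero => intro _; simp [genLab]
  | succ n ih =>
    intro h
    have hn : n < P.r := by omega
    rw [genLab, dif_pos hn, labRep_eq, ih hn.le, pow_succ', map_range_mul]
    refine List.flatMap_congr fun t ht => ?_
    rw [List.map_map]
    refine List.map_congr_left fun x hx => ?_
    rw [List.mem_range] at ht hx
    funext j
    by_cases hj : j = ⟨n, hn⟩
    · subst hj
      simp only [comp_apply, update_self, Nat.lt_succ_self, if_true]
      rw [add_comm, Nat.add_mul_div_right _ _ (by positivity), Nat.div_eq_of_lt hx, zero_add,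
        Nat.mod_eq_of_lt ht]
    · simp only [comp_apply, update_of_ne hj]
      have hj' : (j : ℕ) ≠ n := fun h => hj (Fin.ext h)
      by_cases hlt : (j : ℕ) < n
      · rw [if_pos hlt, if_pos (by omega)]
        obtain ⟨e, he⟩ := Nat.exists_eq_add_of_lt hlt
        have : t * D ^ n = (t * D ^ e * D) * D ^ (j : ℕ) := by rw [he]; ring
        rw [this, add_comm, Nat.add_mul_div_right _ _ (by positivity), Nat.add_mul_mod_self_right]
      · rw [if_neg hlt, if_neg (by omega)]

/-- The class of the cell with linear position `y`. -/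
def clsAt (P : Par) (D y : ℕ) : Fin P.r → P.Cl := fun j => P.nxt^[y / D ^ (j : ℕ) % D] P.c0

theorem genLab_final {D : ℕ} (hD : 0 < D) :
    genLab P D P.r = (List.range (D ^ P.r)).map (clsAt P D) := by
  rw [genLab_eq hD _ le_rfl]
  refine List.map_congr_left fun x _ => ?_
  funext j
  simp [clsAt]

theorem genTok_sum {M : Type} [AddCommMonoid M] (r D : ℕ) (f : Fin r → M) : ∀ n,
    ((genTok r D n).map f).sum = ∑ i : Fin r, if (i : ℕ) < n then D ^ (i : ℕ) • f i else 0 := by
  intro n
  induction n with
  | zero => simp [genTok]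
  | succ n ih =>
    by_cases hn : n < r
    · rw [genTok, dif_pos hn, List.map_append, List.sum_append, ih]
      have : ∀ i : Fin r, (if (i : ℕ) < n + 1 then D ^ (i : ℕ) • f i else 0) =
          (if i = ⟨n, hn⟩ then D ^ (i : ℕ) • f i else 0) +
            if (i : ℕ) < n then D ^ (i : ℕ) • f i else 0 := by
        intro i
        by_cases h : i = ⟨n, hn⟩
        · subst h; simp
        · have h' : (i : ℕ) ≠ n := fun e => h (Fin.ext e)
          by_cases h2 : (i : ℕ) < n
          · simp [h, h2, show (i : ℕ) < n + 1 by omega]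
          · simp [h, h2, show ¬ (i : ℕ) < n + 1 by omega]
      simp only [this, Finset.sum_add_distrib]
      simp
    · rw [genTok, dif_neg hn, ih]
      refine Finset.sum_congr rfl fun i _ => ?_
      have := i.2
      rw [if_pos (by omega), if_pos (by omega)]

theorem genTok_sum' {M : Type} [AddCommMonoid M] (r D : ℕ) (f : Fin r → M) :
    ((genTok r D r).map f).sum = ∑ i : Fin r, D ^ (i : ℕ) • f i := by
  simp [genTok_sum]

theorem genTok_count (r D : ℕ) (i : Fin r) : (genTok r D r).count i = D ^ (i : ℕ) := by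
  have h : ∀ l : List (Fin r), l.count i = (l.map fun j => if j = i then 1 else 0).sum := by
    intro l
    induction l with
    | nil => simp
    | cons x l ih => simp [List.count_cons, ih, add_comm]
  rw [h, genTok_sum']
  simp

theorem genTok_length (r D : ℕ) : (genTok r D r).length = ∑ i : Fin r, D ^ (i : ℕ) := by
  have := genTok_sum' r D (fun _ => (1 : ℕ))
  simpa using this

theorem delay_eq (ρ : ℕ) (δ : P.Δ) : delay P ρ δ = (pos (side P ρ) (P.off δ)).toNat := by
  rw [delay, genTok_sum', pos]
  congr 1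
  refine Finset.sum_congr rfl fun i _ => ?_
  simp [mul_comm]

/-- The cells with position below `h`, in decreasing order. -/
def cellsTo (κ : ℕ → Fin P.r → P.Cl) (a : ℕ → ℕ) : ℕ → List (Cell P)
  | 0 => []
  | h + 1 => (κ h, a h) :: cellsTo κ a h

/-- The cells with positions `h, …, h + n - 1`, in increasing order. -/
def cellsFrom (κ : ℕ → Fin P.r → P.Cl) (a : ℕ → ℕ) : ℕ → ℕ → List (Cell P)
  | _, 0 => []
  | h, n + 1 => (κ h, a h) :: cellsFrom κ a (h + 1) n

/-- The array of `N` cells with `h` cells at or below the head. -/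
def tapeOf (N : ℕ) (κ : ℕ → Fin P.r → P.Cl) (a : ℕ → ℕ) (h : ℕ) : Tape P :=
  (cellsFrom κ a h (N - h), cellsTo κ a h)

theorem cellsTo_length (κ : ℕ → Fin P.r → P.Cl) (a : ℕ → ℕ) (h : ℕ) :
    (cellsTo κ a h).length = h := by
  induction h with
  | zero => rfl
  | succ h ih => simp [cellsTo, ih]

theorem cells_join (κ : ℕ → Fin P.r → P.Cl) (a : ℕ → ℕ) : ∀ n h,
    (cellsFrom κ a h n).reverse ++ cellsTo κ a h = cellsTo κ a (h + n) := by
  intro n
  induction n with
  | zero => simp [cellsFrom]
  | succ n ih =>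
    intro h
    have := ih (h + 1)
    rw [show h + (n + 1) = h + 1 + n by omega, ← this]
    simp [cellsFrom, cellsTo]

theorem cellsTo_congr (κ : ℕ → Fin P.r → P.Cl) {a a' : ℕ → ℕ} :
    ∀ h, (∀ y < h, a y = a' y) → cellsTo κ a h = cellsTo κ a' h := by
  intro h
  induction h with
  | zero => intro _; rfl
  | succ h ih =>
    intro H
    simp only [cellsTo, H h (by omega), ih fun y hy => H y (by omega)]

theorem cellsFrom_congr (κ : ℕ → Fin P.r → P.Cl) {a a' : ℕ → ℕ} :
    ∀ n h, (∀ y, h ≤ y → a y = a' y) → cellsFrom κ a h n = cellsFrom κ a' h n := by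
  intro n
  induction n with
  | zero => intro _ _; rfl
  | succ n ih =>
    intro h H
    simp only [cellsFrom, H h le_rfl, ih (h + 1) fun y hy => H y (by omega)]

theorem cellsFrom_eq (κ : ℕ → Fin P.r → P.Cl) (a : ℕ → ℕ) :
    ∀ n h, cellsFrom κ a h n = (List.range' h n).map fun y => (κ y, a y) := by
  intro n
  induction n with
  | zero => intro _; rfl
  | succ n ih => intro h; simp [cellsFrom, ih, List.range'_succ]

theorem tUp_tapeOf {N : ℕ} (κ : ℕ → Fin P.r → P.Cl) (a : ℕ → ℕ) {h : ℕ} (hh : h < N) :
    tUp (tapeOf N κ a h) = tapeOf N κ a (h + 1) := by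
  unfold tapeOf
  rw [show N - h = (N - (h + 1)) + 1 by omega]
  rfl

theorem tDown_tapeOf {N : ℕ} (κ : ℕ → Fin P.r → P.Cl) (a : ℕ → ℕ) {h : ℕ} (hh : h < N) :
    tDown (tapeOf N κ a (h + 1)) = tapeOf N κ a h := by
  unfold tapeOf
  rw [show N - h = (N - (h + 1)) + 1 by omega]
  rfl

theorem tInc_tapeOf {N : ℕ} (κ : ℕ → Fin P.r → P.Cl) (a : ℕ → ℕ) (h : ℕ) :
    tInc (tapeOf N κ a (h + 1)) = tapeOf N κ (update a h (a h + 1)) (h + 1) := by
  unfold tapeOf
  rw [cellsFrom_congr κ (a := update a h (a h + 1)) (a' := a) _ _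
    fun y hy => update_of_ne (by omega) _ _]
  simp only [cellsTo, tInc, update_self]
  rw [cellsTo_congr κ (a := update a h (a h + 1)) (a' := a) _
    fun y hy => update_of_ne (by omega) _ _]

theorem iter_tUp {N : ℕ} (κ : ℕ → Fin P.r → P.Cl) (a : ℕ → ℕ) : ∀ n h, h + n ≤ N →
    tUp^[n] (tapeOf N κ a h) = tapeOf N κ a (h + n) := by
  intro n
  induction n with
  | zero => intro _ _; rfl
  | succ n ih =>
    intro h H
    rw [iterate_succ_apply, tUp_tapeOf κ a (by omega), ih _ (by omega)]
    congr 1
    omega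

theorem iter_tDown {N : ℕ} (κ : ℕ → Fin P.r → P.Cl) (a : ℕ → ℕ) : ∀ n h, h + n ≤ N →
    tDown^[n] (tapeOf N κ a (h + n)) = tapeOf N κ a h := by
  intro n
  induction n with
  | zero => intro _ _; rfl
  | succ n ih =>
    intro h H
    rw [iterate_succ_apply, ← add_assoc, tDown_tapeOf κ a (by omega), ih _ (by omega)]

/-- The vector of increments of a walk started at `x`. -/
noncomputable def vec {r : ℕ} : (Fin r → ℤ) → List (Op r) → ((Fin r → ℤ) →₀ ℤ)
  | _, [] => 0
  | x, none :: l => Finsupp.single x 1 + vec x l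
  | x, some m :: l => vec (x + mvOp (some m)) l

/-- The walk started at `x` only visits points with property `Q`. -/
def Stays {r : ℕ} (Q : (Fin r → ℤ) → Prop) : (Fin r → ℤ) → List (Op r) → Prop
  | x, [] => Q x
  | x, o :: l => Q x ∧ Stays Q (x + mvOp o) l

theorem Stays.start {r : ℕ} {Q : (Fin r → ℤ) → Prop} {x : Fin r → ℤ} {l : List (Op r)}
    (h : Stays Q x l) : Q x := by
  cases l
  · exact h
  · exact h.1

theorem Stays.mono {r : ℕ} {Q Q' : (Fin r → ℤ) → Prop} (H : ∀ x, Q x → Q' x) :
    ∀ {l : List (Op r)} {x : Fin r → ℤ}, Stays Q x l → Stays Q' x l := by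
  intro l
  induction l with
  | nil => intro x h; exact H x h
  | cons o l ih => intro x h; exact ⟨H x h.1, ih h.2⟩

theorem Stays.append {r : ℕ} {Q : (Fin r → ℤ) → Prop} {l' : List (Op r)} :
    ∀ {l : List (Op r)} {x : Fin r → ℤ}, Stays Q x l → Stays Q (x + disp l) l' →
      Stays Q x (l ++ l') := by
  intro l
  induction l with
  | nil => intro x _ h; simpa using h
  | cons o l ih =>
    intro x h h'
    exact ⟨h.1, ih h.2 (by simpa [add_assoc] using h')⟩

theorem vec_append {r : ℕ} (l' : List (Op r)) : ∀ (l : List (Op r)) (x : Fin r → ℤ),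
    vec x (l ++ l') = vec x l + vec (x + disp l) l' := by
  intro l
  induction l with
  | nil => intro x; simp [vec]
  | cons o l ih =>
    intro x
    cases o with
    | none => simp [vec, ih, mvOp, add_assoc]
    | some m => simp [vec, ih, add_assoc]

theorem vec_support {r : ℕ} {Q : (Fin r → ℤ) → Prop} : ∀ {l : List (Op r)} {x : Fin r → ℤ},
    Stays Q x l → ∀ y, vec x l y ≠ 0 → Q y := by
  intro l
  induction l with
  | nil => intro x _ y hy; simp [vec] at hy
  | cons o l ih =>
    intro x h y hy
    cases o with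
    | none =>
      by_cases hxy : x = y
      · exact hxy ▸ h.1
      · refine ih h.2 y ?_
        simpa [vec, mvOp, Finsupp.single_apply, hxy] using hy
    | some m => exact ih h.2 y hy

theorem fold_tapeOf {D : ℕ} (κ : ℕ → Fin P.r → P.Cl) :
    ∀ (ops : List (Op P.r)) (x : Fin P.r → ℤ) (a : ℕ → ℕ) (h : ℕ), Stays (InBox D) x ops →
      pos D x = h → ∃ (a' : ℕ → ℕ) (h' : ℕ), h' < D ^ P.r ∧
        ops.foldl (fun T o => tOp (genTok P.r D P.r) o T) (tapeOf (D ^ P.r) κ a (h + 1)) =
          tapeOf (D ^ P.r) κ a' (h' + 1) ∧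
        (∀ y < D ^ P.r, (a' y : ℤ) = a y + vec x ops (mu P.r D y)) ∧
        ∀ y, a' y ≤ a y + ops.length := by
  intro ops
  induction ops with
  | nil =>
    intro x a h hs hp
    obtain ⟨y, hy, h1, -⟩ := box_exists hs.start
    exact ⟨a, h, by omega, rfl, by simp [vec], by simp⟩
  | cons o ops ih =>
    intro x a h hs hp
    obtain ⟨y0, hy0, h1, -⟩ := box_exists hs.start
    rcases o with _ | ⟨i, e⟩
    · obtain ⟨a', h', r1, r2, r3, r4⟩ := ih x (update a h (a h + 1)) h
        (by simpa [mvOp] using hs.2) hp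
      refine ⟨a', h', r1, by rw [List.foldl_cons, tOp, tInc_tapeOf, r2], fun y hy => ?_,
        fun y => ?_⟩
      · rw [r3 y hy]
        simp only [vec, Finsupp.add_apply, Finsupp.single_apply]
        have := mu_eq_iff hy hs.start
        by_cases hyh : y = h
        · subst hyh
          rw [if_pos (this.2 hp).symm]
          simp [add_assoc]
        · rw [if_neg fun e => hyh (by have := this.1 e.symm; omega), update_of_ne hyh]
          simp
      · have := r4 y
        by_cases hyh : y = h
        · subst hyh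
          simp at this ⊢
          omega
        · rw [update_of_ne hyh] at this
          simp
          omega
    · obtain ⟨y1, hy1, h2, -⟩ := box_exists hs.2.start
      obtain ⟨a', h', r1, r2, r3, r4⟩ := ih _ a y1 hs.2 h2
      refine ⟨a', h', r1, ?_, r3, fun y => by have := r4 y; simp; omega⟩
      rw [List.foldl_cons, tOp, genTok_count, ← r2]
      congr 1
      rw [pos_add, mvOp, pos_single, hp] at h2
      cases e
      · have : h = y1 + D ^ (i : ℕ) := by
          simp at h2
          zify
          linarith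
        simp only [Bool.false_eq_true, if_false]
        rw [show h + 1 = y1 + 1 + D ^ (i : ℕ) by omega, iter_tDown _ _ _ _ (by omega)]
      · have : y1 = h + D ^ (i : ℕ) := by
          simp at h2
          zify
          linarith
        simp only [if_true]
        rw [iter_tUp _ _ _ _ (by omega)]
        congr 1
        omega

theorem finalCells_eq (ρ : ℕ) (ops : List (Op P.r)) (hD : 0 < side P ρ)
    (hs : Stays (InBox (side P ρ)) 0 (allOps P ρ ops)) :
    ∃ a : ℕ → ℕ, finalCells P ρ ops = cellsTo (clsAt P (side P ρ)) a (side P ρ ^ P.r) ∧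
      (∀ y < side P ρ ^ P.r, (a y : ℤ) = vec 0 (allOps P ρ ops) (mu P.r (side P ρ) y)) ∧
      ∀ y, a y ≤ (allOps P ρ ops).length := by
  obtain ⟨a, h, r1, r2, r3, r4⟩ := fold_tapeOf (clsAt P (side P ρ)) (allOps P ρ ops) 0
    (fun _ => 0) 0 hs (by simp [pos])
  refine ⟨a, ?_, by simpa using r3, by simpa using r4⟩
  have : finalTape P ρ ops = tapeOf (side P ρ ^ P.r) (clsAt P (side P ρ)) a (h + 1) := by
    rw [← r2, finalTape, ← tUp_tapeOf _ _ (by positivity)]
    congr 2
    simp [tapeOf, cellsFrom_eq, genLab_final hD, cellsTo, List.range_eq_range']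
  rw [finalCells, this, tapeOf, cells_join]
  congr 1
  omega

end Pool.Agent.Lib.MP_2ec175_al
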