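import Pool.Agent.Lib.MP_2ec175_al.Heavy

/-!
The two decision procedures, stated for `Turing.TM2` machines.
-/

set_option autoImplicit false
set_option linter.unusedSectionVars false

namespace Pool.Agent.Lib.MP_2ec175_al

open Function Pool.Agent.Shared.StackProg

/-- Some finite multi-stack machine decides `L`, halting on `w` within `cost w` steps. -/
def Dec {α : Type} (L : List α → Prop) (cost : List α → ℕ) : Prop :=
  ∃ (K : Type) (_ : DecidableEq K) (_ : Fintype K)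
    (Γ : K → Type) (_ : ∀ k, Fintype (Γ k))
    (Λ : Type) (_ : Inhabited Λ) (_ : Fintype Λ)
    (σ : Type) (_ : Inhabited σ) (_ : Fintype σ)
    (M : Λ → Turing.TM2.Stmt Γ Λ σ) (k0 : K) (enc : α → Γ k0)
    (acc : σ → Bool) (T : List α → ℕ),
    Function.Injective enc ∧
    (∀ w : List α,
      (∃ c : Turing.TM2.Cfg Γ Λ σ,
        (fun d : Option (Turing.TM2.Cfg Γ Λ σ) => d.bind (Turing.TM2.step M))^[T w]
            (some (Turing.TM2.init k0 (w.map enc) : Turing.TM2.Cfg Γ Λ σ)) = some c ∧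
          c.l = none ∧ (acc c.var = true ↔ L w)) ∧
      (∀ t < T w, ∀ c : Turing.TM2.Cfg Γ Λ σ,
        (fun d : Option (Turing.TM2.Cfg Γ Λ σ) => d.bind (Turing.TM2.step M))^[t]
            (some (Turing.TM2.init k0 (w.map enc) : Turing.TM2.Cfg Γ Λ σ)) = some c →
          c.l ≠ none)) ∧
    ∀ w, T w ≤ cost w

theorem Dec.congr {α : Type} {L L' : List α → Prop} {cost : List α → ℕ} (h : Dec L cost)
    (hL : ∀ w, L w ↔ L' w) : Dec L' cost := by
  have : L = L' := funext fun w => propext (hL w)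
  exact this ▸ h

/-- The initial control state. -/
noncomputable def st0 (P : Par) : St P :=
  ⟨P.t0, false, none, P.c0, fun _ => P.c0, false, fun _ => clamp P 0, fun _ => false⟩

theorem dec_of_run {P : Par} (p : Pg P) (L : List P.α → Prop) (cost : List P.α → ℕ)
    (h : ∀ w, ∃ s' k', Run p (st0 P) { inp := w.map .lt } s' k' (cost w) ∧ (s'.ok = true ↔ L w)) :
    Dec L fun w => 2 * cost w := by
  obtain ⟨Λ, i1, i2, τ, i3, i4, M, acc, T, h1, h2⟩ := exists_tm2 p (st0 P) Kk.inp Gm.lt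
    (fun s => s.ok) L cost fun w => by
      obtain ⟨s', k', h1, h2⟩ := h w
      refine ⟨s', k'.fn, ?_, h2⟩
      have : update (fun _ => []) Kk.inp (w.map Gm.lt) = Sk.fn { inp := w.map .lt } := by
        funext j
        cases j <;> simp [Sk.fn]
      rw [this]
      exact h1
  exact ⟨Kk P, inferInstance, inferInstance, fun _ => Gm P, inferInstance, Λ, i1, i2, τ, i3, i4,
    M, Kk.inp, Gm.lt, acc, T, fun a b hab => Gm.lt.inj hab, h1, h2⟩

/-- The operations produced by a finite transducer. -/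
def opsG {α T : Type} {r : ℕ} (tr : T → α → T) (prog : T → α → List (Op r)) :
    T → List α → List (Op r)
  | _, [] => []
  | t, a :: w => prog t a ++ opsG tr prog (tr t a) w

theorem opsOf_eq (P : Par) : ∀ (w : List P.α) (t : P.T), opsOf P t w = opsG P.tr P.prog t w := by
  intro w
  induction w with
  | nil => intro _; rfl
  | cons a w ih => intro t; simp [opsOf, opsG, ih]

theorem dec_light {α T : Type} [Fintype α] [Fintype T] {r : ℕ} (tr : T → α → T)
    (prog : T → α → List (Op r)) (accT : T → Bool) (t0 : T) :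
    Dec (fun w => accT (w.foldl tr t0) = true ∧ disp (opsG tr prog t0 w) = 0)
      fun w => 2 * (2 * w.length + 4 * (opsG tr prog t0 w).length + 4) := by
  let P : Par :=
    { α := α, T := T, Cl := Unit, Δ := Empty, r := r, b := 2, hb := le_rfl, C := 0, tr := tr,
      prog := prog, accT := accT, t0 := t0, c0 := (), nxt := id, c1 := 0, B := 0, p := 0,
      off := fun _ => 0, d := fun _ => 0, g := fun _ _ => 0 }
  refine dec_of_run (P := P) (pFilter P) _ _ fun w => ?_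
  obtain ⟨s', c, gp, h1, h2⟩ := run_pFilter w (st0 P) rfl
  rw [Pass, opsOf_eq] at h2
  rw [opsOf_eq] at h1
  exact ⟨s', _, h1, h2⟩

theorem exists_par {α T : Type} [Fintype α] [Fintype T] {r : ℕ} (trs : T → α → T)
    (prog : T → α → List (Op r)) (accT : T → Bool) (t0 : T) {p : ℕ} (hp : 1 ≤ p)
    (U : AddSubgroup ((Fin r → ℤ) →₀ ℤ)) (hU : ∀ z : Fin r → ℤ, ∀ v ∈ U, tr ((p : ℤ) • z) v ∈ U) :
    ∃ (Cl Δ : Type) (_ : Fintype Cl) (_ : Fintype Δ) (b : ℕ) (hb : 2 ≤ b) (C : ℕ) (c0 : Cl)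
      (nxt : Cl → Cl) (B : ℕ) (off : Δ → Fin r → ℤ) (d : (Fin r → Cl) → ℤ)
      (g : (Fin r → Cl) → Δ → ℤ),
      let P : Par :=
        { α := α, T := T, Cl := Cl, Δ := Δ, r := r, b := b, hb := hb, C := C, tr := trs,
          prog := prog, accT := accT, t0 := t0, c0 := c0, nxt := nxt,
          c1 := (p + 1) * ∑ i : Fin r, B ^ (i : ℕ), B := B, p := p, off := off, d := d, g := g }
      Nonempty (Div P U) ∧ HC P ∧ HD P := by
  classical
  obtain ⟨K, gg, h1, h2⟩ := exists_gb hp hU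
  let cv : (Fin r → Fin (K + p)) → Fin r → ℤ := fun κ i => ((κ i).1 : ℤ)
  let Δ : Finset (Fin r → ℤ) :=
    Finset.univ.biUnion fun κ => ((gg κ).support.erase (cv κ)).image fun ν => cv κ - ν
  obtain ⟨B, hB1, hB⟩ : ∃ B : ℕ, 1 ≤ B ∧ ∀ κ, ∀ ν ∈ (gg κ).support, ∀ j, ν j < B := by
    have hfin : (⋃ κ, ⋃ j, (fun ν : Fin r → ℤ => ν j) '' ((gg κ).support : Set _)).Finite :=
      Set.finite_iUnion fun κ => Set.finite_iUnion fun j => (Finset.finite_toSet _).image _
    obtain ⟨M, hM⟩ := hfin.bddAbove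
    refine ⟨M.toNat + 1, by omega, fun κ ν hν j => ?_⟩
    have := hM (Set.mem_iUnion.2 ⟨κ, Set.mem_iUnion.2 ⟨j, ν, hν, rfl⟩⟩)
    simp only at this
    omega
  let d : (Fin r → Fin (K + p)) → ℤ := fun κ => gg κ (cv κ)
  let g : (Fin r → Fin (K + p)) → Δ → ℤ := fun κ δ => gg κ (cv κ - δ.1)
  let b : ℕ := 2 * ∏ κ, if d κ = 0 then 1 else (d κ).natAbs
  have hb : 2 ≤ b := by
    have : 0 < ∏ κ, if d κ = 0 then 1 else (d κ).natAbs :=
      Finset.prod_pos fun κ _ => by split_ifs <;> omega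
    omega
  obtain ⟨C, hC⟩ : ∃ C : ℕ, ∀ κ (j : Option Δ),
      |(match j with
        | none => if d κ = 0 then 1 else 0
        | some δ => -g κ δ * (b / d κ) : ℤ)| * ((Fintype.card Δ + 1) * b) + 2 ≤ C := by
    obtain ⟨M, hM⟩ := (Set.finite_range fun x : (Fin r → Fin (K + p)) × Option Δ =>
      |(match x.2 with
        | none => if d x.1 = 0 then 1 else 0
        | some δ => -g x.1 δ * (b / d x.1) : ℤ)| * ((Fintype.card Δ + 1) * b) + 2).bddAbove
    refine ⟨M.toNat, fun κ j => (hM ⟨(κ, j), rfl⟩).trans (Int.self_le_toNat M)⟩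
  refine ⟨Fin (K + p), Δ, inferInstance, inferInstance, b, hb, C, ⟨0, by omega⟩, nxtK K p hp, B,
    fun δ => δ.1, d, g, ⟨?_⟩, ?_, ?_⟩
  · refine
      { cv := fun c => c.1, gg := gg, inv := hU, cv_spec := fun x => (clK_spec K p hp x).1,
        mem := fun κ => (h1 κ).1, supp := fun κ ν hν => ⟨((h1 κ).2 ν hν).1, ?_⟩,
        d_eq := fun _ => rfl, g_eq := fun _ _ => rfl, inj := Subtype.val_injective,
        one_le := ?_, hB := hB1, dvd := h2 }
    · by_cases h : ν = cv κ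
      · exact Or.inl h
      · refine Or.inr ⟨⟨cv κ - ν, ?_⟩, rfl⟩
        exact Finset.mem_biUnion.2 ⟨κ, Finset.mem_univ _, Finset.mem_image_of_mem _
          (Finset.mem_erase.2 ⟨h, Finsupp.mem_support_iff.2 hν⟩)⟩
    · rintro ⟨δ, hδ⟩ D hD
      obtain ⟨κ, -, hδ⟩ := Finset.mem_biUnion.1 hδ
      obtain ⟨ν, hν, rfl⟩ := Finset.mem_image.1 hδ
      obtain ⟨hν1, hν2⟩ := Finset.mem_erase.1 hν
      have h3 := ((h1 κ).2 ν (Finsupp.mem_support_iff.1 hν2)).2.resolve_left hν1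
      have h4 := h3.pos_lt (D := D) (fun j => (hB κ ν hν2 j).trans_le (by exact_mod_cast hD))
        (fun j => Nat.cast_nonneg _)
      change 1 ≤ pos D (cv κ - ν)
      rw [pos_sub]
      change pos D ν < pos D (cv κ) at h4
      omega
  · intro κ j
    cases j with
    | none => exact hC κ none
    | some δ => exact hC κ (some δ)
  · intro κ hκ
    change d κ ∣ (b : ℤ)
    change d κ ≠ 0 at hκ
    rw [← Int.natAbs_dvd, Int.natCast_dvd_natCast]
    refine Dvd.dvd.mul_left ?_ 2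
    have := Finset.dvd_prod_of_mem (fun κ => if d κ = 0 then 1 else (d κ).natAbs) (Finset.mem_univ κ)
    simpa [hκ] using this

open Classical in
theorem dec_heavy {α T : Type} [Fintype α] [Fintype T] {r : ℕ} (hr : 1 ≤ r) (trs : T → α → T)
    (prog : T → α → List (Op r)) (accT : T → Bool) (t0 : T) {p : ℕ} (hp : 1 ≤ p)
    (U : AddSubgroup ((Fin r → ℤ) →₀ ℤ)) (hU : ∀ z : Fin r → ℤ, ∀ v ∈ U, tr ((p : ℤ) • z) v ∈ U)
    (A : ℕ) :
    ∃ Cst : ℕ, ∀ lam y : List α → ℕ,
      (∀ w, rhoOf 0 0 (opsG trs prog t0 w) + 1 ≤ lam w ∧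
        (opsG trs prog t0 w).length ≤ A * lam w ^ 2 ∧
        (rhoOf 0 0 (opsG trs prog t0 w) * (p * r) + (opsG trs prog t0 w).length).size + 1 ≤ y w) →
      Dec (fun w => (accT (w.foldl trs t0) = true ∧ disp (opsG trs prog t0 w) = 0) ∧
          vec 0 (opsG trs prog t0 w) ∈ U)
        fun w => 2 * (2 * w.length + 4 * (opsG trs prog t0 w).length + 6 +
          if disp (opsG trs prog t0 w) = 0 then Cst * (y w * lam w ^ (r + 1)) else 0) := by
  obtain ⟨Cl, Δ, i1, i2, b, hb, C, c0, nxt, B, off, d, g, H⟩ :=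
    exists_par trs prog accT t0 hp U hU
  let P : Par :=
    { α := α, T := T, Cl := Cl, Δ := Δ, r := r, b := b, hb := hb, C := C, tr := trs,
      prog := prog, accT := accT, t0 := t0, c0 := c0, nxt := nxt,
      c1 := (p + 1) * ∑ i : Fin r, B ^ (i : ℕ), B := B, p := p, off := off, d := d, g := g }
  obtain ⟨⟨H1⟩, H2, H3⟩ : Nonempty (Div P U) ∧ HC P ∧ HD P := H
  obtain ⟨Cst, hC⟩ := heavy_spec H1 H2 H3 hp hr rfl A
  refine ⟨Cst, fun lam y h => ?_⟩
  refine dec_of_run (P := P) (.seq (pFilter P) (.ite (fun s _ => s.ok) (pHeavy P) skip)) _ _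
    fun w => ?_
  obtain ⟨s', c, gp, h1, h2⟩ := run_pFilter w (st0 P) rfl
  rw [Pass, opsOf_eq] at h2
  rw [opsOf_eq] at h1
  by_cases hs : s'.ok = true
  · obtain ⟨s'', k'', h3, h4⟩ := hC (opsG trs prog t0 w) (lam w) (y w) (h w).1 (h w).2.1
      (by rw [allOps_length]; exact (h w).2.2) s' c gp
    refine ⟨s'', k'', (h1.seq (Run.ite_true hs h3)).mono ?_, ?_⟩
    · have h5 : disp (opsG trs prog t0 w) = 0 := (h2.1 hs).2
      rw [if_pos h5]
      change 2 * w.length + 4 * (opsG trs prog t0 w).length + 4 +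
        (Cst * (y w * lam w ^ (r + 1)) + 1) ≤ _
      omega
    · rw [h4]
      exact ⟨fun h5 => ⟨h2.1 hs, h5⟩, fun h5 => h5.2⟩
  · refine ⟨s', _, (h1.seq (Run.ite_false (by simpa using hs) (run_skip _ _))).mono ?_, ?_⟩
    · change 2 * w.length + 4 * (opsG trs prog t0 w).length + 4 + (1 + 1) ≤ _
      omega
    · exact ⟨fun h5 => absurd h5 hs, fun h5 => h2.2 h5.1⟩

end Pool.Agent.Lib.MP_2ec175_al
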