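import Pool.Agent.Lib.MP_2ec175_al.Arr

/-!
Division data (a strong Groebner basis in tabulated form) for a translation invariant subgroup of
the integer valued finitely supported functions on a lattice, and the correctness of the streaming
reduction.
-/

set_option autoImplicit false
set_option linter.unusedSectionVars false

namespace Pool.Agent.Lib.MP_2ec175_al

open Function

/-- The strict colexicographic order. -/
def CLt {r : ℕ} (ν μ : Fin r → ℤ) : Prop := ∃ i, ν i < μ i ∧ ∀ j, i < j → ν j = μ j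

theorem CLt.add {r : ℕ} {ν μ : Fin r → ℤ} (h : CLt ν μ) (t : Fin r → ℤ) : CLt (ν + t) (μ + t) := by
  obtain ⟨i, h1, h2⟩ := h
  exact ⟨i, by simpa using h1, fun j hj => by simp [h2 j hj]⟩

theorem clt_total {r : ℕ} {ν μ : Fin r → ℤ} (h : ν ≠ μ) : CLt ν μ ∨ CLt μ ν := by
  classical
  have hne : (Finset.univ.filter fun j => ν j ≠ μ j).Nonempty := by
    obtain ⟨j, hj⟩ := Function.ne_iff.1 h
    exact ⟨j, by simpa using hj⟩
  obtain ⟨i, hi, hmax⟩ := Finset.exists_max_image _ id hne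
  have h2 : ∀ j, i < j → ν j = μ j := by
    intro j hj
    by_contra hc
    exact absurd (hmax j (by simpa using hc)) (not_le.2 hj)
  rcases lt_or_gt_of_ne (Finset.mem_filter.1 hi).2 with h1 | h1
  · exact Or.inl ⟨i, h1, h2⟩
  · exact Or.inr ⟨i, h1, fun j hj => (h2 j hj).symm⟩

theorem sum_range_lower (D : ℤ) (hD : 0 ≤ D) (f : ℕ → ℤ) :
    ∀ n, (∀ j < n, 1 - D ≤ f j) → 1 - D ^ n ≤ ∑ j ∈ Finset.range n, f j * D ^ j := by
  intro n
  induction n with
  | zero => simp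
  | succ n ih =>
    intro h
    rw [Finset.sum_range_succ, pow_succ]
    have h1 := ih fun j hj => h j (by omega)
    have h2 := mul_le_mul_of_nonneg_right (h n (by omega)) (pow_nonneg hD n)
    nlinarith

theorem CLt.pos_lt {r D : ℕ} {ν μ : Fin r → ℤ} (h : CLt ν μ) (h1 : ∀ j, ν j < D)
    (h2 : ∀ j, 0 ≤ μ j) : pos D ν < pos D μ := by
  obtain ⟨i, hi, hj⟩ := h
  let f : ℕ → ℤ := fun j => if h : j < r then μ ⟨j, h⟩ - ν ⟨j, h⟩ else 0
  have e1 : pos D (μ - ν) = ∑ j ∈ Finset.range r, f j * (D : ℤ) ^ j := by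
    rw [← Fin.sum_univ_eq_sum_range (fun j => f j * (D : ℤ) ^ j), pos]
    refine Finset.sum_congr rfl fun j _ => ?_
    simp [f]
  have e2 : ∑ j ∈ Finset.range r, f j * (D : ℤ) ^ j =
      ∑ j ∈ Finset.range (i + 1), f j * (D : ℤ) ^ j := by
    symm
    refine Finset.sum_subset (Finset.range_subset_range.2 i.2) fun j hj1 hj2 => ?_
    rw [Finset.mem_range] at hj1 hj2
    have := hj ⟨j, hj1⟩ (by rw [Fin.lt_def]; simp; omega)
    simp [f, hj1, this]
  have e3 := sum_range_lower D (Nat.cast_nonneg _) f i (by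
    intro j hj
    have hjr : j < r := hj.trans i.2
    have := h1 ⟨j, hjr⟩
    have := h2 ⟨j, hjr⟩
    simp only [f, dif_pos hjr]
    omega)
  have e4 : 1 ≤ f i := by
    simp only [f, dif_pos i.2, Fin.eta]
    omega
  have e5 := mul_le_mul_of_nonneg_right e4 (pow_nonneg (Nat.cast_nonneg D : (0 : ℤ) ≤ D) i)
  rw [e2, Finset.sum_range_succ, pos_sub] at e1
  omega

theorem le_pos {r B : ℕ} (hB : 1 ≤ B) {ν : Fin r → ℤ} (h : 0 ≤ ν) (i : Fin r) : ν i ≤ pos B ν := by
  refine le_trans ?_ (Finset.single_le_sum (f := fun i => ν i * (B : ℤ) ^ (i : ℕ))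
    (fun j _ => mul_nonneg (h j) (by positivity)) (Finset.mem_univ i))
  have : (1 : ℤ) ≤ (B : ℤ) ^ (i : ℕ) := one_le_pow₀ (by exact_mod_cast hB)
  have h0 : 0 ≤ ν i := h i
  nlinarith

theorem pos_nonneg {r B : ℕ} {ν : Fin r → ℤ} (h : 0 ≤ ν) : 0 ≤ pos B ν :=
  Finset.sum_nonneg fun j _ => mul_nonneg (h j) (by positivity)

/-- Translation of finitely supported functions. -/
noncomputable def tr {r : ℕ} (t : Fin r → ℤ) (v : (Fin r → ℤ) →₀ ℤ) : (Fin r → ℤ) →₀ ℤ :=
  Finsupp.mapDomain (· + t) v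

theorem tr_apply {r : ℕ} (t : Fin r → ℤ) (v : (Fin r → ℤ) →₀ ℤ) (x : Fin r → ℤ) :
    tr t v x = v (x - t) := by
  conv_lhs => rw [show x = (x - t) + t by simp]
  exact Finsupp.mapDomain_apply (add_left_injective t) v _

/-- The support of `u` lies in the positive orthant, at or below `μ`. -/
def Below {r : ℕ} (u : (Fin r → ℤ) →₀ ℤ) (μ : Fin r → ℤ) : Prop :=
  ∀ ν, u ν ≠ 0 → 0 ≤ ν ∧ (ν = μ ∨ CLt ν μ)

/-- The ideal of leading coefficients at `μ`. -/
def lead {r : ℕ} (U : AddSubgroup ((Fin r → ℤ) →₀ ℤ)) (μ : Fin r → ℤ) : Submodule ℤ ℤ where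
  carrier := {c | ∃ u ∈ U, Below u μ ∧ u μ = c}
  zero_mem' := ⟨0, U.zero_mem, fun ν h => absurd rfl h, rfl⟩
  add_mem' := by
    rintro _ _ ⟨u, hu, h1, rfl⟩ ⟨v, hv, h2, rfl⟩
    refine ⟨u + v, U.add_mem hu hv, fun ν h => ?_, rfl⟩
    by_cases h3 : u ν = 0
    · exact h2 ν (by simpa [h3] using h)
    · exact h1 ν h3
  smul_mem' := by
    rintro c _ ⟨u, hu, h1, rfl⟩
    refine ⟨c • u, U.zsmul_mem hu c, fun ν h => h1 ν fun h3 => h (by simp [h3]), rfl⟩

theorem lead_mono {r p : ℕ} {U : AddSubgroup ((Fin r → ℤ) →₀ ℤ)}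
    (hU : ∀ z : Fin r → ℤ, ∀ v ∈ U, tr ((p : ℤ) • z) v ∈ U) {μ μ' : Fin r → ℕ}
    (h : ∀ i, ∃ t, μ' i = μ i + p * t) :
    lead U (fun i => (μ i : ℤ)) ≤ lead U (fun i => (μ' i : ℤ)) := by
  choose t ht using h
  rintro _ ⟨u, hu, h1, rfl⟩
  have e : (fun i => (μ' i : ℤ)) = (fun i => (μ i : ℤ)) + (p : ℤ) • fun i => (t i : ℤ) := by
    funext i; simp [ht]
  refine ⟨tr ((p : ℤ) • fun i => (t i : ℤ)) u, hU _ _ hu, fun ν hν => ?_, ?_⟩
  · rw [tr_apply] at hν
    obtain ⟨h2, h3⟩ := h1 _ hν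
    refine ⟨fun i => ?_, ?_⟩
    · have := h2 i
      simp only [Pi.zero_apply, Pi.sub_apply, Pi.smul_apply, smul_eq_mul] at this ⊢
      have : (0 : ℤ) ≤ p * t i := by positivity
      omega
    · rcases h3 with h3 | h3
      · left; rw [e, ← h3]; simp
      · right
        have := h3.add ((p : ℤ) • fun i => (t i : ℤ))
        rw [e]
        simpa using this
  · rw [tr_apply, e]; simp

/-- The successor map on classes. -/
def nxtK (K p : ℕ) (hp : 0 < p) (c : Fin (K + p)) : Fin (K + p) :=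
  if h : c.1 + 1 < K + p then ⟨c.1 + 1, h⟩ else ⟨K, by omega⟩

/-- The class of a natural number. -/
def clK (K p : ℕ) (hp : 0 < p) (x : ℕ) : Fin (K + p) := (nxtK K p hp)^[x] ⟨0, by omega⟩

theorem clK_spec (K p : ℕ) (hp : 0 < p) (x : ℕ) :
    (∃ t, x = (clK K p hp x).1 + p * t) ∧ ((clK K p hp x).1 = x ∨ K ≤ (clK K p hp x).1) := by
  induction x with
  | zero => exact ⟨⟨0, rfl⟩, Or.inl rfl⟩
  | succ x ih =>
    obtain ⟨⟨t, ht⟩, h2⟩ := ih
    have e : clK K p hp (x + 1) = nxtK K p hp (clK K p hp x) := iterate_succ_apply' _ _ _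
    have hlt := (clK K p hp x).2
    rw [e, nxtK]
    split_ifs with h
    · exact ⟨⟨t, by simp only; omega⟩, by simp only; omega⟩
    · exact ⟨⟨t + 1, by simp only; rw [mul_add]; omega⟩, Or.inr le_rfl⟩

theorem wqo_period {p : ℕ} (hp : 0 < p) : WellQuasiOrdered fun a b : ℕ => ∃ t, b = a + p * t := by
  intro f
  obtain ⟨m, n, hmn, h1, h2⟩ := (wellQuasiOrdered_le (α := ℕ)).prod
    (Finite.wellQuasiOrdered (α := Fin p) Eq) fun n => (f n / p, ⟨f n % p, Nat.mod_lt _ hp⟩)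
  simp only [Fin.mk.injEq] at h1 h2
  obtain ⟨t, ht⟩ := Nat.exists_eq_add_of_le h1
  refine ⟨m, n, hmn, t, ?_⟩
  have e1 := Nat.div_add_mod (f m) p
  have e2 := Nat.div_add_mod (f n) p
  rw [ht, mul_add] at e2
  omega

theorem exists_stable {r p : ℕ} (hp : 0 < p) {U : AddSubgroup ((Fin r → ℤ) →₀ ℤ)}
    (hU : ∀ z : Fin r → ℤ, ∀ v ∈ U, tr ((p : ℤ) • z) v ∈ U) :
    ∃ K, ∀ μ : Fin r → ℕ,
      lead U (fun i => (μ i : ℤ)) ≤ lead U (fun i => (((clK K p hp (μ i)).1 : ℕ) : ℤ)) := by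
  by_contra hcon
  push Not at hcon
  choose μ hμ using hcon
  have i1 : IsPreorder ℕ fun a b : ℕ => ∃ t, b = a + p * t :=
    { refl := fun a => ⟨0, rfl⟩
      trans := by
        rintro a b c ⟨t, rfl⟩ ⟨s, rfl⟩
        exact ⟨t + s, by ring⟩ }
  have i2 : IsPreorder (Fin r → ℕ) fun a b : Fin r → ℕ => ∀ i, ∃ t, b i = a i + p * t :=
    { refl := fun a i => ⟨0, rfl⟩
      trans := fun a b c h1 h2 i => i1.trans _ _ _ (h1 i) (h2 i) }
  obtain ⟨g, hg⟩ := (WellQuasiOrdered.pi (r := fun _ : Fin r => fun a b : ℕ => ∃ t, b = a + p * t)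
    fun _ => wqo_period hp).exists_monotone_subseq μ
  obtain ⟨n0, hn0⟩ := monotone_stabilizes_iff_noetherian.2 (inferInstance : IsNoetherian ℤ ℤ)
    ⟨fun n => lead U fun i => (μ (g n) i : ℤ), fun m n hmn => lead_mono hU (hg m n hmn)⟩
  let n := n0 + ∑ i, μ (g n0) i
  have hn : ∀ i, μ (g n0) i ≤ g n := fun i =>
    ((Finset.single_le_sum (f := μ (g n0)) (fun _ _ => Nat.zero_le _) (Finset.mem_univ i)).trans
      (Nat.le_add_left _ _)).trans (g.strictMono.id_le n)
  apply hμ (g n)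
  have e : (lead U fun i => (μ (g n0) i : ℤ)) = lead U fun i => (μ (g n) i : ℤ) :=
    hn0 n (Nat.le_add_right _ _)
  rw [← e]
  refine lead_mono hU fun i => ?_
  obtain ⟨t, ht⟩ := hg n0 n (Nat.le_add_right _ _) i
  obtain ⟨⟨s, hs⟩, h2⟩ := clK_spec (g n) p hp (μ (g n) i)
  have h3 := hn i
  have h4 : s ≤ t := by
    by_contra hlt
    push Not at hlt
    have : p * (t + 1) ≤ p * s := Nat.mul_le_mul_left _ hlt
    rw [mul_add] at this
    rcases h2 with h2 | h2 <;> omega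
  obtain ⟨e, rfl⟩ := Nat.exists_eq_add_of_le h4
  exact ⟨e, by rw [mul_add] at ht; omega⟩

theorem exists_gb {r p : ℕ} (hp : 0 < p) {U : AddSubgroup ((Fin r → ℤ) →₀ ℤ)}
    (hU : ∀ z : Fin r → ℤ, ∀ v ∈ U, tr ((p : ℤ) • z) v ∈ U) :
    ∃ (K : ℕ) (g : (Fin r → Fin (K + p)) → ((Fin r → ℤ) →₀ ℤ)),
      (∀ κ, g κ ∈ U ∧ Below (g κ) fun i => ((κ i).1 : ℤ)) ∧
      ∀ (μ : Fin r → ℕ), ∀ u ∈ U, Below u (fun i => (μ i : ℤ)) →
        g (fun i => clK K p hp (μ i)) (fun i => ((clK K p hp (μ i)).1 : ℤ)) ∣ u fun i => (μ i : ℤ) := by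
  obtain ⟨K, hK⟩ := exists_stable hp hU
  have h : ∀ κ : Fin r → Fin (K + p), ∃ u ∈ U, Below u (fun i => ((κ i).1 : ℤ)) ∧
      u (fun i => ((κ i).1 : ℤ)) =
        Submodule.IsPrincipal.generator (lead U fun i => ((κ i).1 : ℤ)) :=
    fun κ => Submodule.IsPrincipal.generator_mem (lead U fun i => ((κ i).1 : ℤ))
  choose g h1 h2 h3 using h
  refine ⟨K, g, fun κ => ⟨h1 κ, h2 κ⟩, fun μ u hu hb => ?_⟩
  rw [h3]
  exact (Submodule.IsPrincipal.mem_iff_generator_dvd _).1 (hK μ ⟨u, hu, hb, rfl⟩)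

/-- The division data attached to the parameters of the machine. -/
structure Div (P : Par) (U : AddSubgroup ((Fin P.r → ℤ) →₀ ℤ)) where
  cv : P.Cl → ℕ
  gg : (Fin P.r → P.Cl) → ((Fin P.r → ℤ) →₀ ℤ)
  inv : ∀ z : Fin P.r → ℤ, ∀ v ∈ U, tr ((P.p : ℤ) • z) v ∈ U
  cv_spec : ∀ x, ∃ t, x = cv (P.nxt^[x] P.c0) + P.p * t
  mem : ∀ κ, gg κ ∈ U
  supp : ∀ κ ν, gg κ ν ≠ 0 → 0 ≤ ν ∧
    ((ν = fun i => (cv (κ i) : ℤ)) ∨ ∃ δ, P.off δ = (fun i => (cv (κ i) : ℤ)) - ν)
  d_eq : ∀ κ, P.d κ = gg κ fun i => (cv (κ i) : ℤ)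
  g_eq : ∀ κ δ, P.g κ δ = gg κ ((fun i => (cv (κ i) : ℤ)) - P.off δ)
  inj : Injective P.off
  one_le : ∀ δ D, P.B ≤ D → 1 ≤ pos D (P.off δ)
  hB : 1 ≤ P.B
  dvd : ∀ (μ : Fin P.r → ℕ), ∀ u ∈ U, Below u (fun i => (μ i : ℤ)) →
    P.d (fun i => P.nxt^[μ i] P.c0) ∣ u fun i => (μ i : ℤ)

theorem getD_tail_append (l : List ℤ) (hl : l ≠ []) (z : ℤ) (k : ℕ) :
    (l.tail ++ [z]).getD k 0 = l.getD (k + 1) 0 + if k + 1 = l.length then z else 0 := by
  obtain ⟨x, l, rfl⟩ := List.exists_cons_of_ne_nil hl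
  simp only [List.tail_cons, List.getD_cons_succ, List.length_cons, Nat.add_right_cancel_iff]
  rcases lt_trichotomy k l.length with h | h | h
  · rw [List.getD_append _ _ _ _ h, if_neg h.ne, add_zero]
  · subst h
    simp
  · rw [List.getD_eq_default _ _ (by simp; omega), List.getD_eq_default _ _ h.le, if_neg h.ne']
    simp

theorem red_correct {P : Par} {U : AddSubgroup ((Fin P.r → ℤ) →₀ ℤ)} (H : Div P U) {D : ℕ}
    (hD : P.B ≤ D) (Wm : ℕ) (hW : Wm < D) (X E : ℕ) (hE1 : 1 ≤ E)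
    (hE : ∀ κ δ, |P.g κ δ| * (Fintype.card P.Δ + 1) ≤ E) (a : ℕ → ℕ) (ha : ∀ y, a y ≤ X) :
    ∀ (x : ℕ) (q : P.Δ → List ℤ) (v : (Fin P.r → ℤ) →₀ ℤ), x ≤ D ^ P.r →
      (∀ ν, v ν ≠ 0 → 0 ≤ ν ∧ pos P.B ν ≤ Wm ∧ pos D ν < x) →
      (∀ δ, ((q δ).length : ℤ) = pos D (P.off δ)) →
      (∀ y < x, v (mu P.r D y) = a y + ∑ δ, (q δ).getD (x - 1 - y) 0) →
      (∀ δ, ∀ y < x, |(q δ).getD (x - 1 - y) 0| ≤
        X * (E : ℤ) ^ (Wm - pos P.B (mu P.r D y)).toNat) →
      (red P (cellsTo (clsAt P D) a x) q ↔ v ∈ U) ∧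
        redBd P ((Fintype.card P.Δ + 1) * (X * (E : ℤ) ^ Wm)) (cellsTo (clsAt P D) a x) q := by
  classical
  have hB := H.hB
  have hD0 : 0 < D := by omega
  have hE1' : (1 : ℤ) ≤ E := by exact_mod_cast hE1
  have box : ∀ ν : Fin P.r → ℤ, 0 ≤ ν → pos P.B ν ≤ Wm → InBox D ν := fun ν h1 h2 i =>
    ⟨h1 i, by have := le_pos hB h1 i; omega⟩
  intro x
  induction x with
  | zero =>
    intro q v _ h1 _ _ _
    have : v = 0 := by
      ext ν
      by_contra hne
      have h2 := h1 ν hne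
      have := pos_nonneg (B := D) h2.1
      omega
    simp [cellsTo, red, redBd, this]
  | succ x ih =>
    intro q v hx h1 h2 h3 h4
    have hx' : x < D ^ P.r := hx
    set μ := mu P.r D x with hμ
    set κ := clsAt P D x with hκ
    have hμ0 : 0 ≤ μ := fun i => (mu_inBox hD0 x i).1
    have hpμ : pos D μ = x := pos_mu hx'
    have hc : curV (κ, a x) q = v μ := by
      rw [h3 x (by omega), curV]
      congr 1
      refine Finset.sum_congr rfl fun δ _ => ?_
      cases q δ <;> simp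
    have hcb : |v μ| ≤ (Fintype.card P.Δ + 1) * (X * (E : ℤ) ^ (Wm - pos P.B μ).toNat) := by
      rw [h3 x (by omega)]
      have e1 : (1 : ℤ) ≤ (E : ℤ) ^ (Wm - pos P.B μ).toNat := one_le_pow₀ hE1'
      have e2 : |(a x : ℤ)| ≤ X * (E : ℤ) ^ (Wm - pos P.B μ).toNat := by
        have : (a x : ℤ) ≤ X := by exact_mod_cast ha x
        rw [abs_of_nonneg (Nat.cast_nonneg _)]
        nlinarith [(Nat.cast_nonneg X : (0 : ℤ) ≤ X)]
      have e3 := (Finset.abs_sum_le_sum_abs _ _).trans (Finset.sum_le_card_nsmul _ _ _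
        fun δ (_ : δ ∈ Finset.univ) => h4 δ x (by omega))
      refine (abs_add_le _ _).trans ?_
      simp only [Finset.card_univ, nsmul_eq_mul] at e3
      linarith
    have hcb' : |v μ| ≤ (Fintype.card P.Δ + 1) * (X * (E : ℤ) ^ Wm) := by
      refine hcb.trans (mul_le_mul_of_nonneg_left (mul_le_mul_of_nonneg_left
        (pow_le_pow_right₀ hE1' ?_) (Nat.cast_nonneg _)) (by positivity))
      have := pos_nonneg (B := P.B) hμ0
      omega
    simp only [cellsTo, red, redBd, ← hκ, hc]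
    by_cases hdv : P.d κ ∣ v μ
    swap
    · refine ⟨⟨fun h => absurd h.1 hdv, fun hv => absurd ?_ hdv⟩, hcb', fun h => absurd h hdv⟩
      refine H.dvd (fun i => x / D ^ (i : ℕ) % D) v hv fun ν hν => ⟨(h1 ν hν).1, ?_⟩
      by_cases hne : ν = μ
      · exact Or.inl hne
      · rcases clt_total hne with h | h
        · exact Or.inr h
        · have e1 := h.pos_lt (D := D) (fun j => (mu_inBox hD0 x j).2) (h1 ν hν).1
          have e2 := (h1 ν hν).2.2
          omega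
    choose t ht using fun i : Fin P.r => H.cv_spec (x / D ^ (i : ℕ) % D)
    let G := tr ((P.p : ℤ) • fun i => (t i : ℤ)) (H.gg κ)
    have hGU : G ∈ U := H.inv _ _ (H.mem κ)
    have hμt : μ - ((P.p : ℤ) • fun i => (t i : ℤ)) = fun i => (H.cv (κ i) : ℤ) := by
      funext i
      have := ht i
      simp only [hμ, mu, hκ, clsAt, Pi.sub_apply, Pi.smul_apply, smul_eq_mul]
      omega
    have hGμ : G μ = P.d κ := by rw [H.d_eq, ← hμt]; exact tr_apply _ _ _
    have hGδ : ∀ δ, G (μ - P.off δ) = P.g κ δ := by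
      intro δ
      rw [H.g_eq, ← hμt, sub_right_comm]
      exact tr_apply _ _ _
    have hGs : ∀ ν, G ν ≠ 0 → ν ≠ μ → 0 ≤ ν ∧ ∃ δ, ν = μ - P.off δ := by
      intro ν hν hne
      rw [tr_apply] at hν
      obtain ⟨e1, e2⟩ := H.supp κ _ hν
      refine ⟨fun i => ?_, ?_⟩
      · have := e1 i
        simp only [Pi.zero_apply, Pi.sub_apply, Pi.smul_apply, smul_eq_mul] at this ⊢
        have : (0 : ℤ) ≤ P.p * t i := by positivity
        omega
      · rw [← hμt] at e2
        rcases e2 with e2 | ⟨δ, e2⟩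
        · exact absurd (sub_left_injective e2) hne
        · exact ⟨δ, by rw [e2]; abel⟩
    have hne0 : ∀ δ, μ - P.off δ ≠ μ := by
      intro δ h
      have e1 := H.one_le δ D hD
      have e2 := pos_sub D μ (P.off δ)
      rw [h] at e2
      omega
    have hq0 : ∀ δ, q δ ≠ [] := by
      intro δ h
      have e1 := H.one_le δ D hD
      have e2 := h2 δ
      simp [h] at e2
      omega
    have hWμ : v μ / P.d κ ≠ 0 → pos P.B μ ≤ Wm := by
      intro h
      refine (h1 μ fun h0 => h ?_).2.1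
      simp [h0]
    have key : v μ / P.d κ ≠ 0 → ∀ δ, P.g κ δ ≠ 0 → ∀ y < x,
        (x - 1 - y + 1 = (q δ).length ↔ mu P.r D y = μ - P.off δ) := by
      intro h δ hg y hy
      rw [← hGδ] at hg
      have e1 := H.one_le δ P.B le_rfl
      have e2 := hWμ h
      rw [mu_eq_iff (by omega) (box _ (hGs _ hg (hne0 δ)).1 (by rw [pos_sub]; omega)), pos_sub,
        hpμ, ← h2 δ]
      omega
    have main := ih (nextQ (κ, a x) q) (v - (v μ / P.d κ) • G) hx'.le ?_ ?_ ?_ ?_
    · refine ⟨?_, hcb', fun _ => main.2⟩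
      rw [main.1, and_iff_right hdv]
      exact ⟨fun h => by simpa using U.add_mem h (U.zsmul_mem hGU (v μ / P.d κ)),
        fun h => U.sub_mem h (U.zsmul_mem hGU _)⟩
    · intro ν hν
      have hne : ν ≠ μ := by
        rintro rfl
        apply hν
        simp [hGμ, Int.ediv_mul_cancel hdv]
      by_cases hv : v ν = 0
      · simp only [Finsupp.sub_apply, Finsupp.smul_apply, hv, smul_eq_mul, zero_sub, ne_eq,
          neg_eq_zero, mul_eq_zero, not_or] at hν
        obtain ⟨e1, δ, rfl⟩ := hGs ν hν.2 hne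
        have e2 := hWμ hν.1
        have e3 := H.one_le δ P.B le_rfl
        have e4 := H.one_le δ D hD
        refine ⟨e1, ?_, ?_⟩ <;> rw [pos_sub] <;> omega
      · obtain ⟨e1, e2, e3⟩ := h1 ν hv
        refine ⟨e1, e2, ?_⟩
        have : pos D ν ≠ x := fun h => hne ((mu_eq_iff hx' (box ν e1 e2)).2 h).symm
        omega
    · intro δ
      rw [← h2 δ]
      have := List.length_pos_iff.2 (hq0 δ)
      simp [nextQ]
      omega
    · intro y hy
      simp only [nextQ, hc, getD_tail_append _ (hq0 _), Finset.sum_add_distrib, Finsupp.sub_apply,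
        Finsupp.smul_apply, smul_eq_mul]
      rw [h3 y (by omega), show x + 1 - 1 - y = x - 1 - y + 1 by omega, add_sub_assoc,
        sub_eq_add_neg]
      congr 2
      by_cases h : v μ / P.d κ = 0
      · simp [h]
      have hy0 : mu P.r D y ≠ μ := by
        intro e
        have := pos_mu (r := P.r) (D := D) (y := y) (by omega)
        rw [e] at this
        omega
      by_cases hG : G (mu P.r D y) = 0
      · rw [hG, mul_zero, neg_zero]
        symm
        refine Finset.sum_eq_zero fun δ _ => ?_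
        by_cases hg : P.g κ δ = 0
        · simp [hg]
        · rw [if_neg]
          rw [key h δ hg y hy]
          intro e
          rw [e, hGδ] at hG
          exact hg hG
      · obtain ⟨-, δ0, e0⟩ := hGs _ hG hy0
        rw [Finset.sum_eq_single δ0]
        · rw [e0, hGδ] at hG
          rw [if_pos ((key h δ0 hG y hy).2 e0), e0, hGδ]
          ring
        · intro δ _ hδ
          by_cases hg : P.g κ δ = 0
          · simp [hg]
          · rw [if_neg]
            rw [key h δ hg y hy, e0]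
            exact fun e => hδ (H.inj (sub_right_injective e)).symm
        · simp
    · intro δ y hy
      simp only [nextQ, hc, getD_tail_append _ (hq0 _)]
      by_cases hk : x - 1 - y + 1 = (q δ).length
      · rw [if_pos hk, List.getD_eq_default _ _ hk.ge, zero_add]
        by_cases h : v μ / P.d κ = 0
        · simp only [h, neg_zero, zero_mul, abs_zero]
          positivity
        by_cases hg : P.g κ δ = 0
        · simp only [hg, mul_zero, abs_zero]
          positivity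
        have e0 := (key h δ hg y hy).1 hk
        have e1 := H.one_le δ P.B le_rfl
        have e2 := hWμ h
        have e3 : |v μ / P.d κ| ≤ |v μ| := Int.abs_ediv_le_abs _ _
        have e4 : (E : ℤ) ^ ((Wm - pos P.B μ).toNat + 1) ≤
            (E : ℤ) ^ (Wm - pos P.B (mu P.r D y)).toNat := by
          refine pow_le_pow_right₀ hE1' ?_
          rw [e0, pos_sub]
          omega
        calc |-(v μ / P.d κ) * P.g κ δ| = |v μ / P.d κ| * |P.g κ δ| := by rw [abs_mul, abs_neg]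
          _ ≤ ((Fintype.card P.Δ + 1) * (X * (E : ℤ) ^ (Wm - pos P.B μ).toNat)) * |P.g κ δ| :=
            mul_le_mul_of_nonneg_right (e3.trans hcb) (abs_nonneg _)
          _ = (|P.g κ δ| * (Fintype.card P.Δ + 1)) * (X * (E : ℤ) ^ (Wm - pos P.B μ).toNat) := by
            ring
          _ ≤ E * (X * (E : ℤ) ^ (Wm - pos P.B μ).toNat) :=
            mul_le_mul_of_nonneg_right (hE κ δ) (by positivity)
          _ = X * (E : ℤ) ^ ((Wm - pos P.B μ).toNat + 1) := by ring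
          _ ≤ _ := mul_le_mul_of_nonneg_left e4 (Nat.cast_nonneg _)
      · rw [if_neg hk, add_zero, show x - 1 - y + 1 = x + 1 - 1 - y by omega]
        exact h4 δ y (by omega)

end Pool.Agent.Lib.MP_2ec175_al
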