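import Pool.Agent.Lib.MP_2ec175_al.Prob

/-!
The word problem of a finitely generated metabelian group in terms of sums along paths in its
abelianization.
-/

set_option autoImplicit false
set_option linter.unusedSectionVars false

namespace Pool.Agent.Lib.MP_2ec175_al

open Function

theorem exists_equiv_fg (A : Type) [AddCommGroup A] [AddGroup.FG A] :
    ∃ (r : ℕ) (T : Type) (_ : AddCommGroup T) (_ : Fintype T),
      Nonempty (A ≃+ (Fin r → ℤ) × T) := by
  classical
  obtain ⟨n, ι, fι, p, hp, e, ⟨f⟩⟩ := AddCommGroup.equiv_free_prod_directSum_zmod A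
  have : ∀ i, NeZero (p i ^ e i) := fun i => ⟨pow_ne_zero _ (hp i).ne_zero⟩
  have hfin : Finite (DirectSum ι fun i => ZMod (p i ^ e i)) :=
    Finite.of_equiv _ (DFinsupp.equivFunOnFintype (β := fun i => ZMod (p i ^ e i))).symm
  exact ⟨n, DirectSum ι fun i => ZMod (p i ^ e i), inferInstance, Fintype.ofFinite _,
    ⟨f.trans (AddEquiv.prodCongr (Finsupp.linearEquivFunOnFinite ℤ ℤ (Fin n)).toAddEquiv
      (AddEquiv.refl _))⟩⟩

/-- The sum of `φ` along the path read from `q`. -/
def pathSum {m : ℕ} {Q H : Type} [AddCommGroup Q] [AddCommGroup H] (x : Fin m → Q)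
    (φ : Q → Fin m × Bool → H) : Q → List (Fin m × Bool) → H
  | _, [] => 0
  | q, a :: w => φ q a + pathSum x φ (q + sg x a) w

theorem map_pathSum {m : ℕ} {Q H H' : Type} [AddCommGroup Q] [AddCommGroup H] [AddCommGroup H']
    (x : Fin m → Q) (φ : Q → Fin m × Bool → H) (F : H →+ H') : ∀ (w : List (Fin m × Bool)) (q : Q),
    F (pathSum x φ q w) = pathSum x (fun q a => F (φ q a)) q w := by
  intro w
  induction w with
  | nil => intro q; simp [pathSum]
  | cons a w ih => intro q; simp [pathSum, ih]

theorem lift_mk_cons {G : Type} [Group G] {m : ℕ} (f : Fin m → G) (a : Fin m × Bool)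
    (w : List (Fin m × Bool)) : FreeGroup.lift f (FreeGroup.mk (a :: w)) =
      (if a.2 then f a.1 else (f a.1)⁻¹) * FreeGroup.lift f (FreeGroup.mk w) := by
  rcases a with ⟨i, _ | _⟩ <;> simp [FreeGroup.lift_mk]

theorem metabelian_paths (G : Type) [Group G] (hG : derivedSeries G 2 = ⊥) {m : ℕ} (f : Fin m → G)
    (hf : Subgroup.closure (Set.range f) = ⊤) :
    ∃ (r : ℕ) (T : Type) (_ : AddCommGroup T) (_ : Fintype T) (x : Fin m → (Fin r → ℤ) × T)
      (H : Type) (_ : AddCommGroup H) (φ : (Fin r → ℤ) × T → Fin m × Bool → H),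
      (∀ q, ∃ w, wsum x w = q) ∧
      (∀ w, FreeGroup.lift f (FreeGroup.mk w) = 1 → wsum x w = 0) ∧
      ∀ w q, wsum x w = 0 → (pathSum x φ q w = 0 ↔ FreeGroup.lift f (FreeGroup.mk w) = 1) := by
  have hsurj : ∀ g : G, ∃ w, FreeGroup.lift f (FreeGroup.mk w) = g := by
    intro g
    have : g ∈ (FreeGroup.lift f).range := by
      rw [FreeGroup.range_lift_eq_closure, hf]; trivial
    obtain ⟨u, rfl⟩ := this
    induction u using Quot.inductionOn with
    | _ w => exact ⟨w, rfl⟩
  have hFG : Group.FG G := Group.fg_iff.2 ⟨_, hf, Set.finite_range f⟩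
  have hFG2 : Group.FG (Abelianization G) :=
    Group.fg_of_surjective (f := Abelianization.of) Quot.mk_surjective
  obtain ⟨r, T, i1, i2, ⟨e⟩⟩ := exists_equiv_fg (Additive (Abelianization G))
  let ab : G → (Fin r → ℤ) × T := fun g => e (Additive.ofMul (Abelianization.of g))
  have ab_mul : ∀ g h, ab (g * h) = ab g + ab h := fun g h => by simp [ab]
  have ab_inv : ∀ g, ab g⁻¹ = -ab g := fun g => by simp [ab]
  have ab_one : ab 1 = 0 := by simp [ab]
  have ab_surj : Surjective ab :=
    e.surjective.comp (Additive.ofMul.surjective.comp Quot.mk_surjective)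
  have ab_ker : ∀ g, ab g = 0 → g ∈ commutator G := by
    intro g hg
    rw [← Abelianization.ker_of, MonoidHom.mem_ker]
    simpa [ab] using hg
  have ab_sg : ∀ a : Fin m × Bool,
      ab (if a.2 then f a.1 else (f a.1)⁻¹) = sg (fun i => ab (f i)) a := by
    rintro ⟨i, _ | _⟩ <;> simp [sg, ab_inv]
  have ab_w : ∀ w, ab (FreeGroup.lift f (FreeGroup.mk w)) = wsum (fun i => ab (f i)) w := by
    intro w
    induction w with
    | nil => simpa [FreeGroup.lift_mk] using ab_one
    | cons a w ih => rw [lift_mk_cons, ab_mul, ih, ab_sg, wsum_cons]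
  choose s hs using ab_surj
  have hcomm : ∀ a b : commutator G, a * b = b * a := by
    intro a b
    have h1 : ⁅commutator G, commutator G⁆ = ⊥ := hG
    rw [Subgroup.commutator_eq_bot_iff_le_centralizer] at h1
    exact Subtype.ext (Subgroup.mem_centralizer_iff.1 (h1 b.2) a a.2)
  let _ : CommGroup (commutator G) := { (inferInstance : Group (commutator G)) with mul_comm := hcomm }
  let φ : (Fin r → ℤ) × T → Fin m × Bool → Additive (commutator G) := fun q a =>
    Additive.ofMul ⟨s q * (if a.2 then f a.1 else (f a.1)⁻¹) *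
      (s (q + sg (fun i => ab (f i)) a))⁻¹, ab_ker _ (by
        rw [ab_mul, ab_mul, ab_inv, hs, hs, ab_sg]; simp)⟩
  have key : ∀ w q, ((Additive.toMul (pathSum (fun i => ab (f i)) φ q w) : commutator G) : G) =
      s q * FreeGroup.lift f (FreeGroup.mk w) * (s (q + wsum (fun i => ab (f i)) w))⁻¹ := by
    intro w
    induction w with
    | nil => intro q; simp [pathSum, FreeGroup.lift_mk]
    | cons a w ih =>
      intro q
      rw [pathSum, toMul_add, Subgroup.coe_mul, ih, lift_mk_cons, wsum_cons, add_assoc]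
      simp only [φ, toMul_ofMul]
      group
  refine ⟨r, T, i1, i2, fun i => ab (f i), Additive (commutator G), inferInstance, φ, ?_, ?_, ?_⟩
  · intro q
    obtain ⟨w, hw⟩ := hsurj (s q)
    exact ⟨w, by rw [← ab_w, hw, hs]⟩
  · intro w hw
    rw [← ab_w, hw, ab_one]
  · intro w q hw
    have h1 := key w q
    rw [hw, add_zero] at h1
    constructor
    · intro h
      rw [h] at h1
      simpa using h1.symm
    · intro h
      rw [h, mul_one, mul_inv_cancel] at h1
      exact Additive.toMul.injective (Subtype.ext h1)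

open Classical in
theorem pass_bound {m r : ℕ} (mv : Fin m → Fin r → ℤ) (hmv : ∀ z, ∃ w, wsum mv w = z) (A : ℝ)
    (hA : 0 ≤ A) :
    ∃ Cp : ℝ, 0 ≤ Cp ∧ ∀ (n : ℕ) (s : ℝ), 0 ≤ s → s ^ 2 ≤ A * (n + 1) →
      EW n (fun w => if wsum mv w = 0 then 1 else 0) * s ^ r ≤ Cp * (2 * m) ^ n := by
  let c : (Fin r → ℤ) →+ (Fin r → ℚ) := AddMonoidHom.compLeft (Int.castAddHom ℚ) (Fin r)
  let v : Fin m → Fin r → ℚ := fun i => c (mv i)
  have hspan : Submodule.span ℚ (Set.range v) = ⊤ := by
    have h1 : ∀ w, wsum v w ∈ Submodule.span ℚ (Set.range v) := by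
      intro w
      induction w with
      | nil => simp
      | cons a w ih =>
        rw [wsum_cons]
        refine Submodule.add_mem _ ?_ ih
        have := Submodule.subset_span (R := ℚ) (Set.mem_range_self (f := v) a.1)
        unfold sg
        split_ifs
        · exact this
        · exact Submodule.neg_mem _ this
    rw [eq_top_iff, ← (Pi.basisFun ℚ (Fin r)).span_eq, Submodule.span_le]
    rintro _ ⟨j, rfl⟩
    obtain ⟨w, hw⟩ := hmv (Pi.single j 1)
    have : Pi.basisFun ℚ (Fin r) j = wsum v w := by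
      rw [← map_wsum c mv w, hw]
      funext i
      simp [c, Pi.single_apply]
    rw [this]
    exact h1 w
  obtain ⟨J, ι, hι, h1, h2⟩ := exists_linearIndependent' ℚ v
  have : Finite J := Finite.of_injective ι hι
  let _ : Fintype J := Fintype.ofFinite J
  let b : Module.Basis J ℚ (Fin r → ℚ) := Module.Basis.mk h2 (by rw [h1, hspan])
  have hcard : Fintype.card J = r := by
    rw [← Module.finrank_eq_card_basis b]; simp
  obtain ⟨Cp, hCp, h3⟩ := anti_concentration (fun i => b.equivFun (v i)) ι (fun j => by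
    have : v (ι j) = b j := by simp [b]
    rw [this]
    funext j'
    simp [Pi.single_apply, eq_comm]) A hA
  refine ⟨Cp, hCp, fun n s hs0 hs => le_trans ?_ (h3 n s hs0 hs)⟩
  rw [hcard]
  refine mul_le_mul_of_nonneg_right (EW_mono fun w _ => ?_) (by positivity)
  split_ifs with h4 h5
  · exact le_rfl
  · exfalso
    apply h5
    intro j _
    have := map_wsum (b.equivFun.toLinearMap.toAddMonoidHom.comp c) mv w
    rw [h4, map_zero] at this
    exact (congrFun this j).symm
  · exact zero_le_one
  · exact le_rfl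

end Pool.Agent.Lib.MP_2ec175_al
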