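import Pool.Agent.Lib.MP_2ec175_al.Gb

/-!
Correctness and running time of the second phase of the machine.
-/

set_option autoImplicit false
set_option linter.unusedSectionVars false

namespace Pool.Agent.Lib.MP_2ec175_al

open Function

theorem le_rhoOf {r : ℕ} : ∀ (l : List (Op r)) (z : Fin r → ℤ) (ρ : ℕ), ρ ≤ rhoOf z ρ l := by
  intro l
  induction l with
  | nil => intro _ _; exact le_rfl
  | cons o l ih => intro z ρ; exact (le_max_left _ _).trans (ih _ _)

theorem stays_rhoOf {r : ℕ} : ∀ (l : List (Op r)) (z : Fin r → ℤ) (ρ : ℕ), nrm z ≤ ρ →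
    Stays (fun x => nrm x ≤ rhoOf z ρ l) z l := by
  intro l
  induction l with
  | nil => intro _ _ h; exact h
  | cons o l ih => intro z ρ h; exact ⟨h.trans (le_rhoOf _ _ _), ih _ _ (le_max_right _ _)⟩

theorem rhoOf_le {r : ℕ} (R : ℕ) : ∀ (l : List (Op r)) (z : Fin r → ℤ) (ρ : ℕ), ρ ≤ R →
    Stays (fun x => nrm x ≤ R) z l → rhoOf z ρ l ≤ R := by
  intro l
  induction l with
  | nil => intro _ _ h _; exact h
  | cons o l ih => intro z ρ h hs; exact ih _ _ (max_le h hs.2.start) hs.2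

theorem Stays.shift {r : ℕ} {Q : (Fin r → ℤ) → Prop} (t : Fin r → ℤ) :
    ∀ {l : List (Op r)} {x : Fin r → ℤ}, Stays Q x l → Stays (fun y => Q (y - t)) (x + t) l := by
  intro l
  induction l with
  | nil => intro x h; simpa [Stays] using h
  | cons o l ih =>
    intro x h
    refine ⟨by simpa using h.1, ?_⟩
    rw [add_right_comm]
    exact ih h.2

theorem vec_shift {r : ℕ} (t : Fin r → ℤ) : ∀ (l : List (Op r)) (x : Fin r → ℤ),
    vec (x + t) l = tr t (vec x l) := by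
  intro l
  induction l with
  | nil => intro x; simp [vec, tr]
  | cons o l ih =>
    intro x
    cases o with
    | none => simp only [vec, ih, tr, Finsupp.mapDomain_add, Finsupp.mapDomain_single]
    | some m => simp only [vec]; rw [add_right_comm, ih]

theorem tr_neg_tr {r : ℕ} (t : Fin r → ℤ) (v : (Fin r → ℤ) →₀ ℤ) : tr (-t) (tr t v) = v := by
  ext x
  simp [tr_apply]

theorem up_moves {r : ℕ} : ∀ (l : List (Op r)), (∀ o ∈ l, ∃ i, o = some (i, true)) →
    0 ≤ disp l ∧ ∀ x, Stays (fun y => x ≤ y ∧ y ≤ x + disp l) x l ∧ vec x l = 0 := by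
  intro l
  induction l with
  | nil => intro _; simp [Stays, vec]
  | cons o l ih =>
    intro h
    obtain ⟨i, rfl⟩ := h o (by simp)
    obtain ⟨h1, h2⟩ := ih fun o ho => h o (List.mem_cons_of_mem _ ho)
    have h0 : 0 ≤ mvOp (some (i, true) : Op r) := by
      simp only [mvOp, if_true]
      exact Pi.single_nonneg.2 zero_le_one
    refine ⟨by rw [disp_cons]; exact add_nonneg h0 h1, fun x => ⟨⟨⟨le_rfl, ?_⟩, ?_⟩, (h2 _).2⟩⟩
    · rw [disp_cons]
      exact le_add_of_nonneg_right (add_nonneg h0 h1)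
    · refine (h2 _).1.mono fun y hy => ⟨(le_add_of_nonneg_right h0).trans hy.1, ?_⟩
      rw [disp_cons, ← add_assoc]
      exact hy.2

theorem disp_flatten_replicate {r : ℕ} (n : ℕ) (l : List (Op r)) :
    disp (List.replicate n l).flatten = n • disp l := by
  induction n with
  | zero => simp
  | succ n ih => rw [List.replicate_succ, List.flatten_cons, disp_append, ih, succ_nsmul']

theorem disp_allUp (r p : ℕ) : disp (allUp r p) = fun _ => (p : ℤ) := by
  rw [allUp, disp_flatten_replicate]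
  have : disp ((List.finRange r).map fun i => (some (i, true) : Op r)) = fun _ => 1 := by
    rw [disp, List.map_map, ← Fin.sum_univ_def]
    funext j
    simp [mvOp, Finset.sum_apply, Pi.single_apply]
  rw [this]
  funext j
  simp

theorem allUp_length (r p : ℕ) : (allUp r p).length = p * r := by
  simp [allUp]

theorem nrm_apply_le {r : ℕ} (z : Fin r → ℤ) (i : Fin r) : (z i).natAbs ≤ nrm z :=
  Finset.single_le_sum (f := fun i => (z i).natAbs) (fun _ _ => Nat.zero_le _) (Finset.mem_univ i)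

/-- The constant in the running time. -/
def costC (r r' a A' cΔ e : ℕ) : ℕ :=
  2 + r * (26 * a ^ r) + 2 + A' * ((r + 2) * a ^ r' * 8) + 2 * a ^ r + 4 * (r * a ^ r') +
    a ^ r * (2 * e + 7 + 2 * (cΔ * (e + 2))) + 11

theorem cost_bound {r r' B c1 p A cΔ C E ρ lam y D X T ℓ : ℕ} (hr' : r = r' + 1) (hB : 1 ≤ B)
    (h1 : ρ + 1 ≤ lam) (h3 : ℓ + 1 ≤ y) (hDdef : D = B + ρ * c1) (hT0 : T ≤ r * D ^ r')
    (hX : X ≤ ρ * (p * r) + A * lam ^ 2) :
    2 * ρ + r * (26 * D ^ r) + 2 * ℓ + X * ((T + 2) * (2 * ℓ + 8)) + 2 * (D ^ r * (ℓ + 1)) +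
        4 * T + D ^ r * (2 * (C + ℓ + E * (ρ * c1)) + 7 + 2 * (cΔ * (C + ℓ + E * (ρ * c1) + 2))) +
        11 ≤
      costC r r' (B + c1) (p * r + A) cΔ (C + 1 + E * c1) * (y * lam ^ (r + 1)) := by
  have hl : 1 ≤ lam := by omega
  have hy : 1 ≤ y := by omega
  have hDa : D ≤ (B + c1) * lam := by
    have g1 := Nat.mul_le_mul_right c1 (show ρ ≤ lam by omega)
    have g2 := Nat.le_mul_of_pos_right B hl
    rw [hDdef, add_mul, mul_comm c1]
    omega
  have hL : C + ℓ + E * (ρ * c1) ≤ (C + 1 + E * c1) * (y * lam) := by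
    have g1 : 1 ≤ y * lam := Nat.mul_pos hy hl
    have g2 : ℓ ≤ y * lam := (show ℓ ≤ y by omega).trans (Nat.le_mul_of_pos_right _ hl)
    have g3 : ρ ≤ y * lam := (show ρ ≤ lam by omega).trans (Nat.le_mul_of_pos_left _ hy)
    calc C + ℓ + E * (ρ * c1) ≤ C * (y * lam) + y * lam + E * ((y * lam) * c1) := by
          gcongr
          exact Nat.le_mul_of_pos_right _ g1
      _ = _ := by ring
  have ha : 1 ≤ B + c1 := by omega
  generalize B + c1 = a at *
  generalize C + 1 + E * c1 = e at *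
  generalize C + ℓ + E * (ρ * c1) = L at *
  have hT : T ≤ r * (a ^ r' * lam ^ r') := by
    rw [← mul_pow]
    exact hT0.trans (Nat.mul_le_mul_left _ (Nat.pow_le_pow_left hDa _))
  have hN : D ^ r ≤ a ^ r * lam ^ r := by
    rw [← mul_pow]; exact Nat.pow_le_pow_left hDa _
  have hX' : X ≤ (p * r + A) * lam ^ 2 := by
    have : ρ ≤ lam ^ 2 := (show ρ ≤ lam by omega).trans (Nat.le_self_pow (by omega) _)
    have := Nat.mul_le_mul_right (p * r) this
    rw [add_mul, mul_comm (p * r)]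
    omega
  generalize p * r + A = A' at *
  obtain ⟨Z, hZ⟩ : ∃ Z, Z = y * lam ^ (r + 1) := ⟨_, rfl⟩
  have pw : ∀ j, j ≤ r + 1 → lam ^ j ≤ lam ^ (r + 1) := fun j hj =>
    Nat.pow_le_pow_right hl hj
  have pz : ∀ j, j ≤ r + 1 → lam ^ j ≤ Z := fun j hj =>
    (pw j hj).trans (hZ ▸ Nat.le_mul_of_pos_left _ hy)
  have t1 : ρ ≤ Z := by have := pz 1 (by omega); rw [pow_one] at this; omega
  have t2 : r * (26 * D ^ r) ≤ r * (26 * a ^ r) * Z := by
    calc r * (26 * D ^ r) ≤ r * (26 * (a ^ r * Z)) := by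
          gcongr
          exact hN.trans (Nat.mul_le_mul_left _ (pz _ (by omega)))
      _ = _ := by ring
  have t3 : ℓ ≤ Z := by
    have := Nat.le_mul_of_pos_right y (Nat.pow_pos (n := r + 1) hl)
    omega
  have t4 : X * ((T + 2) * (2 * ℓ + 8)) ≤ A' * ((r + 2) * a ^ r' * 8) * Z := by
    have g1 : 1 ≤ a ^ r' * lam ^ r' := Nat.mul_pos (Nat.pow_pos ha) (Nat.pow_pos hl)
    calc X * ((T + 2) * (2 * ℓ + 8))
        ≤ (A' * lam ^ 2) * (((r + 2) * (a ^ r' * lam ^ r')) * (8 * y)) := by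
          gcongr
          · rw [add_mul]; omega
          · omega
      _ = _ := by rw [hZ, hr']; ring
  have t5 : D ^ r * (ℓ + 1) ≤ a ^ r * Z := by
    calc D ^ r * (ℓ + 1) ≤ (a ^ r * lam ^ (r + 1)) * y := by
          gcongr
          exact hN.trans (Nat.mul_le_mul_left _ (pw _ (by omega)))
      _ = _ := by rw [hZ]; ring
  have t6 : T ≤ r * a ^ r' * Z := by
    calc _ ≤ r * (a ^ r' * lam ^ r') := hT
      _ ≤ r * (a ^ r' * Z) := by gcongr; exact pz _ (by omega)
      _ = _ := by ring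
  have t7 : D ^ r * (2 * L + 7 + 2 * (cΔ * (L + 2))) ≤
      a ^ r * (2 * e + 7 + 2 * (cΔ * (e + 2))) * Z := by
    have g1 : 1 ≤ y * lam := Nat.mul_pos hy hl
    calc _ ≤ (a ^ r * lam ^ r) * (2 * (e * (y * lam)) + 7 * (y * lam) +
          2 * (cΔ * (e * (y * lam) + 2 * (y * lam)))) := by
          gcongr <;> omega
      _ = _ := by rw [hZ]; ring
  have t8 : 1 ≤ Z := by simpa using pz 0 (by omega)
  have e0 : costC r r' a A' cΔ e * Z = 2 * Z + r * (26 * a ^ r) * Z + 2 * Z +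
      A' * ((r + 2) * a ^ r' * 8) * Z + 2 * (a ^ r * Z) + 4 * (r * a ^ r' * Z) +
      a ^ r * (2 * e + 7 + 2 * (cΔ * (e + 2))) * Z + 11 * Z := by
    rw [costC]; ring
  rw [← hZ, e0]
  omega

variable {P : Par}

theorem allOps_length (ρ : ℕ) (ops : List (Op P.r)) :
    (allOps P ρ ops).length = ρ * (P.p * P.r) + ops.length := by
  simp [allOps, allUp_length]

theorem allOps_spec (hp : 1 ≤ P.p) (ops : List (Op P.r)) :
    Stays (fun x => ∀ i, 0 ≤ x i ∧ x i ≤ ((P.p : ℤ) + 1) * rhoOf 0 0 ops) 0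
        (allOps P (rhoOf 0 0 ops) ops) ∧
      vec 0 (allOps P (rhoOf 0 0 ops) ops) =
        tr ((P.p : ℤ) • fun _ => (rhoOf 0 0 ops : ℤ)) (vec 0 ops) := by
  set ρ := rhoOf 0 0 ops with hρ
  obtain ⟨-, h2⟩ := up_moves (List.replicate ρ (allUp P.r P.p)).flatten (by
    intro o ho
    simp only [allUp, List.mem_flatten, List.mem_replicate] at ho
    obtain ⟨l, ⟨-, rfl⟩, ho⟩ := ho
    simp only [List.mem_flatten, List.mem_replicate] at ho
    obtain ⟨l, ⟨-, rfl⟩, ho⟩ := ho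
    obtain ⟨i, -, rfl⟩ := List.mem_map.1 ho
    exact ⟨i, rfl⟩)
  have e : disp (List.replicate ρ (allUp P.r P.p)).flatten = (P.p : ℤ) • fun _ => (ρ : ℤ) := by
    rw [disp_flatten_replicate, disp_allUp]
    funext j
    simp [mul_comm]
  have hp' : (1 : ℤ) ≤ P.p := by exact_mod_cast hp
  have hρ0 : (0 : ℤ) ≤ ρ := Nat.cast_nonneg _
  constructor
  · refine Stays.append ((h2 0).1.mono ?_) ?_
    · intro y hy i
      refine ⟨hy.1 i, ?_⟩
      have := hy.2 i
      rw [e] at this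
      simp only [zero_add, Pi.smul_apply, smul_eq_mul] at this
      linarith
    · rw [e]
      refine ((stays_rhoOf ops 0 0 (by simp [nrm])).shift _).mono fun y hy i => ?_
      have := (nrm_apply_le _ i).trans hy
      simp only [Pi.sub_apply, Pi.smul_apply, smul_eq_mul] at this
      have h3 : (ρ : ℤ) ≤ P.p * ρ := by nlinarith
      constructor
      · omega
      · rw [add_mul]; omega
  · rw [allOps, vec_append, (h2 0).2, zero_add, e, vec_shift]

theorem heavy_spec {U : AddSubgroup ((Fin P.r → ℤ) →₀ ℤ)} (H : Div P U) (hC : HC P) (hD : HD P)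
    (hp : 1 ≤ P.p) (hr : 1 ≤ P.r) (hc1 : P.c1 = (P.p + 1) * ∑ i : Fin P.r, P.B ^ (i : ℕ)) (A : ℕ) :
    ∃ Cst : ℕ, ∀ (ops : List (Op P.r)) (lam y : ℕ), rhoOf 0 0 ops + 1 ≤ lam →
      ops.length ≤ A * lam ^ 2 → (allOps P (rhoOf 0 0 ops) ops).length.size + 1 ≤ y →
      ∀ (s : St P) (c : Fin P.r → Bool → List (Gm P)) (gp : List (Gm P)),
      ∃ s' k', Run (pHeavy P) s
        { o3 := ops.map .op, cnt := c, gap := gp, rho := List.replicate (rhoOf 0 0 ops) .u } s' k'
        (Cst * (y * lam ^ (P.r + 1))) ∧ (s'.ok = true ↔ vec 0 ops ∈ U) := by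
  classical
  obtain ⟨E, hE1, hE⟩ : ∃ E : ℕ, 1 ≤ E ∧ ∀ κ δ, |P.g κ δ| * (Fintype.card P.Δ + 1) ≤ E := by
    obtain ⟨M, hM⟩ := (Set.finite_range fun x : (Fin P.r → P.Cl) × P.Δ =>
      |P.g x.1 x.2| * (Fintype.card P.Δ + 1)).bddAbove
    refine ⟨M.toNat + 1, by omega, fun κ δ => ?_⟩
    have := hM ⟨(κ, δ), rfl⟩
    simp only at this
    omega
  have hB := H.hB
  have hb := P.hb
  obtain ⟨r', hr'⟩ : ∃ r', P.r = r' + 1 := ⟨P.r - 1, by omega⟩
  refine ⟨costC P.r r' (P.B + P.c1) (P.p * P.r + A) (Fintype.card P.Δ) (P.C + 1 + E * P.c1), ?_⟩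
  intro ops lam y h1 h2 h3 s c gp
  obtain ⟨hs, hv⟩ := allOps_spec hp ops
  set ρ := rhoOf 0 0 ops with hρ
  set X := (allOps P ρ ops).length with hX
  set D := side P ρ with hDdef
  have hDB : P.B ≤ D := Nat.le_add_right _ _
  have hW : ∀ x : Fin P.r → ℤ, (∀ i, 0 ≤ x i ∧ x i ≤ ((P.p : ℤ) + 1) * ρ) →
      pos P.B x ≤ (ρ * P.c1 : ℕ) := by
    intro x hx
    rw [hc1, pos]
    push_cast
    rw [← mul_assoc, Finset.mul_sum]
    refine Finset.sum_le_sum fun i _ => mul_le_mul_of_nonneg_right ?_ (by positivity)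
    rw [mul_comm]
    exact (hx i).2
  have hWD : ρ * P.c1 < D := by rw [hDdef, side]; omega
  have hbox : ∀ x : Fin P.r → ℤ, (∀ i, 0 ≤ x i ∧ x i ≤ ((P.p : ℤ) + 1) * ρ) → InBox D x := by
    intro x hx i
    have e1 := hW x hx
    have e2 := le_pos hB (ν := x) (fun i => (hx i).1) i
    exact ⟨(hx i).1, by omega⟩
  obtain ⟨arr, e1, e2, e3⟩ := finalCells_eq ρ ops (by omega) (hs.mono hbox)
  have hdel : ∀ δ, ((delay P ρ δ : ℕ) : ℤ) = pos D (P.off δ) := by
    intro δ
    have := H.one_le δ D hDB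
    rw [delay_eq, ← hDdef]
    omega
  have main := red_correct H hDB (ρ * P.c1) hWD X E hE1 hE arr e3 (D ^ P.r)
    (fun δ => List.replicate (delay P ρ δ) 0) (vec 0 (allOps P ρ ops)) le_rfl
    (fun ν hν => by
      have h4 := vec_support hs ν hν
      obtain ⟨y, hy, h5, -⟩ := box_exists (hbox ν h4)
      exact ⟨fun i => (h4 i).1, hW ν h4, by rw [h5]; exact_mod_cast hy⟩)
    (fun δ => by simpa using hdel δ)
    (fun y hy => by
      rw [e2 y hy]
      have : ∀ δ, (List.replicate (delay P ρ δ) (0 : ℤ)).getD (D ^ P.r - 1 - y) 0 = 0 := by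
        intro δ
        simp only [List.getD_eq_getElem?_getD, List.getElem?_replicate]
        split_ifs <;> rfl
      simp only [this]
      simp [hDdef])
    (fun δ y _ => by
      have : (List.replicate (delay P ρ δ) (0 : ℤ)).getD (D ^ P.r - 1 - y) 0 = 0 := by
        simp only [List.getD_eq_getElem?_getD, List.getElem?_replicate]
        split_ifs <;> rfl
      rw [this, abs_zero]
      positivity)
  rw [← e1] at main
  have hXl : X < 2 ^ X.size := Nat.lt_size_self X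
  obtain ⟨s', k', r1, r2⟩ := run_pHeavy hC hD hB ρ ops X.size (P.C + X.size + E * (ρ * P.c1)) _
    (hXl.trans_le (Nat.pow_le_pow_left hb _)) (by omega) (fun κ j => by
      have f1 : |Mc P κ j| * (Fintype.card P.Δ + 1) < 2 ^ P.C := by
        have g1 := hC κ j
        have g2 : (P.C : ℤ) < 2 ^ P.C := by exact_mod_cast Nat.lt_two_pow_self
        have g3 : (2 : ℤ) ≤ P.b := by exact_mod_cast hb
        have g4 : 0 ≤ |Mc P κ j| * (Fintype.card P.Δ + 1) := by positivity
        nlinarith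
      have f2 : (X : ℤ) ≤ 2 ^ X.size := by exact_mod_cast hXl.le
      have f3 : (E : ℤ) ^ (ρ * P.c1) ≤ 2 ^ (E * (ρ * P.c1)) := by
        rw [pow_mul (2 : ℤ)]
        exact pow_le_pow_left₀ (Nat.cast_nonneg _) (by exact_mod_cast Nat.lt_two_pow_self.le) _
      calc |Mc P κ j| * ((Fintype.card P.Δ + 1) * (X * (E : ℤ) ^ (ρ * P.c1)))
          = (|Mc P κ j| * (Fintype.card P.Δ + 1)) * (X * (E : ℤ) ^ (ρ * P.c1)) := by ring
        _ ≤ (|Mc P κ j| * (Fintype.card P.Δ + 1)) * (2 ^ X.size * 2 ^ (E * (ρ * P.c1))) := by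
          gcongr
        _ < 2 ^ P.C * (2 ^ X.size * 2 ^ (E * (ρ * P.c1))) := by gcongr
        _ = 2 ^ (P.C + X.size + E * (ρ * P.c1)) := by ring
        _ ≤ _ := pow_le_pow_left₀ (by norm_num) (by exact_mod_cast hb) _)
    (fun δ => by have := hdel δ; have := H.one_le δ D hDB; omega) main.2 s c gp
  refine ⟨s', k', r1.mono ?_, ?_⟩
  · rw [e1, cellsTo_length, ← hDdef, ← hX]
    refine cost_bound hr' hB h1 h3 hDdef ?_ ?_
    · rw [genTok_length]
      refine (Finset.sum_le_card_nsmul _ _ (D ^ r') fun i _ => ?_).trans (by simp)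
      have := i.2
      exact Nat.pow_le_pow_right (by omega) (by omega)
    · rw [hX, allOps_length]
      omega
  · rw [r2, main.1, hv]
    refine ⟨fun h => ?_, fun h => H.inv _ _ h⟩
    have := H.inv (-fun _ => (ρ : ℤ)) _ h
    rwa [smul_neg, tr_neg_tr] at this

end Pool.Agent.Lib.MP_2ec175_al
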