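import Pool.Agent.Shared.StackProg

/-!
The machine for the word problem of metabelian groups, part 1: data types, the transducer and the
linear time filter.
-/

set_option autoImplicit false
set_option linter.unusedSectionVars false

namespace Pool.Agent.Lib.MP_2ec175_al

open Function Pool.Agent.Shared.StackProg

/-- Elementary operations: `none` increments the current cell, `some (i, s)` moves one unit in
direction `i`, forwards if `s` is true. -/
abbrev Op (r : ℕ) := Option (Fin r × Bool)

/-- The finite data the machine is built from. -/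
structure Par where
  α : Type
  T : Type
  Cl : Type
  Δ : Type
  r : ℕ
  [fα : Fintype α]
  [fT : Fintype T]
  [fCl : Fintype Cl]
  [fΔ : Fintype Δ]
  b : ℕ
  hb : 2 ≤ b
  C : ℕ
  tr : T → α → T
  prog : T → α → List (Op r)
  accT : T → Bool
  t0 : T
  c0 : Cl
  nxt : Cl → Cl
  c1 : ℕ
  B : ℕ
  p : ℕ
  off : Δ → Fin r → ℤ
  d : (Fin r → Cl) → ℤ
  g : (Fin r → Cl) → Δ → ℤ

attribute [instance] Par.fα Par.fT Par.fCl Par.fΔ

variable (P : Par)

/-- Names of the stacks. -/
inductive Kk (P : Par) : Type
  | inp | o1 | o2 | o3 | gap | rho | dd | dd2 | str | str2 | L | R | tmp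
  | cnt (i : Fin P.r) (s : Bool)
  | qi (δ : P.Δ)
  | qo (δ : P.Δ)

/-- Stack symbols. -/
inductive Gm (P : Par) : Type
  | lt (a : P.α)
  | op (o : Op P.r)
  | u
  | st (i : Fin P.r)
  | mk (κ : Fin P.r → P.Cl)
  | dig (d : Set.Icc (-1 : ℤ) (P.b - 1))
  | fin

/-- The finite control. -/
structure St (P : Par) : Type where
  t : P.T
  ok : Bool
  o : Op P.r
  c : P.Cl
  κ : Fin P.r → P.Cl
  hit : Bool
  car : Option P.Δ → Set.Icc (-(P.C : ℤ)) P.C
  mv : P.Δ → Bool

noncomputable instance : DecidableEq (Kk P) := Classical.decEq _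
noncomputable instance : DecidableEq (Gm P) := Classical.decEq _
noncomputable instance : DecidableEq P.Δ := Classical.decEq _

theorem finite_Kk : Finite (Kk P) := by
  let f : Fin 13 ⊕ (Fin P.r × Bool) ⊕ P.Δ ⊕ P.Δ → Kk P := fun x => match x with
    | .inl i => ![.inp, .o1, .o2, .o3, .gap, .rho, .dd, .dd2, .str, .str2, .L, .R, .tmp] i
    | .inr (.inl y) => .cnt y.1 y.2
    | .inr (.inr (.inl δ)) => .qi δ
    | .inr (.inr (.inr δ)) => .qo δ
  refine Finite.of_surjective f fun k => ?_
  cases k
  exacts [⟨.inl 0, rfl⟩, ⟨.inl 1, rfl⟩, ⟨.inl 2, rfl⟩, ⟨.inl 3, rfl⟩, ⟨.inl 4, rfl⟩, ⟨.inl 5, rfl⟩,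
    ⟨.inl 6, rfl⟩, ⟨.inl 7, rfl⟩, ⟨.inl 8, rfl⟩, ⟨.inl 9, rfl⟩, ⟨.inl 10, rfl⟩, ⟨.inl 11, rfl⟩,
    ⟨.inl 12, rfl⟩, ⟨.inr (.inl (_, _)), rfl⟩, ⟨.inr (.inr (.inl _)), rfl⟩,
    ⟨.inr (.inr (.inr _)), rfl⟩]

theorem finite_Gm : Finite (Gm P) := by
  let f : P.α ⊕ Op P.r ⊕ Bool ⊕ Fin P.r ⊕ (Fin P.r → P.Cl) ⊕ Set.Icc (-1 : ℤ) (P.b - 1) → Gm P :=
    fun x => match x with
    | .inl a => .lt a
    | .inr (.inl o) => .op o
    | .inr (.inr (.inl true)) => .u
    | .inr (.inr (.inl false)) => .fin
    | .inr (.inr (.inr (.inl i))) => .st i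
    | .inr (.inr (.inr (.inr (.inl κ)))) => .mk κ
    | .inr (.inr (.inr (.inr (.inr d)))) => .dig d
  refine Finite.of_surjective f fun k => ?_
  cases k
  exacts [⟨.inl _, rfl⟩, ⟨.inr (.inl _), rfl⟩, ⟨.inr (.inr (.inl true)), rfl⟩,
    ⟨.inr (.inr (.inr (.inl _))), rfl⟩, ⟨.inr (.inr (.inr (.inr (.inl _)))), rfl⟩,
    ⟨.inr (.inr (.inr (.inr (.inr _)))), rfl⟩, ⟨.inr (.inr (.inl false)), rfl⟩]

theorem finite_St : Finite (St P) := by
  let f : P.T × Bool × Op P.r × P.Cl × (Fin P.r → P.Cl) × Bool ×
      (Option P.Δ → Set.Icc (-(P.C : ℤ)) P.C) × (P.Δ → Bool) → St P :=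
    fun x => ⟨x.1, x.2.1, x.2.2.1, x.2.2.2.1, x.2.2.2.2.1, x.2.2.2.2.2.1, x.2.2.2.2.2.2.1,
      x.2.2.2.2.2.2.2⟩
  refine Finite.of_surjective f fun s => ?_
  exact ⟨(s.t, s.ok, s.o, s.c, s.κ, s.hit, s.car, s.mv), rfl⟩

noncomputable instance : Fintype (Kk P) := @Fintype.ofFinite _ (finite_Kk P)
noncomputable instance : Fintype (Gm P) := @Fintype.ofFinite _ (finite_Gm P)
noncomputable instance : Fintype (St P) := @Fintype.ofFinite _ (finite_St P)

/-- The contents of all stacks as a record. -/
structure Sk (P : Par) : Type where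
  inp : List (Gm P) := []
  o1 : List (Gm P) := []
  o2 : List (Gm P) := []
  o3 : List (Gm P) := []
  gap : List (Gm P) := []
  rho : List (Gm P) := []
  dd : List (Gm P) := []
  dd2 : List (Gm P) := []
  str : List (Gm P) := []
  str2 : List (Gm P) := []
  L : List (Gm P) := []
  R : List (Gm P) := []
  tmp : List (Gm P) := []
  cnt : Fin P.r → Bool → List (Gm P) := fun _ _ => []
  qi : P.Δ → List (Gm P) := fun _ => []
  qo : P.Δ → List (Gm P) := fun _ => []

variable {P}

/-- The record read as a family of stacks. -/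
def Sk.fn (k : Sk P) : Kk P → List (Gm P)
  | .inp => k.inp
  | .o1 => k.o1
  | .o2 => k.o2
  | .o3 => k.o3
  | .gap => k.gap
  | .rho => k.rho
  | .dd => k.dd
  | .dd2 => k.dd2
  | .str => k.str
  | .str2 => k.str2
  | .L => k.L
  | .R => k.R
  | .tmp => k.tmp
  | .cnt i s => k.cnt i s
  | .qi δ => k.qi δ
  | .qo δ => k.qo δ

/-- Programs of the machine. -/
abbrev Pg (P : Par) := Prog (St P) (Kk P) (Gm P)

/-- Running with stacks given as records. -/
def Run (p : Pg P) (s : St P) (k : Sk P) (s' : St P) (k' : Sk P) (t : ℕ) : Prop :=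
  Runs p s k.fn s' k'.fn t

theorem Run.seq {p q : Pg P} {s s' s'' : St P} {k k' k'' : Sk P} {t u : ℕ}
    (h1 : Run p s k s' k' t) (h2 : Run q s' k' s'' k'' u) : Run (.seq p q) s k s'' k'' (t + u) :=
  Runs.seq h1 h2

theorem Run.mono {p : Pg P} {s s' : St P} {k k' : Sk P} {t u : ℕ}
    (h : Run p s k s' k' t) (htu : t ≤ u) : Run p s k s' k' u := Runs.mono h htu

theorem Run.congr {p : Pg P} {s s' s'' : St P} {k k' k'' : Sk P} {t u : ℕ}
    (h : Run p s k s' k' t) (hs : s' = s'') (hk : k' = k'') (htu : t ≤ u) :
    Run p s k s'' k'' u := by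
  subst hs hk; exact h.mono htu

theorem Run.loop_true {c : St P → (Kk P → Option (Gm P)) → Bool} {p : Pg P} {s s' s'' : St P}
    {k k' k'' : Sk P} {t u : ℕ} (hc : c s (tops k.fn) = true) (h1 : Run p s k s' k' t)
    (h2 : Run (.loop c p) s' k' s'' k'' u) : Run (.loop c p) s k s'' k'' (t + u + 1) :=
  Runs.loop_true hc h1 h2

theorem Run.loop_false {c : St P → (Kk P → Option (Gm P)) → Bool} {p : Pg P} {s : St P}
    {k : Sk P} (hc : c s (tops k.fn) = false) : Run (.loop c p) s k s k 1 :=
  Runs.loop_false hc

theorem Run.ite_true {c : St P → (Kk P → Option (Gm P)) → Bool} {p q : Pg P} {s s' : St P}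
    {k k' : Sk P} {t : ℕ} (hc : c s (tops k.fn) = true) (h : Run p s k s' k' t) :
    Run (.ite c p q) s k s' k' (t + 1) := Runs.ite_true hc h

theorem Run.ite_false {c : St P → (Kk P → Option (Gm P)) → Bool} {p q : Pg P} {s s' : St P}
    {k k' : Sk P} {t : ℕ} (hc : c s (tops k.fn) = false) (h : Run q s k s' k' t) :
    Run (.ite c p q) s k s' k' (t + 1) := Runs.ite_false hc h

theorem Run.act {f : St P → (Kk P → Option (Gm P)) → Out (St P) (Kk P) (Gm P)} {s s' : St P}
    {k k' : Sk P} (hs : (f s (tops k.fn)).st = s')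
    (hS : ∀ j, (f s (tops k.fn)).app k.fn j = k'.fn j) : Run (.act f) s k s' k' 1 :=
  Runs.act' hs (funext hS)

theorem Run.of_runs {p : Pg P} {s s' : St P} {k k' : Sk P} {S' : Kk P → List (Gm P)} {t u : ℕ}
    (h : Runs p s k.fn s' S' t) (hS : ∀ j, S' j = k'.fn j) (htu : t ≤ u) : Run p s k s' k' u :=
  h.congr rfl (funext hS) htu

theorem run_skip (s : St P) (k : Sk P) : Run skip s k s k 1 := runs_skip _ _

/-! ### The transducer -/

/-- The operations produced by a word read from state `t`. -/
def opsOf (P : Par) : P.T → List P.α → List (Op P.r)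
  | _, [] => []
  | t, a :: w => P.prog t a ++ opsOf P (P.tr t a) w

/-- Translate the input word into operations. -/
noncomputable def pTrans (P : Par) : Pg P :=
  .loop (ne .inp) (.act fun s tp => match tp .inp with
    | some (.lt a) => ⟨{ s with t := P.tr s.t a }, fun k => if k = .inp then 1 else 0,
        fun k => if k = .o1 then ((P.prog s.t a).map .op).reverse else []⟩
    | _ => Out.skip s)

theorem run_pTrans : ∀ (w : List P.α) (s : St P) (k : Sk P), k.inp = w.map .lt →
    Run (pTrans P) s k { s with t := w.foldl P.tr s.t }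
      { k with inp := [], o1 := ((opsOf P s.t w).map .op).reverse ++ k.o1 } (2 * w.length + 1) := by
  intro w
  induction w with
  | nil =>
    intro s k h
    refine (Run.loop_false (ne_false (a := Kk.inp) h)).congr rfl ?_ (by simp)
    cases k; simp_all [opsOf]
  | cons a w ih =>
    intro s k h
    have h1 : Run (.act fun s tp => match tp .inp with
        | some (.lt a) => ⟨{ s with t := P.tr s.t a }, fun k => if k = .inp then 1 else 0,
            fun k => if k = .o1 then ((P.prog s.t a).map .op).reverse else []⟩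
        | _ => Out.skip s) s k { s with t := P.tr s.t a }
        { k with inp := w.map .lt, o1 := ((P.prog s.t a).map .op).reverse ++ k.o1 } 1 := by
      refine Run.act (by simp [tops, Sk.fn, h]) fun j => ?_
      cases j <;> simp [tops, Sk.fn, h, Out.app]
    refine (Run.loop_true (ne_true (a := Kk.inp) h) h1 (ih _ _ rfl)).congr rfl ?_ (by simp; omega)
    simp [opsOf]

/-- Copy the operations, in their original order, to two stacks. -/
noncomputable def pDup (P : Par) : Pg P :=
  each .o1 (fun _ x k => if k = .o2 ∨ k = .o3 then [x] else [])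

theorem run_pDup (s : St P) (k : Sk P) :
    Run (pDup P) s k s
      { k with o1 := [], o2 := k.o1.reverse ++ k.o2, o3 := k.o1.reverse ++ k.o3 }
      (2 * k.o1.length + 1) := by
  refine Run.of_runs (runs_each _ _ _ _) (fun j => ?_) le_rfl
  cases j <;> simp [Sk.fn]

/-! ### The filter -/

/-- The displacement caused by an operation. -/
def mvOp {r : ℕ} : Op r → Fin r → ℤ
  | none => 0
  | some (i, s) => Pi.single i (if s then 1 else -1)

/-- The total displacement of a list of operations. -/
def disp {r : ℕ} (l : List (Op r)) : Fin r → ℤ := (l.map mvOp).sum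

@[simp] theorem disp_nil {r : ℕ} : disp ([] : List (Op r)) = 0 := rfl

@[simp] theorem disp_cons {r : ℕ} (o : Op r) (l : List (Op r)) :
    disp (o :: l) = mvOp o + disp l := by simp [disp]

@[simp] theorem disp_append {r : ℕ} (l l' : List (Op r)) :
    disp (l ++ l') = disp l + disp l' := by simp [disp]

/-- The one-norm of an integer vector. -/
def nrm {r : ℕ} (z : Fin r → ℤ) : ℕ := ∑ i, (z i).natAbs

/-- The largest one-norm met along the walk started at `z`, or `ρ` if that is larger. -/
def rhoOf {r : ℕ} : (Fin r → ℤ) → ℕ → List (Op r) → ℕ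
  | _, ρ, [] => ρ
  | z, ρ, o :: l => rhoOf (z + mvOp o) (max ρ (nrm (z + mvOp o))) l

/-- The counters representing an integer vector. -/
def cntOf (z : Fin P.r → ℤ) : Fin P.r → Bool → List (Gm P) :=
  fun i s => List.replicate (if s then z i else -z i).toNat .u

/-- The body of the filter loop. -/
noncomputable def fBody (P : Par) : Pg P :=
  .act fun s tp => match tp .o2 with
    | some (.op (some (i, e))) =>
        if (tp (.cnt i !e)).isSome then
          ⟨s, fun k => if k = .o2 ∨ k = .cnt i (!e) then 1 else 0,
            fun k => if k = .gap then [.u] else []⟩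
        else if (tp .gap).isSome then
          ⟨s, fun k => if k = .o2 ∨ k = .gap then 1 else 0,
            fun k => if k = .cnt i e then [.u] else []⟩
        else
          ⟨s, fun k => if k = .o2 then 1 else 0,
            fun k => if k = .cnt i e ∨ k = .rho then [.u] else []⟩
    | _ => ⟨s, fun k => if k = .o2 then 1 else 0, fun _ => []⟩

theorem nrm_add_single {r : ℕ} (z : Fin r → ℤ) (i : Fin r) (c : ℤ) :
    nrm (z + Pi.single i c) + (z i).natAbs = nrm z + (z i + c).natAbs := by
  unfold nrm
  rw [← Finset.add_sum_erase _ _ (Finset.mem_univ i),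
    ← Finset.add_sum_erase _ (fun j => (z j).natAbs) (Finset.mem_univ i)]
  have : ∑ j ∈ Finset.univ.erase i, ((z + Pi.single i c : Fin r → ℤ) j).natAbs =
      ∑ j ∈ Finset.univ.erase i, (z j).natAbs := by
    refine Finset.sum_congr rfl fun j hj => ?_
    simp [Finset.ne_of_mem_erase hj]
  rw [this]
  simp
  omega

theorem cntOf_step (z : Fin P.r → ℤ) (i : Fin P.r) (e : Bool) (j : Fin P.r) (t : Bool) :
    cntOf (P := P) (z + Pi.single i (if e then 1 else -1)) j t =
      if j = i then
        (if 0 < (if e then -z i else z i) then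
          (if t = e then cntOf z j t else (cntOf z j t).tail)
        else (if t = e then .u :: cntOf z j t else cntOf z j t))
      else cntOf z j t := by
  by_cases hj : j = i
  · subst hj
    simp only [cntOf, Pi.add_apply, Pi.single_eq_same, if_true, List.tail_replicate,
      ← List.replicate_succ]
    cases e <;> cases t <;> simp only [Bool.false_eq_true, Bool.true_eq_false, if_true, if_false] <;>
      split_ifs <;> congr 1 <;> omega
  · simp [cntOf, hj]

theorem run_fBody (o : Op P.r) (l : List (Gm P)) (z : Fin P.r → ℤ) (ρ : ℕ) (hρ : nrm z ≤ ρ)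
    (s : St P) (k : Sk P) (h1 : k.o2 = .op o :: l) (h2 : k.cnt = cntOf z)
    (h3 : k.gap = List.replicate (ρ - nrm z) .u) (h4 : k.rho = List.replicate ρ .u) :
    Run (fBody P) s k s
      { k with o2 := l, cnt := cntOf (z + mvOp o),
               gap := List.replicate (max ρ (nrm (z + mvOp o)) - nrm (z + mvOp o)) .u,
               rho := List.replicate (max ρ (nrm (z + mvOp o))) .u } 1 := by
  rcases o with _ | ⟨i, e⟩
  · refine Run.act (by simp [tops, Sk.fn, h1]) fun j => ?_
    cases j <;> simp [tops, Sk.fn, h1, h2, h3, h4, Out.app, mvOp, hρ]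
  · have hn := nrm_add_single z i (if e then 1 else -1)
    have htop : (tops k.fn (.cnt i !e)).isSome = decide (0 < (if e then -z i else z i)) := by
      cases e <;> simp [tops, Sk.fn, h2, cntOf, List.head?_replicate] <;>
        split_ifs <;> simp <;> omega
    have hgap : (tops k.fn .gap).isSome = decide (nrm z < ρ) := by
      simp [tops, Sk.fn, h3, List.head?_replicate]
      split_ifs <;> simp <;> omega
    have ho : tops k.fn .o2 = some (.op (some (i, e))) := by simp [tops, Sk.fn, h1]
    by_cases hc : 0 < (if e then -z i else z i)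
    · have hn' : nrm (z + Pi.single i (if e then 1 else -1)) + 1 = nrm z := by
        cases e <;> simp at hc hn ⊢ <;> omega
      refine Run.act (by simp [ho, htop, hc]) fun j => ?_
      simp only [ho, htop, hc, decide_true, if_true, Out.app]
      cases j with
      | cnt j t =>
        simp only [Sk.fn, mvOp, cntOf_step, hc, h2]
        by_cases hj : j = i <;> cases e <;> cases t <;> simp [hj]
      | gap =>
        simp only [Sk.fn, mvOp, h3]
        simp only [if_true, reduceCtorEq, or_self, if_false, List.drop_zero, List.singleton_append,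
          ← List.replicate_succ]
        congr 1
        omega
      | rho =>
        simp only [Sk.fn, mvOp, h4]
        simp only [reduceCtorEq, or_self, if_false, List.drop_zero, List.nil_append]
        congr 1
        omega
      | _ => simp [Sk.fn, h1]
    · have hn' : nrm (z + Pi.single i (if e then 1 else -1)) = nrm z + 1 := by
        cases e <;> simp at hc hn ⊢ <;> omega
      by_cases hg : nrm z < ρ
      · refine Run.act (by simp [ho, htop, hc, hgap, hg]) fun j => ?_
        simp only [ho, htop, hc, hgap, hg, decide_true, decide_false, if_true, Out.app,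
          Bool.false_eq_true, if_false]
        cases j with
        | cnt j t =>
          simp only [Sk.fn, mvOp, cntOf_step, hc, h2]
          by_cases hj : j = i <;> cases e <;> cases t <;> simp [hj]
        | gap =>
          simp only [Sk.fn, mvOp, h3]
          simp only [if_true, reduceCtorEq, or_true, if_false, List.nil_append,
            List.drop_replicate]
          congr 1
          omega
        | rho =>
          simp only [Sk.fn, mvOp, h4]
          simp only [reduceCtorEq, or_self, if_false, List.drop_zero, List.nil_append]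
          congr 1
          omega
        | _ => simp [Sk.fn, h1]
      · refine Run.act (by simp [ho, htop, hc, hgap, hg]) fun j => ?_
        simp only [ho, htop, hc, hgap, hg, decide_false, Out.app,
          Bool.false_eq_true, if_false]
        cases j with
        | cnt j t =>
          simp only [Sk.fn, mvOp, cntOf_step, hc, h2]
          by_cases hj : j = i <;> cases e <;> cases t <;> simp [hj]
        | gap =>
          simp only [Sk.fn, mvOp, h3]
          simp only [reduceCtorEq, or_self, if_false, List.nil_append, List.drop_zero]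
          congr 1
          omega
        | rho =>
          simp only [Sk.fn, mvOp, h4]
          simp only [reduceCtorEq, or_true, if_true, if_false, List.drop_zero,
            List.singleton_append, ← List.replicate_succ]
          congr 1
          omega
        | _ => simp [Sk.fn, h1]

theorem run_fLoop (s : St P) : ∀ (l : List (Op P.r)) (z : Fin P.r → ℤ) (ρ : ℕ) (k : Sk P),
    nrm z ≤ ρ → k.o2 = l.map .op → k.cnt = cntOf z → k.gap = List.replicate (ρ - nrm z) .u →
    k.rho = List.replicate ρ .u →
    Run (.loop (ne .o2) (fBody P)) s k s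
      { k with o2 := [], cnt := cntOf (z + disp l),
               gap := List.replicate (rhoOf z ρ l - nrm (z + disp l)) .u,
               rho := List.replicate (rhoOf z ρ l) .u } (2 * l.length + 1) := by
  intro l
  induction l with
  | nil =>
    intro z ρ k _ h1 h2 h3 h4
    refine (Run.loop_false (ne_false (a := Kk.o2) h1)).congr rfl ?_ (by simp)
    cases k; simp_all [rhoOf]
  | cons o l ih =>
    intro z ρ k hρ h1 h2 h3 h4
    refine (Run.loop_true (ne_true (a := Kk.o2) h1) (run_fBody o _ z ρ hρ s k h1 h2 h3 h4)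
      (ih (z + mvOp o) _ _ (le_max_right _ _) rfl rfl rfl rfl)).congr rfl ?_ (by simp; omega)
    simp [rhoOf, add_assoc]

open Classical in
/-- The linear time filter. -/
noncomputable def pFilter (P : Par) : Pg P :=
  .seq (pTrans P) (.seq (pDup P) (.seq (.loop (ne .o2) (fBody P))
    (.act fun s tp => Out.skip
      { s with ok := P.accT s.t && decide (∀ i e, tp (.cnt i e) = none) })))

/-- The word passes the filter. -/
def Pass (P : Par) (w : List P.α) : Prop :=
  P.accT (w.foldl P.tr P.t0) = true ∧ disp (opsOf P P.t0 w) = 0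

theorem run_pFilter (w : List P.α) (s : St P) (hs : s.t = P.t0) :
    ∃ (s' : St P) (c : Fin P.r → Bool → List (Gm P)) (gp : List (Gm P)),
      Run (pFilter P) s { inp := w.map .lt } s'
        { o3 := (opsOf P P.t0 w).map .op, cnt := c, gap := gp,
          rho := List.replicate (rhoOf 0 0 (opsOf P P.t0 w)) .u }
        (2 * w.length + 4 * (opsOf P P.t0 w).length + 4) ∧ (s'.ok = true ↔ Pass P w) := by
  classical
  have h1 := run_pTrans w s { inp := w.map .lt } rfl
  have h2 := run_pDup { s with t := w.foldl P.tr s.t }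
    { o1 := ((opsOf P s.t w).map .op).reverse ++ [] }
  have h3 := run_fLoop { s with t := w.foldl P.tr s.t } (opsOf P s.t w) 0 0
    { o2 := (((opsOf P s.t w).map Gm.op).reverse ++ []).reverse ++ [],
      o3 := (((opsOf P s.t w).map Gm.op).reverse ++ []).reverse ++ [] }
    (by simp [nrm]) (by simp) (by funext i e; simp [cntOf]) (by simp) (by simp)
  refine ⟨_, cntOf (0 + disp (opsOf P s.t w)),
    List.replicate (rhoOf 0 0 (opsOf P s.t w) - nrm (0 + disp (opsOf P s.t w))) Gm.u,
    (h1.seq (h2.seq (h3.seq (Run.act rfl fun j => rfl)))).congr rfl ?_ ?_, ?_⟩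
  · simp [hs]
  · simp [hs]; omega
  · simp only [Out.skip_st, Bool.and_eq_true, decide_eq_true_eq, Pass, hs, zero_add]
    refine and_congr_right fun _ => ?_
    simp only [tops, Sk.fn, cntOf, List.head?_eq_none_iff, List.replicate_eq_nil_iff]
    constructor
    · intro h
      funext i
      have a := h i true
      have b := h i false
      simp at a b ⊢
      omega
    · intro h i e
      simp [h]

end Pool.Agent.Lib.MP_2ec175_al
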