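import Pool.Agent.Lib.MP_2ec175_al.Mach1

/-!
The machine for the word problem of metabelian groups, part 2: the array of counters.
-/

set_option autoImplicit false
set_option linter.unusedSectionVars false

namespace Pool.Agent.Lib.MP_2ec175_al

open Function Pool.Agent.Shared.StackProg

variable {P : Par}

theorem Par.neg_one_le (P : Par) : (-1 : ℤ) ≤ P.b - 1 := by omega

/-- The digit symbol of an integer (clamped to the digit range). -/
noncomputable def dg (P : Par) (x : ℤ) : Gm P :=
  .dig (Set.projIcc (-1 : ℤ) ((P.b : ℤ) - 1) P.neg_one_le x)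

/-- The test for digit symbols. -/
def isDig : Gm P → Bool
  | .dig _ => true
  | _ => false

/-- The value of a top symbol. -/
def val : Option (Gm P) → ℤ
  | some (.dig d) => d.1
  | _ => 0

@[simp] theorem isDig_dg (x : ℤ) : isDig (dg P x) = true := rfl
@[simp] theorem isDig_mk (κ : Fin P.r → P.Cl) : isDig (Gm.mk κ : Gm P) = false := rfl
@[simp] theorem isDig_fin : isDig (Gm.fin : Gm P) = false := rfl

theorem val_dg {x : ℤ} (h1 : -1 ≤ x) (h2 : x ≤ P.b - 1) : val (some (dg P x)) = x := by
  simp [val, dg, Set.projIcc_of_mem P.neg_one_le ⟨h1, h2⟩]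

theorem val_of_not_dig {o : Option (Gm P)} (h : o.any isDig = false) : val o = 0 := by
  rcases o with _ | x
  · rfl
  · cases x <;> first | rfl | simp [isDig] at h

/-- A cell of the array: its class and its counter. -/
abbrev Cell (P : Par) := (Fin P.r → P.Cl) × ℕ

/-- The digit symbols of a natural number. -/
noncomputable def digs (P : Par) (n : ℕ) : List (Gm P) :=
  (Nat.digits P.b n).map fun d : ℕ => dg P d

/-- The code of a cell. -/
noncomputable def encC (c : Cell P) : List (Gm P) := .mk c.1 :: digs P c.2

/-- The code of the cells from the head downwards. -/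
noncomputable def encR (l : List (Cell P)) : List (Gm P) := l.flatMap encC

/-- The code of the cells above the head. -/
noncomputable def encL (l : List (Cell P)) : List (Gm P) := l.flatMap fun c => (encC c).reverse

theorem encR_head (l : List (Cell P)) : (encR l).head?.any isDig = false := by
  cases l <;> simp [encR, encC]

theorem digs_isDig (n : ℕ) : ∀ x ∈ digs P n, isDig x = true := by
  intro x hx
  obtain ⟨d, -, rfl⟩ := List.mem_map.1 hx
  rfl

theorem digs_length {n ℓ : ℕ} (h : n < P.b ^ ℓ) : (digs P n).length ≤ ℓ := by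
  have := P.hb
  simp only [digs, List.length_map]
  exact (Nat.digits_length_le_iff (by omega) n).2 h

theorem encL_reverse (l : List (Cell P)) : (encL l).reverse = encR l.reverse := by
  induction l with
  | nil => rfl
  | cons c l ih => simp only [encL, encR] at *; simp [ih]

/-- The array split at the head. -/
abbrev Tape (P : Par) := List (Cell P) × List (Cell P)

/-- Move the head up. -/
def tUp : Tape P → Tape P
  | ([], R) => ([], R)
  | (c :: L, R) => (L, c :: R)

/-- Move the head down. -/
def tDown : Tape P → Tape P
  | (L, []) => (L, [])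
  | (L, c :: R) => (c :: L, R)

/-- Increment the counter under the head. -/
def tInc : Tape P → Tape P
  | (L, []) => (L, [])
  | (L, c :: R) => (L, (c.1, c.2 + 1) :: R)

/-- All counters are at most `X`. -/
def TBd (X : ℕ) (T : Tape P) : Prop := ∀ c, c ∈ T.1 ∨ c ∈ T.2 → c.2 ≤ X

theorem TBd.up {X : ℕ} {T : Tape P} (h : TBd X T) : TBd X (tUp T) := by
  rcases T with ⟨_ | ⟨c, L⟩, R⟩
  · exact h
  · intro x hx
    apply h x
    simp only [tUp, List.mem_cons] at hx ⊢
    tauto

theorem TBd.down {X : ℕ} {T : Tape P} (h : TBd X T) : TBd X (tDown T) := by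
  rcases T with ⟨L, _ | ⟨c, R⟩⟩
  · exact h
  · intro x hx
    apply h x
    simp only [tDown, List.mem_cons] at hx ⊢
    tauto

theorem TBd.mono {X Y : ℕ} {T : Tape P} (h : TBd X T) (hXY : X ≤ Y) : TBd Y T :=
  fun c hc => (h c hc).trans hXY

theorem TBd.inc {X : ℕ} {T : Tape P} (h : TBd X T) : TBd (X + 1) (tInc T) := by
  rcases T with ⟨L, _ | ⟨c, R⟩⟩
  · exact h.mono (by omega)
  · intro x hx
    simp only [tInc, List.mem_cons] at hx
    rcases hx with hx | rfl | hx
    · exact (h x (Or.inl hx)).trans (by omega)
    · have := h c (Or.inr (by simp))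
      simpa using this
    · exact (h x (Or.inr (by simp [hx]))).trans (by omega)

/-- Move the head up. -/
noncomputable def pUp (P : Par) : Pg P := .seq (moveWhile .L .R isDig) (move1 .L .R)

/-- Move the head down. -/
noncomputable def pDown (P : Par) : Pg P := .seq (move1 .R .L) (moveWhile .R .L isDig)

theorem run_pUp {X ℓ : ℕ} (hX : X < P.b ^ ℓ) (T : Tape P) (hT : TBd X T) (s : St P) (k : Sk P)
    (hL : k.L = encL T.1) (hR : k.R = encR T.2) :
    Run (pUp P) s k s { k with L := encL (tUp T).1, R := encR (tUp T).2 } (2 * ℓ + 2) := by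
  rcases T with ⟨_ | ⟨c, L⟩, R⟩
  · have h1 := runs_moveWhile (a := Kk.L) (b := Kk.R) (by simp) isDig s [] (by simp) [] k.fn
      (by simp) (by simpa [Sk.fn, encL] using hL)
    refine Run.of_runs (h1.seq (runs_move1 (by simp) _ _)) (fun j => ?_) (by simp)
    cases j <;> simp [Sk.fn, tUp, encL, hR]
  · have hl : (digs P c.2).length ≤ ℓ := digs_length ((hT c (by simp)).trans_lt hX)
    have h1 := runs_moveWhile (a := Kk.L) (b := Kk.R) (by simp) isDig s (.mk c.1 :: encL L)
      (by simp) (digs P c.2).reverse k.fn (by simpa using digs_isDig c.2)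
      (by simpa [Sk.fn, encL, encC] using hL)
    refine Run.of_runs (h1.seq (runs_move1 (by simp) _ _)) (fun j => ?_) (by simp; omega)
    cases j <;> simp [Sk.fn, tUp, encR, encC, hR]

theorem run_pDown {X ℓ : ℕ} (hX : X < P.b ^ ℓ) (T : Tape P) (hT : TBd X T) (s : St P) (k : Sk P)
    (hL : k.L = encL T.1) (hR : k.R = encR T.2) :
    Run (pDown P) s k s { k with L := encL (tDown T).1, R := encR (tDown T).2 } (2 * ℓ + 2) := by
  have h0 := runs_move1 (a := Kk.R) (b := Kk.L) (by simp) s k.fn
  rcases T with ⟨L, _ | ⟨c, R⟩⟩
  · have h1 := runs_moveWhile (a := Kk.R) (b := Kk.L) (by simp) isDig s [] (by simp) []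
      (update (update k.fn .R (k.fn .R).tail) .L ((k.fn .R).head?.toList ++ k.fn .L))
      (by simp) (by simp [Sk.fn, encR, hR])
    refine Run.of_runs (h0.seq h1) (fun j => ?_) (by simp)
    cases j <;> simp [Sk.fn, tDown, encR, hR, hL]
  · have hl : (digs P c.2).length ≤ ℓ := digs_length ((hT c (by simp)).trans_lt hX)
    have h1 := runs_moveWhile (a := Kk.R) (b := Kk.L) (by simp) isDig s (encR R)
      (encR_head R) (digs P c.2)
      (update (update k.fn .R (k.fn .R).tail) .L ((k.fn .R).head?.toList ++ k.fn .L))
      (digs_isDig c.2) (by simp [Sk.fn, encR, encC, hR])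
    refine Run.of_runs (h0.seq h1) (fun j => ?_) (by omega)
    cases j <;> simp [Sk.fn, tDown, encR, encL, encC, hR, hL]

theorem digits_succ_shape {b : ℕ} (hb : 2 ≤ b) (n : ℕ) :
    ∃ (j : ℕ) (tl : List ℕ), Nat.digits b n = List.replicate j (b - 1) ++ tl ∧
      ((tl = [] ∧ Nat.digits b (n + 1) = List.replicate j 0 ++ [1]) ∨
        ∃ d l, tl = d :: l ∧ d + 1 < b ∧
          Nat.digits b (n + 1) = List.replicate j 0 ++ (d + 1) :: l) := by
  induction n using Nat.strong_induction_on with
  | _ n ih =>
    rcases Nat.eq_zero_or_pos n with rfl | hn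
    · exact ⟨0, [], by simp, Or.inl ⟨rfl, by simp [Nat.digits_of_lt b 1 (by omega) (by omega)]⟩⟩
    · have e1 := Nat.digits_def' (by omega : 1 < b) hn
      have e2 := Nat.digits_def' (by omega : 1 < b) (Nat.succ_pos n)
      have hm := Nat.mod_lt n (by omega : 0 < b)
      have hdm := Nat.div_add_mod n b
      by_cases hc : n % b + 1 < b
      · refine ⟨0, n % b :: Nat.digits b (n / b), by simp [e1], Or.inr ⟨_, _, rfl, hc, ?_⟩⟩
        have h1 : (n + 1) / b = n / b ∧ (n + 1) % b = n % b + 1 := by
          rw [Nat.div_mod_unique (by omega)]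
          exact ⟨by omega, hc⟩
        simp only [Nat.succ_eq_add_one] at e2
        rw [e2, h1.1, h1.2]
        simp
      · have h0 : n % b = b - 1 := by omega
        have h1 : (n + 1) / b = n / b + 1 ∧ (n + 1) % b = 0 := by
          rw [Nat.div_mod_unique (by omega)]
          refine ⟨?_, by omega⟩
          rw [Nat.mul_add]; omega
        obtain ⟨j, tl, h2, h3⟩ := ih (n / b) (Nat.div_lt_self hn (by omega))
        simp only [Nat.succ_eq_add_one] at e2
        refine ⟨j + 1, tl, by rw [e1, h0, h2]; simp [List.replicate_succ], ?_⟩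
        rcases h3 with ⟨h3, h4⟩ | ⟨d, l, h3, h4, h5⟩
        · exact Or.inl ⟨h3, by rw [e2, h1.1, h1.2, h4]; simp [List.replicate_succ]⟩
        · exact Or.inr ⟨d, l, h3, h4, by rw [e2, h1.1, h1.2, h5]; simp [List.replicate_succ]⟩

/-- The carry loop of the increment. -/
noncomputable def pCarry (P : Par) : Pg P :=
  .loop (fun _ tp => decide (val (tp .R) = P.b - 1))
    (.act fun s _ => ⟨s, fun k => if k = .R then 1 else 0,
      fun k => if k = .tmp then [dg P 0] else []⟩)

theorem run_pCarry (s : St P) (rest : List (Gm P)) (hrest : val rest.head? ≠ P.b - 1) :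
    ∀ (j : ℕ) (k : Sk P), k.R = List.replicate j (dg P (P.b - 1 : ℕ)) ++ rest →
      Run (pCarry P) s k s { k with R := rest, tmp := List.replicate j (dg P 0) ++ k.tmp }
        (2 * j + 1) := by
  have hb := P.hb
  intro j
  induction j with
  | zero =>
    intro k h
    refine (Run.loop_false (by simpa [tops, Sk.fn, h] using hrest)).congr rfl ?_ (by simp)
    cases k; simp_all
  | succ j ih =>
    intro k h
    have h1 : Run (.act fun s _ => ⟨s, fun k => if k = .R then 1 else 0,
        fun k => if k = .tmp then [dg P 0] else []⟩) s k s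
        { k with R := List.replicate j (dg P (P.b - 1 : ℕ)) ++ rest, tmp := dg P 0 :: k.tmp } 1 := by
      refine Run.act rfl fun j => ?_
      cases j <;> simp [Sk.fn, h, Out.app, List.replicate_succ]
    refine (Run.loop_true ?_ h1 (ih _ rfl)).congr rfl ?_ (by omega)
    · simp only [tops, Sk.fn, h, List.replicate_succ, List.cons_append, List.head?_cons,
        decide_eq_true_eq]
      rw [val_dg (by omega) (by omega)]
      omega
    · simp [List.replicate_succ']

/-- The class stored in a marker. -/
def clsOf (κ : Fin P.r → P.Cl) : Option (Gm P) → Fin P.r → P.Cl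
  | some (.mk κ') => κ'
  | _ => κ

/-- Increment the counter under the head. -/
noncomputable def pInc (P : Par) : Pg P :=
  .ite (ne .R)
    (.seq (.act fun s tp => ⟨{ s with κ := clsOf s.κ (tp .R) }, fun k => if k = .R then 1 else 0,
        fun _ => []⟩)
      (.seq (pCarry P)
        (.seq (.act fun s tp => ⟨s, fun k => if k = .R ∧ (tp .R).any isDig then 1 else 0,
            fun k => if k = .R then [dg P (val (tp .R) + 1)] else []⟩)
          (.seq (moveAll .tmp .R)
            (.act fun s _ => ⟨s, fun _ => 0, fun k => if k = .R then [.mk s.κ] else []⟩)))))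
    skip

theorem run_pInc {X ℓ : ℕ} (hX : X < P.b ^ ℓ) (T : Tape P) (hT : TBd X T) (s : St P) (k : Sk P)
    (hR : k.R = encR T.2) (htmp : k.tmp = []) :
    ∃ s', Run (pInc P) s k s' { k with R := encR (tInc T).2 } (4 * ℓ + 6) := by
  have hb := P.hb
  rcases T with ⟨L, _ | ⟨c, R⟩⟩
  · refine ⟨s, (Run.ite_false (ne_false (a := Kk.R) hR) (run_skip s k)).congr rfl ?_ (by omega)⟩
    cases k; simp_all [tInc]
  · have hl : (digs P c.2).length ≤ ℓ := digs_length ((hT c (by simp)).trans_lt hX)
    obtain ⟨j, tl, e1, e2⟩ := digits_succ_shape hb c.2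
    have hj : j ≤ ℓ := by
      simp only [digs, e1, List.length_map, List.length_append, List.length_replicate] at hl
      omega
    have hR' : k.R = .mk c.1 :: (List.replicate j (dg P (P.b - 1 : ℕ)) ++
        (tl.map (fun d : ℕ => dg P d) ++ encR R)) := by
      simp [hR, encR, encC, digs, e1]
    have h1 : Run (.act fun s tp => ⟨{ s with κ := clsOf s.κ (tp .R) },
        fun k => if k = .R then 1 else 0, fun _ => []⟩) s k { s with κ := c.1 }
        { k with R := List.replicate j (dg P (P.b - 1 : ℕ)) ++
          (tl.map (fun d : ℕ => dg P d) ++ encR R) } 1 := by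
      refine Run.act (by simp [tops, Sk.fn, hR', clsOf]) fun j => ?_
      cases j <;> simp [Sk.fn, hR', Out.app]
    have hne : val (tl.map (fun d : ℕ => dg P d) ++ encR R).head? ≠ P.b - 1 := by
      rcases e2 with ⟨rfl, -⟩ | ⟨d, l, rfl, hd, -⟩
      · simp only [List.map_nil, List.nil_append]
        rw [val_of_not_dig (encR_head R)]
        omega
      · simp only [List.map_cons, List.cons_append, List.head?_cons]
        rw [val_dg (by omega) (by omega)]
        omega
    have h2 := run_pCarry { s with κ := c.1 } _ hne j
      { k with R := List.replicate j (dg P (P.b - 1 : ℕ)) ++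
          (tl.map (fun d : ℕ => dg P d) ++ encR R) } rfl
    obtain ⟨R', h3, e3⟩ : ∃ R', Run (.act fun s tp =>
        ⟨s, fun k => if k = .R ∧ (tp .R).any isDig then 1 else 0,
            fun k => if k = .R then [dg P (val (tp .R) + 1)] else []⟩) { s with κ := c.1 }
        { k with R := tl.map (fun d : ℕ => dg P d) ++ encR R,
                 tmp := List.replicate j (dg P 0) ++ k.tmp } { s with κ := c.1 }
        { k with R := R', tmp := List.replicate j (dg P 0) ++ k.tmp } 1 ∧
        List.replicate j (dg P 0) ++ R' = digs P (c.2 + 1) ++ encR R := by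
      rcases e2 with ⟨rfl, e2⟩ | ⟨d, l, rfl, hd, e2⟩
      · refine ⟨dg P 1 :: encR R, Run.act rfl fun j => ?_, by simp [digs, e2]⟩
        cases j <;> simp [Sk.fn, Out.app, tops, encR_head, val_of_not_dig (encR_head R)]
      · refine ⟨dg P (d + 1) :: (l.map (fun d : ℕ => dg P d) ++ encR R),
          Run.act rfl fun j => ?_, by simp [digs, e2]⟩
        have hv : val (some (dg P d)) = d := val_dg (by omega) (by omega)
        cases j <;> simp [Sk.fn, Out.app, tops, hv]
    have h4 : Run (moveAll .tmp .R) { s with κ := c.1 }
        { k with R := R', tmp := List.replicate j (dg P 0) ++ k.tmp } { s with κ := c.1 }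
        { k with R := digs P (c.2 + 1) ++ encR R } (2 * j + 1) := by
      refine Run.of_runs (runs_moveAll (by simp) _ _) (fun j => ?_) (by simp [Sk.fn, htmp])
      cases j <;> simp [Sk.fn, htmp, e3]
    have h5 : Run (.act fun s _ => ⟨s, fun _ => 0, fun k => if k = .R then [.mk s.κ] else []⟩)
        { s with κ := c.1 } { k with R := digs P (c.2 + 1) ++ encR R } { s with κ := c.1 }
        { k with R := encR (tInc (L, c :: R)).2 } 1 := by
      refine Run.act rfl fun j => ?_
      cases j <;> simp [Sk.fn, Out.app, tInc, encR, encC]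
    exact ⟨_, (Run.ite_true (ne_true (a := Kk.R) hR')
      (h1.seq (h2.seq (h3.seq (h4.seq h5))))).mono (by omega)⟩

/-- The direction of a move. -/
def dirOf {r : ℕ} : Op r → Bool
  | some (_, e) => e
  | none => false

/-- The body of the loop over the stride tokens. -/
noncomputable def mBody (P : Par) : Pg P :=
  .seq (.act fun s tp => ⟨{ s with hit := decide (tp .str = s.o.map fun x => Gm.st x.1) },
      fun k => if k = .str then 1 else 0, fun k => if k = .str2 then (tp .str).toList else []⟩)
    (.ite (fun s _ => s.hit) (.ite (fun s _ => dirOf s.o) (pUp P) (pDown P)) skip)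

theorem TBd.iter {X : ℕ} (e : Bool) (n : ℕ) {T : Tape P} (h : TBd X T) :
    TBd X ((if e then tUp else tDown)^[n] T) := by
  induction n generalizing T with
  | zero => exact h
  | succ n ih =>
    rw [iterate_succ_apply]
    apply ih
    cases e
    · exact h.down
    · exact h.up

theorem run_mLoop {X ℓ : ℕ} (hX : X < P.b ^ ℓ) (i : Fin P.r) (e : Bool) :
    ∀ (toks : List (Fin P.r)) (T : Tape P) (s : St P) (k : Sk P), TBd X T → s.o = some (i, e) →
      k.L = encL T.1 → k.R = encR T.2 → k.str = toks.map .st →
      ∃ s', Run (.loop (ne .str) (mBody P)) s k s'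
        { k with L := encL ((if e then tUp else tDown)^[toks.count i] T).1,
                 R := encR ((if e then tUp else tDown)^[toks.count i] T).2,
                 str := [], str2 := (toks.map .st).reverse ++ k.str2 }
        (toks.length * (2 * ℓ + 6) + 1) := by
  intro toks
  induction toks with
  | nil =>
    intro T s k _ _ hL hR hs
    refine ⟨s, (Run.loop_false (ne_false (a := Kk.str) hs)).congr rfl ?_ (by simp)⟩
    cases k; simp_all
  | cons x toks ih =>
    intro T s k hT ho hL hR hs
    have h1 : Run (.act fun s tp =>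
        ⟨{ s with hit := decide (tp .str = s.o.map fun x => Gm.st x.1) },
          fun k => if k = .str then 1 else 0, fun k => if k = .str2 then (tp .str).toList else []⟩)
        s k { s with hit := decide (x = i) }
        { k with str := toks.map .st, str2 := .st x :: k.str2 } 1 := by
      refine Run.act (by simp [tops, Sk.fn, hs, ho]) fun j => ?_
      cases j <;> simp [Sk.fn, Out.app, tops, hs]
    by_cases hx : x = i
    · have h2 : Run (.ite (fun s _ => dirOf s.o) (pUp P) (pDown P))
          { s with hit := decide (x = i) }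
          { k with str := toks.map .st, str2 := .st x :: k.str2 }
          { s with hit := decide (x = i) }
          { k with L := encL ((if e then tUp else tDown) T).1,
                   R := encR ((if e then tUp else tDown) T).2,
                   str := toks.map .st, str2 := .st x :: k.str2 } (2 * ℓ + 3) := by
        cases e
        · exact Run.ite_false (by simp [ho, dirOf]) (run_pDown hX T hT _ _ hL hR)
        · exact Run.ite_true (by simp [ho, dirOf]) (run_pUp hX T hT _ _ hL hR)
      obtain ⟨s', h3⟩ := ih ((if e then tUp else tDown) T) { s with hit := decide (x = i) }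
        { k with L := encL ((if e then tUp else tDown) T).1,
                 R := encR ((if e then tUp else tDown) T).2,
                 str := toks.map .st, str2 := .st x :: k.str2 } (hT.iter e 1) ho rfl rfl rfl
      refine ⟨s', (Run.loop_true (ne_true (a := Kk.str) hs)
        (h1.seq (Run.ite_true (by simp [hx]) h2)) h3).congr rfl ?_ ?_⟩
      · simp [hx]
      · simp only [List.length_cons]; ring_nf; omega
    · obtain ⟨s', h3⟩ := ih T { s with hit := decide (x = i) }
        { k with str := toks.map .st, str2 := .st x :: k.str2 } hT ho hL hR rfl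
      refine ⟨s', (Run.loop_true (ne_true (a := Kk.str) hs)
        (h1.seq (Run.ite_false (by simp [hx]) (run_skip _ _))) h3).congr rfl ?_ ?_⟩
      · simp [hx]
      · simp only [List.length_cons]; ring_nf; omega

/-- The effect of an operation on the array, for given stride tokens. -/
def tOp (toks : List (Fin P.r)) : Op P.r → Tape P → Tape P
  | none => tInc
  | some (i, e) => (if e then tUp else tDown)^[toks.count i]

/-- The operation stored in a symbol. -/
def opOf : Option (Gm P) → Op P.r
  | some (.op o) => o
  | _ => none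

/-- The body of the loop that fills the array. -/
noncomputable def bBody (P : Par) : Pg P :=
  .seq (.act fun s tp => ⟨{ s with o := opOf (tp .o3) }, fun k => if k = .o3 then 1 else 0,
      fun _ => []⟩)
    (.ite (fun s _ => s.o.isNone) (pInc P)
      (.seq (.loop (ne .str) (mBody P)) (moveAll .str2 .str)))

theorem tInc_fst (T : Tape P) : (tInc T).1 = T.1 := by
  rcases T with ⟨L, _ | ⟨c, R⟩⟩ <;> rfl

theorem run_bLoop {X ℓ : ℕ} (hX : X < P.b ^ ℓ) (toks : List (Fin P.r)) :
    ∀ (ops : List (Op P.r)) (Y : ℕ) (T : Tape P) (s : St P) (k : Sk P), TBd Y T →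
      Y + ops.length ≤ X → k.L = encL T.1 → k.R = encR T.2 → k.str = toks.map .st →
      k.str2 = [] → k.tmp = [] → k.o3 = ops.map .op →
      ∃ s', Run (.loop (ne .o3) (bBody P)) s k s'
        { k with L := encL (ops.foldl (fun T o => tOp toks o T) T).1,
                 R := encR (ops.foldl (fun T o => tOp toks o T) T).2, o3 := [] }
        (ops.length * ((toks.length + 2) * (2 * ℓ + 8)) + 1) ∧
        TBd X (ops.foldl (fun T o => tOp toks o T) T) := by
  intro ops
  induction ops with
  | nil =>
    intro Y T s k hT hY hL hR _ _ _ ho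
    refine ⟨s, (Run.loop_false (ne_false (a := Kk.o3) ho)).congr rfl ?_ (by simp),
      hT.mono (by simpa using hY)⟩
    cases k; simp_all
  | cons o ops ih =>
    intro Y T s k hT hY hL hR hs hs2 htmp ho
    simp only [List.length_cons] at hY
    have h1 : Run (.act fun s tp => ⟨{ s with o := opOf (tp .o3) },
        fun k => if k = .o3 then 1 else 0, fun _ => []⟩) s k { s with o := o }
        { k with o3 := ops.map .op } 1 := by
      refine Run.act (by simp [tops, Sk.fn, ho, opOf]) fun j => ?_
      cases j <;> simp [Sk.fn, Out.app, ho]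
    obtain ⟨s1, h2, hT'⟩ : ∃ s1, Run (.ite (fun s _ => s.o.isNone) (pInc P)
        (.seq (.loop (ne .str) (mBody P)) (moveAll .str2 .str))) { s with o := o }
        { k with o3 := ops.map .op } s1
        { k with L := encL (tOp toks o T).1, R := encR (tOp toks o T).2, o3 := ops.map .op }
        ((toks.length + 2) * (2 * ℓ + 8) - 2) ∧ TBd (Y + 1) (tOp toks o T) := by
      rcases o with _ | ⟨i, e⟩
      · obtain ⟨s1, h⟩ := run_pInc hX T (hT.mono (by omega)) { s with o := none }
          { k with o3 := ops.map .op } hR htmp
        refine ⟨s1, (Run.ite_true rfl h).congr rfl ?_ ?_, hT.inc⟩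
        · simp [tOp, tInc_fst, hL]
        · ring_nf; omega
      · obtain ⟨s1, h⟩ := run_mLoop hX i e toks T { s with o := some (i, e) }
          { k with o3 := ops.map .op } (hT.mono (by omega)) rfl hL hR hs
        refine ⟨s1, (Run.ite_false rfl (h.seq (Run.of_runs (u := 2 * toks.length + 1)
          (runs_moveAll (by simp) _ _) (fun j => ?_) (by simp [Sk.fn, hs2])))).mono ?_,
          (hT.iter e _).mono (by omega)⟩
        · cases j <;> simp [Sk.fn, hs2, hs, tOp]
        · ring_nf; omega
    obtain ⟨s', h3, hT''⟩ := ih (Y + 1) (tOp toks o T) s1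
      { k with L := encL (tOp toks o T).1, R := encR (tOp toks o T).2, o3 := ops.map .op } hT'
      (by omega) rfl rfl hs hs2 htmp rfl
    refine ⟨s', (Run.loop_true (ne_true (a := Kk.o3) ho) (h1.seq h2) h3).congr rfl rfl ?_, hT''⟩
    simp only [List.length_cons]
    have : 2 ≤ (toks.length + 2) * (2 * ℓ + 8) := by nlinarith
    generalize (toks.length + 2) * (2 * ℓ + 8) = M at this ⊢
    rw [Nat.succ_mul]
    omega

end Pool.Agent.Lib.MP_2ec175_al
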