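import Pool.Agent.Lib.MP_2ec175_al.Mach2

/-!
The machine for the word problem of metabelian groups, part 3: generating the empty array, the
stride tokens and the delay lines.
-/

set_option autoImplicit false
set_option linter.unusedSectionVars false

namespace Pool.Agent.Lib.MP_2ec175_al

open Function Pool.Agent.Shared.StackProg

variable {P : Par}

/-- `p` forward moves in every direction. -/
def allUp (r p : ℕ) : List (Op r) :=
  (List.replicate p ((List.finRange r).map fun i => some (i, true))).flatten

/-- Compute the side of the box and the moves to the starting cell. -/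
noncomputable def pInit (P : Par) : Pg P :=
  .seq (each .rho fun _ _ k => if k = .dd then List.replicate P.c1 .u else
      if k = .o3 then (allUp P.r P.p).map .op else [])
    (.act fun s _ => ⟨s, fun _ => 0, fun k => if k = .dd then List.replicate P.B .u else
      if k = .L then [.mk fun _ => P.c0] else []⟩)

theorem flatMap_const_replicate {β γ : Type} (n : ℕ) (x : β) (l : List γ) :
    (List.replicate n x).flatMap (fun _ => l) = (List.replicate n l).flatten := by
  induction n with
  | zero => rfl
  | succ n ih => simp [List.replicate_succ, ih]

theorem run_pInit (ρ : ℕ) (ops : List (Op P.r)) (s : St P) (k : Sk P)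
    (h1 : k.rho = List.replicate ρ .u) (h2 : k.dd = []) (h3 : k.o3 = ops.map .op) (h4 : k.L = []) :
    Run (pInit P) s k s
      { k with rho := [], dd := List.replicate (P.B + ρ * P.c1) .u,
               o3 := ((List.replicate ρ (allUp P.r P.p)).flatten ++ ops).map .op,
               L := [.mk fun _ => P.c0] } (2 * ρ + 2) := by
  have a : Run (each .rho fun _ _ k => if k = .dd then List.replicate P.c1 .u else
      if k = .o3 then (allUp P.r P.p).map .op else []) s k s
      { k with rho := [], dd := List.replicate (ρ * P.c1) .u,
               o3 := ((List.replicate ρ (allUp P.r P.p)).flatten ++ ops).map .op } (2 * ρ + 1) := by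
    refine Run.of_runs (runs_each _ _ _ _) (fun j => ?_) (by simp [Sk.fn, h1])
    cases j <;> simp [Sk.fn, h1, h2, h3, flatMap_const_replicate]
  refine a.seq (Run.act rfl fun j => ?_)
  cases j <;> simp [Sk.fn, Out.app, h4]

/-- Set coordinate `i` of a marker to `c`. -/
noncomputable def relabel (i : Fin P.r) (c : P.Cl) : Gm P → Gm P
  | .mk κ => .mk (update κ i c)
  | x => x

/-- `n` relabelled copies of a list of classes. -/
def labRep (i : Fin P.r) (lab : List (Fin P.r → P.Cl)) : P.Cl → ℕ → List (Fin P.r → P.Cl)
  | _, 0 => []
  | c, n + 1 => lab.map (fun κ => update κ i c) ++ labRep i lab (P.nxt c) n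

theorem labRep_length (i : Fin P.r) (lab : List (Fin P.r → P.Cl)) :
    ∀ (n : ℕ) (c : P.Cl), (labRep i lab c n).length = n * lab.length := by
  intro n
  induction n with
  | zero => simp [labRep]
  | succ n ih => intro c; simp [labRep, ih, Nat.succ_mul, add_comm]

/-- The body of the copying loop of a round. -/
noncomputable def gBody (P : Par) (i : Fin P.r) : Pg P :=
  .seq (.act fun s _ => ⟨s, fun k => if k = .dd then 1 else 0,
      fun k => if k = .dd2 then [.u] else []⟩)
    (.seq (each .L fun s x k => if k = .R then [relabel i s.c x] else
        if k = .tmp then [x] else [])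
      (.seq (moveAll .tmp .L) (.act fun s _ => Out.skip { s with c := P.nxt s.c })))

theorem run_gLoop (i : Fin P.r) (lab : List (Fin P.r → P.Cl)) :
    ∀ (n : ℕ) (s : St P) (k : Sk P), k.dd = List.replicate n .u → k.L = lab.map .mk → k.tmp = [] →
      ∃ s', Run (.loop (ne .dd) (gBody P i)) s k s'
        { k with dd := [], dd2 := List.replicate n .u ++ k.dd2,
                 R := ((labRep i lab s.c n).map .mk).reverse ++ k.R }
        (n * (4 * lab.length + 5) + 1) := by
  intro n
  induction n with
  | zero =>
    intro s k h1 _ _
    refine ⟨s, (Run.loop_false (ne_false (a := Kk.dd) h1)).congr rfl ?_ (by simp)⟩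
    cases k; simp_all [labRep]
  | succ n ih =>
    intro s k h1 h2 h3
    have a : Run (.act fun s _ => ⟨s, fun k => if k = .dd then 1 else 0,
        fun k => if k = .dd2 then [.u] else []⟩) s k s
        { k with dd := List.replicate n .u, dd2 := .u :: k.dd2 } 1 := by
      refine Run.act rfl fun j => ?_
      cases j <;> simp [Sk.fn, Out.app, h1, List.replicate_succ]
    have b : Run (each .L fun s x k => if k = .R then [relabel i s.c x] else
        if k = .tmp then [x] else []) s { k with dd := List.replicate n .u, dd2 := .u :: k.dd2 } s
        { k with dd := List.replicate n .u, dd2 := .u :: k.dd2, L := [],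
                 tmp := (lab.map .mk).reverse,
                 R := ((lab.map fun κ => update κ i s.c).map .mk).reverse ++ k.R }
        (2 * lab.length + 1) := by
      refine Run.of_runs (runs_each _ _ _ _) (fun j => ?_) (by simp [Sk.fn, h2])
      cases j <;> simp [Sk.fn, h2, h3, ← List.map_eq_flatMap, relabel]
    have c : Run (moveAll .tmp .L) s
        { k with dd := List.replicate n .u, dd2 := .u :: k.dd2, L := [],
                 tmp := (lab.map .mk).reverse,
                 R := ((lab.map fun κ => update κ i s.c).map .mk).reverse ++ k.R } s
        { k with dd := List.replicate n .u, dd2 := .u :: k.dd2,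
                 R := ((lab.map fun κ => update κ i s.c).map .mk).reverse ++ k.R }
        (2 * lab.length + 1) := by
      refine Run.of_runs (runs_moveAll (by simp) _ _) (fun j => ?_) (by simp [Sk.fn])
      cases j <;> simp [Sk.fn, h2, h3]
    obtain ⟨s', d⟩ := ih { s with c := P.nxt s.c }
      { k with dd := List.replicate n .u, dd2 := .u :: k.dd2,
               R := ((lab.map fun κ => update κ i s.c).map .mk).reverse ++ k.R } rfl h2 h3
    refine ⟨s', (Run.loop_true (ne_true (a := Kk.dd) h1)
      (a.seq (b.seq (c.seq (Run.act rfl fun _ => rfl)))) d).congr rfl ?_ ?_⟩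
    · simp [labRep, List.replicate_succ']
    · rw [Nat.succ_mul n]; omega

/-- One round of the generation of the array. -/
noncomputable def pRound (P : Par) (i : Fin P.r) : Pg P :=
  .seq (each .L fun _ x k => if k = .str then [.st i] else if k = .tmp then [x] else [])
    (.seq (moveAll .tmp .L)
      (.seq (.act fun s _ => Out.skip { s with c := P.c0 })
        (.seq (.loop (ne .dd) (gBody P i))
          (.seq (moveAll .dd2 .dd) (.seq (each .L fun _ _ _ => []) (moveAll .R .L))))))

theorem run_pRound (i : Fin P.r) (lab : List (Fin P.r → P.Cl)) (D : ℕ) (s : St P) (k : Sk P)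
    (h1 : k.dd = List.replicate D .u) (h2 : k.L = lab.map .mk) (h3 : k.tmp = [])
    (h4 : k.dd2 = []) (h5 : k.R = []) :
    ∃ s', Run (pRound P i) s k s'
      { k with L := (labRep i lab P.c0 D).map .mk,
               str := List.replicate lab.length (.st i) ++ k.str }
      (6 * (D * lab.length) + 6 * lab.length + 7 * D + 7) := by
  have a : Run (each .L fun _ x k => if k = .str then [.st i] else if k = .tmp then [x] else [])
      s k s { k with L := [], tmp := (lab.map .mk).reverse,
                     str := List.replicate lab.length (.st i) ++ k.str } (2 * lab.length + 1) := by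
    refine Run.of_runs (runs_each _ _ _ _) (fun j => ?_) (by simp [Sk.fn, h2])
    cases j <;> simp [Sk.fn, h2, h3, ← List.map_eq_flatMap, Function.comp_def]
  have b : Run (moveAll .tmp .L) s
      { k with L := [], tmp := (lab.map .mk).reverse,
               str := List.replicate lab.length (.st i) ++ k.str } s
      { k with str := List.replicate lab.length (.st i) ++ k.str } (2 * lab.length + 1) := by
    refine Run.of_runs (runs_moveAll (by simp) _ _) (fun j => ?_) (by simp [Sk.fn])
    cases j <;> simp [Sk.fn, h2, h3]
  obtain ⟨s', c⟩ := run_gLoop i lab D { s with c := P.c0 }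
    { k with str := List.replicate lab.length (.st i) ++ k.str } h1 h2 h3
  have d : Run (moveAll .dd2 .dd) s'
      { k with str := List.replicate lab.length (.st i) ++ k.str, dd := [],
               dd2 := List.replicate D .u ++ k.dd2,
               R := ((labRep i lab P.c0 D).map .mk).reverse ++ k.R } s'
      { k with str := List.replicate lab.length (.st i) ++ k.str,
               R := ((labRep i lab P.c0 D).map .mk).reverse ++ k.R } (2 * D + 1) := by
    refine Run.of_runs (runs_moveAll (by simp) _ _) (fun j => ?_) (by simp [Sk.fn, h4])
    cases j <;> simp [Sk.fn, h1, h4]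
  have e : Run (each .L fun _ _ _ => []) s'
      { k with str := List.replicate lab.length (.st i) ++ k.str,
               R := ((labRep i lab P.c0 D).map .mk).reverse ++ k.R } s'
      { k with str := List.replicate lab.length (.st i) ++ k.str, L := [],
               R := ((labRep i lab P.c0 D).map .mk).reverse ++ k.R } (2 * lab.length + 1) := by
    refine Run.of_runs (runs_each _ _ _ _) (fun j => ?_) (by simp [Sk.fn, h2])
    cases j <;> simp [Sk.fn]
  have f : Run (moveAll .R .L) s'
      { k with str := List.replicate lab.length (.st i) ++ k.str, L := [],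
               R := ((labRep i lab P.c0 D).map .mk).reverse ++ k.R } s'
      { k with L := (labRep i lab P.c0 D).map .mk,
               str := List.replicate lab.length (.st i) ++ k.str }
      (2 * (D * lab.length) + 1) := by
    refine Run.of_runs (runs_moveAll (by simp) _ _) (fun j => ?_)
      (by simp [Sk.fn, h5, labRep_length])
    cases j <;> simp [Sk.fn, h5]
  refine ⟨s', (a.seq (b.seq ((Run.act rfl fun _ => rfl).seq
    (c.seq (d.seq (e.seq f)))))).mono ?_⟩
  ring_nf
  omega

/-- The classes of the cells after `n` rounds, in increasing order. -/
def genLab (P : Par) (D : ℕ) : ℕ → List (Fin P.r → P.Cl)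
  | 0 => [fun _ => P.c0]
  | n + 1 => if h : n < P.r then labRep ⟨n, h⟩ (genLab P D n) P.c0 D else genLab P D n

/-- The stride tokens after `n` rounds. -/
def genTok (r D : ℕ) : ℕ → List (Fin r)
  | 0 => []
  | n + 1 => if h : n < r then List.replicate (D ^ n) ⟨n, h⟩ ++ genTok r D n else genTok r D n

theorem genLab_length (D : ℕ) : ∀ n, n ≤ P.r → (genLab P D n).length = D ^ n := by
  intro n
  induction n with
  | zero => simp [genLab]
  | succ n ih =>
    intro h
    simp only [genLab, dif_pos (show n < P.r by omega), labRep_length, ih (by omega)]
    ring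

/-- The first `n` rounds. -/
noncomputable def pRounds (P : Par) : ℕ → Pg P
  | 0 => skip
  | n + 1 => .seq (pRounds P n) (if h : n < P.r then pRound P ⟨n, h⟩ else skip)

theorem run_pRounds (D : ℕ) (hD : 1 ≤ D) (s : St P) (k : Sk P)
    (h1 : k.dd = List.replicate D .u) (h2 : k.L = [.mk fun _ => P.c0]) (h3 : k.tmp = [])
    (h4 : k.dd2 = []) (h5 : k.R = []) (h6 : k.str = []) :
    ∀ n, n ≤ P.r → ∃ s', Run (pRounds P n) s k s'
      { k with L := (genLab P D n).map .mk, str := (genTok P.r D n).map .st }
      (n * (26 * D ^ P.r) + 1) := by
  intro n
  induction n with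
  | zero =>
    intro _
    refine ⟨s, (run_skip s k).congr rfl ?_ (by simp)⟩
    cases k; simp_all [genLab, genTok]
  | succ n ih =>
    intro h
    have hn : n < P.r := by omega
    obtain ⟨s1, a⟩ := ih (by omega)
    obtain ⟨s2, b⟩ := run_pRound ⟨n, hn⟩ (genLab P D n) D s1
      { k with L := (genLab P D n).map .mk, str := (genTok P.r D n).map .st } h1 rfl h3 h4 h5
    refine ⟨s2, ?_⟩
    simp only [pRounds, dif_pos hn]
    refine (a.seq b).congr rfl ?_ ?_
    · simp [genLab, genTok, hn, genLab_length D n hn.le]
    · rw [genLab_length D n hn.le]
      have e1 : D * D ^ n ≤ D ^ P.r := by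
        rw [← pow_succ']; exact Nat.pow_le_pow_right hD hn
      have e2 : D ^ n ≤ D ^ P.r := Nat.pow_le_pow_right hD hn.le
      have e3 : D ≤ D ^ P.r := by
        calc D = D ^ 1 := (pow_one D).symm
          _ ≤ D ^ P.r := Nat.pow_le_pow_right hD (by omega)
      rw [Nat.succ_mul n]
      omega

/-- The code of an entry of a delay line. -/
noncomputable def encE (P : Par) (e : List ℤ) : List (Gm P) := e.map (dg P) ++ [.fin]

/-- The code of a list of entries. -/
noncomputable def encQ (P : Par) (q : List (List ℤ)) : List (Gm P) := q.flatMap (encE P)

/-- The token stored in a symbol. -/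
def offOf (P : Par) (δ : P.Δ) : Gm P → ℤ
  | .st i => P.off δ i
  | _ => 0

/-- Fill the delay lines with zeros. -/
noncomputable def pQueues (P : Par) : Pg P :=
  .seq (each .str fun _ x k => match k with
      | .qo δ => (List.replicate (offOf P δ x).toNat [dg P 0, .fin]).flatten
      | .str2 => [x]
      | _ => [])
    (eachDrop .str2 fun _ x k => match k with
      | .qo δ => 2 * (-offOf P δ x).toNat
      | _ => 0)

theorem encQ_replicate (n : ℕ) :
    encQ P (List.replicate n [0]) = (List.replicate n [dg P 0, .fin]).flatten := by
  simp [encQ, encE, List.flatMap_replicate]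

theorem drop_flatten_replicate {β : Type} (x y : β) (n m : ℕ) :
    (List.replicate n [x, y]).flatten.drop (2 * m) = (List.replicate (n - m) [x, y]).flatten := by
  induction m generalizing n with
  | zero => simp
  | succ m ih =>
    cases n with
    | zero => simp
    | succ n =>
      rw [show 2 * (m + 1) = 2 * m + 1 + 1 by ring, List.replicate_succ, List.flatten_cons]
      simp only [List.cons_append, List.nil_append, List.drop_succ_cons, ih]
      congr 2
      omega

theorem flatMap_flatten_replicate {β γ : Type} (l : List β) (f : β → ℕ) (y : List γ) :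
    l.flatMap (fun x => (List.replicate (f x) y).flatten) =
      (List.replicate (l.map f).sum y).flatten := by
  induction l with
  | nil => simp
  | cons x l ih =>
    rw [List.flatMap_cons, ih, List.map_cons, List.sum_cons, List.replicate_add,
      List.flatten_append]

theorem sum_toNat_sub {β : Type} (l : List β) (f : β → ℤ) :
    ((l.map fun x => (f x).toNat).sum : ℤ) - (l.map fun x => (-f x).toNat).sum =
      (l.map f).sum := by
  induction l with
  | nil => simp
  | cons x l ih =>
    simp only [List.map_cons, List.sum_cons, Nat.cast_add]
    omega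

theorem run_pQueues (toks : List (Fin P.r)) (s : St P) (k : Sk P) (h1 : k.str = toks.map .st)
    (h2 : k.str2 = []) (h3 : k.qo = fun _ => []) :
    Run (pQueues P) s k s
      { k with str := [],
               qo := fun δ => encQ P (List.replicate (toks.map (P.off δ)).sum.toNat [0]) }
      (4 * toks.length + 2) := by
  have a : Run (each .str fun _ x k => match k with
      | .qo δ => (List.replicate (offOf P δ x).toNat [dg P 0, .fin]).flatten
      | .str2 => [x]
      | _ => []) s k s
      { k with str := [], str2 := (toks.map .st).reverse,
               qo := fun δ => (List.replicate (toks.map fun i => (P.off δ i).toNat).sum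
                 [dg P 0, .fin]).flatten } (2 * toks.length + 1) := by
    refine Run.of_runs (runs_each _ _ _ _) (fun j => ?_) (by simp [Sk.fn, h1])
    cases j <;>
      simp [Sk.fn, h1, h2, h3, flatMap_flatten_replicate, Function.comp_def, offOf, List.sum_reverse]
  refine (a.seq (Run.of_runs (u := 2 * toks.length + 1) (runs_eachDrop _ _ _ _) (fun j => ?_)
    (by simp [Sk.fn]))).mono (by omega)
  cases j with
  | qo δ =>
    simp only [Sk.fn, reduceCtorEq, if_false, List.map_reverse, List.map_map, Function.comp_def,
      offOf, List.sum_reverse, List.sum_map_mul_left, drop_flatten_replicate, encQ_replicate]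
    congr 2
    have := sum_toNat_sub toks (P.off δ)
    omega
  | _ => simp [Sk.fn, h2, Function.comp_def]

end Pool.Agent.Lib.MP_2ec175_al
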