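import Pool.Agent.Lib.MP_2ec175_al.Mach3

/-!
The machine for the word problem of metabelian groups, part 4: the streaming reduction.
-/

set_option autoImplicit false
set_option linter.unusedSectionVars false

namespace Pool.Agent.Lib.MP_2ec175_al

open Function Pool.Agent.Shared.StackProg

variable {P : Par}

/-- The value of a list of digits, least significant first. -/
def ev (b : ℤ) (l : List ℤ) : ℤ := l.foldr (fun d acc => d + b * acc) 0

@[simp] theorem ev_nil (b : ℤ) : ev b [] = 0 := rfl
@[simp] theorem ev_cons (b d : ℤ) (l : List ℤ) : ev b (d :: l) = d + b * ev b l := rfl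

theorem ev_eq_head_tail (b : ℤ) (l : List ℤ) : ev b l = l.headD 0 + b * ev b l.tail := by
  cases l <;> simp

theorem ev_digits (b n : ℕ) : ev b ((Nat.digits b n).map fun d : ℕ => (d : ℤ)) = n := by
  have h : ∀ l : List ℕ, ev b (l.map fun d : ℕ => (d : ℤ)) = ((Nat.ofDigits b l : ℕ) : ℤ) := by
    intro l
    induction l with
    | nil => simp
    | cons d l ih => simp [ih, Nat.ofDigits_cons]
  rw [h, Nat.ofDigits_digits]

/-- The multipliers of the output streams; the stream `none` is the zero test. -/
def Mc (P : Par) (κ : Fin P.r → P.Cl) : Option P.Δ → ℤ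
  | none => if P.d κ = 0 then 1 else 0
  | some δ => -P.g κ δ * (P.b / P.d κ)

/-- The input stacks of the reduction. -/
def inK (P : Par) : Option P.Δ → Kk P
  | none => .R
  | some δ => .qo δ

theorem Par.neg_le (P : Par) : -(P.C : ℤ) ≤ P.C := by omega

/-- Clamp an integer to the range of carries. -/
noncomputable def clamp (P : Par) (x : ℤ) : Set.Icc (-(P.C : ℤ)) P.C :=
  Set.projIcc _ _ P.neg_le x

theorem clamp_val {x : ℤ} (h1 : -(P.C : ℤ) ≤ x) (h2 : x ≤ P.C) : (clamp P x).1 = x := by
  simp [clamp, Set.projIcc_of_mem P.neg_le ⟨h1, h2⟩]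

/-! ### Refilling the delay lines -/

open Classical in
/-- The loop that moves the marked input halves to the output halves. -/
noncomputable def rLoop (P : Par) : Pg P :=
  .loop (fun s tp => decide (∃ δ, s.mv δ = true ∧ (tp (.qi δ)).isSome = true))
    (.act fun s tp => ⟨s, fun k => match k with
        | .qi δ => if s.mv δ then 1 else 0
        | _ => 0,
      fun k => match k with
        | .qo δ => if s.mv δ then (tp (.qi δ)).toList else []
        | _ => []⟩)

theorem run_rLoop (s : St P) : ∀ (n : ℕ) (k : Sk P), (∀ δ, s.mv δ = true → (k.qi δ).length ≤ n) →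
    Run (rLoop P) s k s
      { k with qi := fun δ => if s.mv δ then [] else k.qi δ,
               qo := fun δ => if s.mv δ then (k.qi δ).reverse ++ k.qo δ else k.qo δ }
      (2 * n + 1) := by
  have stop : ∀ k : Sk P, (∀ δ, s.mv δ = true → k.qi δ = []) → Run (rLoop P) s k s
      { k with qi := fun δ => if s.mv δ then [] else k.qi δ,
               qo := fun δ => if s.mv δ then (k.qi δ).reverse ++ k.qo δ else k.qo δ } 1 := by
    intro k h
    refine (Run.loop_false ?_).congr rfl ?_ le_rfl
    · apply decide_eq_false
      rintro ⟨δ, hδ, h'⟩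
      simp [tops, Sk.fn, h δ hδ] at h'
    · have e1 : (fun δ => if s.mv δ then [] else k.qi δ) = k.qi := by
        funext δ
        by_cases hδ : s.mv δ = true <;> simp [hδ, h]
      have e2 : (fun δ => if s.mv δ then (k.qi δ).reverse ++ k.qo δ else k.qo δ) = k.qo := by
        funext δ
        by_cases hδ : s.mv δ = true <;> simp [hδ, h]
      rw [e1, e2]
  intro n
  induction n with
  | zero =>
    intro k h
    exact stop k fun δ hδ => List.length_eq_zero_iff.1 (Nat.le_zero.1 (h δ hδ))
  | succ n ih =>
    intro k h
    by_cases hc : ∀ δ, s.mv δ = true → k.qi δ = []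
    · exact (stop k hc).mono (by omega)
    · push Not at hc
      obtain ⟨δ0, h1, h2⟩ := hc
      have a : Run (.act fun s tp => ⟨s, fun k => match k with
          | .qi δ => if s.mv δ then 1 else 0
          | _ => 0,
        fun k => match k with
          | .qo δ => if s.mv δ then (tp (.qi δ)).toList else []
          | _ => []⟩) s k s
          { k with qi := fun δ => if s.mv δ then (k.qi δ).tail else k.qi δ,
                   qo := fun δ => if s.mv δ then (k.qi δ).head?.toList ++ k.qo δ else k.qo δ } 1 := by
        refine Run.act rfl fun j => ?_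
        cases j with
        | qi δ => by_cases hδ : s.mv δ = true <;> simp [Sk.fn, Out.app, hδ]
        | qo δ => by_cases hδ : s.mv δ = true <;> simp [Sk.fn, Out.app, tops, hδ]
        | _ => simp [Sk.fn, Out.app]
      refine (Run.loop_true ?_ a (ih _ ?_)).congr rfl ?_ (by omega)
      · apply decide_eq_true
        exact ⟨δ0, h1, by simpa [tops, Sk.fn] using h2⟩
      · intro δ hδ
        have := h δ hδ
        simp [hδ]
        omega
      · congr 1
        · funext δ
          by_cases hδ : s.mv δ = true <;> simp [hδ]
        · funext δ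
          by_cases hδ : s.mv δ = true
          · simp only [hδ, if_true]
            cases k.qi δ <;> simp
          · simp [hδ]

/-- Refill the empty output halves. -/
noncomputable def pRefill (P : Par) : Pg P :=
  .seq (.act fun s tp => Out.skip { s with mv := fun δ => (tp (.qo δ)).isNone }) (rLoop P)

/-- The total length of the input halves. -/
noncomputable def pot (P : Par) (Q : P.Δ → List (List ℤ)) : ℕ := ∑ δ, (encQ P (Q δ)).length

theorem encQ_head_isNone (q : List (List ℤ)) : (encQ P q).head?.isNone = decide (q = []) := by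
  cases q with
  | nil => simp [encQ]
  | cons e q => cases e <;> simp [encQ, encE]

theorem run_pRefill (Qo Qi : P.Δ → List (List ℤ)) (s : St P) (k : Sk P)
    (h1 : k.qo = fun δ => encQ P (Qo δ)) (h2 : k.qi = fun δ => (encQ P (Qi δ)).reverse) :
    ∃ (s' : St P) (Qo' Qi' : P.Δ → List (List ℤ)) (n : ℕ),
      Run (pRefill P) s k s'
        { k with qo := fun δ => encQ P (Qo' δ), qi := fun δ => (encQ P (Qi' δ)).reverse }
        (2 * n + 2) ∧ (∀ δ, Qo' δ ++ Qi' δ = Qo δ ++ Qi δ) ∧
      (∀ δ, Qo δ ++ Qi δ ≠ [] → Qo' δ ≠ []) ∧ n + pot P Qi' = pot P Qi := by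
  classical
  have a := run_rLoop { s with mv := fun δ => (tops k.fn (.qo δ)).isNone }
    (∑ δ, if Qo δ = [] then (encQ P (Qi δ)).length else 0) k (by
      intro δ hδ
      simp only [tops, Sk.fn, h1, encQ_head_isNone, decide_eq_true_eq] at hδ
      refine le_trans ?_ (Finset.single_le_sum
        (f := fun δ => if Qo δ = [] then (encQ P (Qi δ)).length else 0)
        (fun _ _ => Nat.zero_le _) (Finset.mem_univ δ))
      simp [hδ, h2])
  refine ⟨_, fun δ => if Qo δ = [] then Qi δ else Qo δ, fun δ => if Qo δ = [] then [] else Qi δ,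
    ∑ δ, if Qo δ = [] then (encQ P (Qi δ)).length else 0,
    ((Run.act rfl fun _ => rfl).seq a).congr rfl ?_ (by omega), ?_, ?_, ?_⟩
  · congr 1
    · funext δ
      simp only [tops, Sk.fn, h1, h2, encQ_head_isNone]
      by_cases hδ : Qo δ = [] <;> simp [hδ, encQ]
    · funext δ
      simp only [tops, Sk.fn, h1, h2, encQ_head_isNone]
      by_cases hδ : Qo δ = [] <;> simp [hδ, encQ]
  · intro δ
    by_cases hδ : Qo δ = [] <;> simp [hδ]
  · intro δ
    by_cases hδ : Qo δ = [] <;> simp [hδ]
  · simp only [pot, ← Finset.sum_add_distrib]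
    refine Finset.sum_congr rfl fun δ _ => ?_
    by_cases hδ : Qo δ = [] <;> simp [hδ, encQ]

/-! ### The digit loop -/

/-- The sum of the current input digits. -/
noncomputable def xs (tp : Kk P → Option (Gm P)) : ℤ := ∑ j, val (tp (inK P j))

/-- The action of the digit loop. -/
noncomputable def eAct (s : St P) (tp : Kk P → Option (Gm P)) : Out (St P) (Kk P) (Gm P) :=
  ⟨{ s with car := fun j => clamp P (((s.car j).1 + Mc P s.κ j * xs tp) / P.b),
            ok := s.ok && decide (((s.car none).1 + Mc P s.κ none * xs tp) % P.b = 0) },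
    fun k => match k with
      | .R => if (tp .R).any isDig then 1 else 0
      | .qo δ => if (tp (.qo δ)).any isDig then 1 else 0
      | _ => 0,
    fun k => match k with
      | .qi δ => [dg P (((s.car (some δ)).1 + Mc P s.κ (some δ) * xs tp) % P.b)]
      | _ => []⟩

open Classical in
/-- The digit loop. -/
noncomputable def eLoop (P : Par) : Pg P :=
  .loop (fun s tp => decide ((∃ j, (tp (inK P j)).any isDig = true) ∨
    ∃ j, (s.car j).1 ≠ 0 ∧ (s.car j).1 ≠ -1)) (.act eAct)

theorem val_head (l : List ℤ) (hl : ∀ x ∈ l, -1 ≤ x ∧ x ≤ P.b - 1) (rest : List (Gm P))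
    (hr : rest.head?.any isDig = false) : val (l.map (dg P) ++ rest).head? = l.headD 0 := by
  cases l with
  | nil => simpa using val_of_not_dig hr
  | cons x l => simpa using val_dg (hl x (by simp)).1 (hl x (by simp)).2

theorem any_head (l : List ℤ) (rest : List (Gm P)) (hr : rest.head?.any isDig = false) :
    (l.map (dg P) ++ rest).head?.any isDig = decide (l ≠ []) := by
  cases l with
  | nil => simpa using hr
  | cons x l => simp

theorem drop_head (l : List ℤ) (rest : List (Gm P)) :
    (l.map (dg P) ++ rest).drop (if decide (l ≠ []) = true then 1 else 0) =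
      l.tail.map (dg P) ++ rest := by
  cases l <;> simp

/-- The bound on the carries. -/
def HC (P : Par) : Prop := ∀ κ j, |Mc P κ j| * ((Fintype.card P.Δ + 1) * P.b) + 2 ≤ P.C

theorem run_eLoop (hC : HC P) (rest : Option P.Δ → List (Gm P))
    (hrest : ∀ j, (rest j).head?.any isDig = false) :
    ∀ (L : ℕ) (I : Option P.Δ → List ℤ) (s : St P) (k : Sk P),
      (∀ j, ∀ x ∈ I j, -1 ≤ x ∧ x ≤ P.b - 1) → (∀ j, (I j).length ≤ L) →
      (∀ j, k.fn (inK P j) = (I j).map (dg P) ++ rest j) →
      (∀ j, -(P.b : ℤ) ^ L ≤ (s.car j).1 + Mc P s.κ j * ∑ i, ev P.b (I i) ∧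
        (s.car j).1 + Mc P s.κ j * ∑ i, ev P.b (I i) < (P.b : ℤ) ^ L) →
      ∃ (s' : St P) (out : Option P.Δ → List ℤ),
        Run (eLoop P) s k s'
          { k with R := rest none, qo := fun δ => rest (some δ),
                   qi := fun δ => ((out (some δ)).map (dg P)).reverse ++ k.qi δ } (2 * L + 1) ∧
        (∀ j, (out j).length ≤ L) ∧ (∀ j, ∀ x ∈ out j, 0 ≤ x ∧ x ≤ P.b - 1) ∧
        (∀ j, (s'.car j).1 = 0 ∨ (s'.car j).1 = -1) ∧
        (∀ j, ev P.b (out j ++ [(s'.car j).1]) = (s.car j).1 + Mc P s.κ j * ∑ i, ev P.b (I i)) ∧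
        ((s'.ok = true ∧ (s'.car none).1 = 0) ↔
          (s.ok = true ∧ (s.car none).1 + Mc P s.κ none * ∑ i, ev P.b (I i) = 0)) := by
  have hb : (2 : ℤ) ≤ P.b := by exact_mod_cast P.hb
  have stop : ∀ (L : ℕ) (I : Option P.Δ → List ℤ) (s : St P) (k : Sk P), (∀ j, I j = []) →
      (∀ j, k.fn (inK P j) = (I j).map (dg P) ++ rest j) →
      (∀ j, (s.car j).1 = 0 ∨ (s.car j).1 = -1) →
      ∃ (s' : St P) (out : Option P.Δ → List ℤ),
        Run (eLoop P) s k s'
          { k with R := rest none, qo := fun δ => rest (some δ),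
                   qi := fun δ => ((out (some δ)).map (dg P)).reverse ++ k.qi δ } (2 * L + 1) ∧
        (∀ j, (out j).length ≤ L) ∧ (∀ j, ∀ x ∈ out j, 0 ≤ x ∧ x ≤ P.b - 1) ∧
        (∀ j, (s'.car j).1 = 0 ∨ (s'.car j).1 = -1) ∧
        (∀ j, ev P.b (out j ++ [(s'.car j).1]) = (s.car j).1 + Mc P s.κ j * ∑ i, ev P.b (I i)) ∧
        ((s'.ok = true ∧ (s'.car none).1 = 0) ↔
          (s.ok = true ∧ (s.car none).1 + Mc P s.κ none * ∑ i, ev P.b (I i) = 0)) := by
    intro L I s k hI hk hcar
    refine ⟨s, fun _ => [], (Run.loop_false ?_).congr rfl ?_ (by omega), by simp, by simp, hcar,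
      by simp [hI], by simp [hI]⟩
    · simp only [tops, hk, hI, List.map_nil, List.nil_append, hrest, decide_eq_false_iff_not]
      rintro (⟨j, hj⟩ | ⟨j, hj⟩)
      · simp at hj
      · have := hcar j
        tauto
    · have e1 : k.R = rest none := by simpa [hI, inK, Sk.fn] using hk none
      have e2 : k.qo = fun δ => rest (some δ) := funext fun δ => by simpa [hI, inK, Sk.fn] using hk (some δ)
      cases k; simp_all
  intro L
  induction L with
  | zero =>
    intro I s k _ hlen hk hY
    have hI : ∀ j, I j = [] := fun j => List.length_eq_zero_iff.1 (Nat.le_zero.1 (hlen j))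
    refine stop 0 I s k hI hk fun j => ?_
    have := hY j
    simp [hI] at this
    omega
  | succ L ih =>
    intro I s k hdig hlen hk hY
    by_cases hc : (∀ j, I j = []) ∧ ∀ j, (s.car j).1 = 0 ∨ (s.car j).1 = -1
    · exact stop _ I s k hc.1 hk hc.2
    have hx : xs (tops k.fn) = ∑ j, (I j).headD 0 := by
      simp only [xs, tops, hk]
      exact Finset.sum_congr rfl fun j _ => val_head _ (hdig j) _ (hrest j)
    have hsum : ∑ i, ev P.b (I i) = ∑ j, (I j).headD 0 + P.b * ∑ i, ev P.b (I i).tail := by
      rw [Finset.mul_sum, ← Finset.sum_add_distrib]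
      exact Finset.sum_congr rfl fun j _ => ev_eq_head_tail _ _
    have hxb : |∑ j, (I j).headD 0| ≤ (Fintype.card P.Δ + 1) * P.b := by
      refine (Finset.abs_sum_le_sum_abs _ _).trans ?_
      have : ∀ j ∈ (Finset.univ : Finset (Option P.Δ)), |(I j).headD 0| ≤ P.b := by
        intro j _
        cases hj : I j with
        | nil => simp
        | cons x l =>
          have := hdig j x (by simp [hj])
          simp only [List.headD_cons, abs_le]
          omega
      refine (Finset.sum_le_card_nsmul _ _ _ this).trans ?_
      simp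
    set x := ∑ j, (I j).headD 0 with hxdef
    have hcl : ∀ j, (clamp P (((s.car j).1 + Mc P s.κ j * x) / P.b)).1 =
        ((s.car j).1 + Mc P s.κ j * x) / P.b := by
      intro j
      have h1 := (s.car j).2
      have h2 := hC s.κ j
      have h3 : |Mc P s.κ j * x| ≤ |Mc P s.κ j| * ((Fintype.card P.Δ + 1) * P.b) := by
        rw [abs_mul]
        exact mul_le_mul_of_nonneg_left hxb (abs_nonneg _)
      have h4 := abs_le.1 h3
      set u := (s.car j).1 + Mc P s.κ j * x
      have h5 := Int.emod_nonneg u (by omega : (P.b : ℤ) ≠ 0)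
      have h6 := Int.emod_lt_of_pos u (by omega : (0 : ℤ) < P.b)
      have h7 := Int.mul_ediv_add_emod u P.b
      have h8 : -2 * (P.C : ℤ) + 2 ≤ u ∧ u ≤ 2 * P.C - 2 := by
        constructor <;> linarith [h1.1, h1.2, h4.1, h4.2]
      have hC0 : (0 : ℤ) ≤ P.C := Nat.cast_nonneg _
      apply clamp_val
      · by_contra hlt
        push Not at hlt
        nlinarith
      · by_contra hlt
        push Not at hlt
        nlinarith
    have a : Run (.act eAct) s k
        { s with car := fun j => clamp P (((s.car j).1 + Mc P s.κ j * x) / P.b),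
                 ok := s.ok && decide (((s.car none).1 + Mc P s.κ none * x) % P.b = 0) }
        { k with R := (I none).tail.map (dg P) ++ rest none,
                 qo := fun δ => (I (some δ)).tail.map (dg P) ++ rest (some δ),
                 qi := fun δ => dg P (((s.car (some δ)).1 + Mc P s.κ (some δ) * x) % P.b) ::
                   k.qi δ } 1 := by
      refine Run.act (by simp only [eAct, hx]) fun j => ?_
      cases j with
      | R =>
        have e : k.R = (I none).map (dg P) ++ rest none := hk none
        simp only [eAct, Out.app, tops, Sk.fn, e, any_head _ _ (hrest none), drop_head,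
          List.nil_append]
      | qo δ =>
        have e : k.qo δ = (I (some δ)).map (dg P) ++ rest (some δ) := hk (some δ)
        simp only [eAct, Out.app, tops, Sk.fn, e, any_head _ _ (hrest (some δ)), drop_head,
          List.nil_append]
      | qi δ => simp only [eAct, Out.app, hx, Sk.fn]; simp
      | _ => simp [eAct, Out.app, Sk.fn]
    have hdec : ∀ j, (s.car j).1 + Mc P s.κ j * ∑ i, ev P.b (I i) =
        ((s.car j).1 + Mc P s.κ j * x) % P.b + P.b * (((s.car j).1 + Mc P s.κ j * x) / P.b +
          Mc P s.κ j * ∑ i, ev P.b (I i).tail) := by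
      intro j
      have h7 := Int.mul_ediv_add_emod ((s.car j).1 + Mc P s.κ j * x) P.b
      rw [hsum]
      linear_combination -h7
    have hm : ∀ j, 0 ≤ ((s.car j).1 + Mc P s.κ j * x) % P.b ∧
        ((s.car j).1 + Mc P s.κ j * x) % P.b < P.b := fun j =>
      ⟨Int.emod_nonneg _ (by omega), Int.emod_lt_of_pos _ (by omega)⟩
    obtain ⟨s', out, r1, r2, r3, r4, r5, r6⟩ := ih (fun j => (I j).tail)
      { s with car := fun j => clamp P (((s.car j).1 + Mc P s.κ j * x) / P.b),
               ok := s.ok && decide (((s.car none).1 + Mc P s.κ none * x) % P.b = 0) }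
      { k with R := (I none).tail.map (dg P) ++ rest none,
               qo := fun δ => (I (some δ)).tail.map (dg P) ++ rest (some δ),
               qi := fun δ => dg P (((s.car (some δ)).1 + Mc P s.κ (some δ) * x) % P.b) ::
                 k.qi δ }
      (fun j y hy => hdig j y (List.mem_of_mem_tail hy))
      (fun j => by have := hlen j; simp; omega)
      (fun j => by cases j <;> rfl)
      (fun j => by
        simp only [hcl]
        have h1 := hY j
        rw [hdec j, pow_succ] at h1
        have h2 := hm j
        have hp : (0 : ℤ) < (P.b : ℤ) ^ L := by positivity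
        constructor
        · by_contra hlt
          push Not at hlt
          nlinarith
        · by_contra hlt
          push Not at hlt
          nlinarith)
    refine ⟨s', fun j => ((s.car j).1 + Mc P s.κ j * x) % P.b :: out j,
      (Run.loop_true ?_ a r1).congr rfl ?_ (by omega), ?_, ?_, r4, ?_, ?_⟩
    · simp only [tops, hk, any_head _ _ (hrest _), decide_eq_true_eq]
      by_contra hcon
      push Not at hcon
      refine hc ⟨hcon.1, fun j => ?_⟩
      have := hcon.2 j
      tauto
    · simp
    · intro j
      have := r2 j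
      simp; omega
    · intro j y hy
      rcases List.mem_cons.1 hy with rfl | hy
      · have := hm j
        omega
      · exact r3 j y hy
    · intro j
      have := r5 j
      simp only [hcl] at this
      rw [List.cons_append, ev_cons, this, hdec j]
    · rw [r6]
      simp only [hcl, Bool.and_eq_true, decide_eq_true_eq]
      rw [hdec none, and_assoc]
      refine and_congr_right fun _ => ?_
      have h2 := hm none
      constructor
      · rintro ⟨h3, h4⟩
        rw [h3, h4]; simp
      · intro h3
        have h5 : ((s.car none).1 + Mc P s.κ none * x) / P.b +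
            Mc P s.κ none * ∑ i, ev P.b (I i).tail = 0 := by
          by_contra hne
          rcases lt_or_gt_of_ne hne with hlt | hlt <;> nlinarith
        rw [h5] at h3
        exact ⟨by simpa using h3, h5⟩

end Pool.Agent.Lib.MP_2ec175_al
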