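import Pool.Agent.Lib.MP_2ec175_al.Mach4

/-!
The machine for the word problem of metabelian groups, part 5: the reduction loop and the whole
program.
-/

set_option autoImplicit false
set_option linter.unusedSectionVars false

namespace Pool.Agent.Lib.MP_2ec175_al

open Function Pool.Agent.Shared.StackProg

variable {P : Par}

/-- The current coefficient of the reduction. -/
def curV (c : Cell P) (q : P.Δ → List ℤ) : ℤ := c.2 + ∑ δ, (q δ).headD 0

/-- The delay lines after one cell. -/
def nextQ (c : Cell P) (q : P.Δ → List ℤ) : P.Δ → List ℤ :=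
  fun δ => (q δ).tail ++ [-(curV c q / P.d c.1) * P.g c.1 δ]

/-- The reduction succeeds. -/
def red (P : Par) : List (Cell P) → (P.Δ → List ℤ) → Prop
  | [], _ => True
  | c :: l, q => P.d c.1 ∣ curV c q ∧ red P l (nextQ c q)

/-- The coefficients met by the reduction are bounded. -/
def redBd (P : Par) (Bd : ℤ) : List (Cell P) → (P.Δ → List ℤ) → Prop
  | [], _ => True
  | c :: l, q => |curV c q| ≤ Bd ∧ (P.d c.1 ∣ curV c q → redBd P Bd l (nextQ c q))

/-- Valid entries of the delay lines. -/
def VE (P : Par) (L : ℕ) (e : List ℤ) : Prop :=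
  e ≠ [] ∧ e.length ≤ L + 1 ∧ ∀ x ∈ e, -1 ≤ x ∧ x ≤ P.b - 1

/-- The values held in the delay lines. -/
def qval (P : Par) (Q : P.Δ → List (List ℤ)) : P.Δ → List ℤ :=
  fun δ => (Q δ).map fun e => ev P.b e.tail

/-- Read the class and drop the first digit of every entry. -/
noncomputable def cAct (s : St P) (tp : Kk P → Option (Gm P)) : Out (St P) (Kk P) (Gm P) :=
  ⟨{ s with κ := clsOf s.κ (tp .R), car := fun _ => clamp P 0 },
    fun k => match k with
      | .R => 1
      | .qo _ => 1
      | _ => 0, fun _ => []⟩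

/-- The divisibility test. -/
noncomputable def dAct (s : St P) (tp : Kk P → Option (Gm P)) : Out (St P) (Kk P) (Gm P) :=
  Out.skip { s with ok := decide ((if P.d s.κ = 0 then 1 else P.d s.κ) ∣ xs tp) }

/-- Close the new entries. -/
noncomputable def fAct (s : St P) (_ : Kk P → Option (Gm P)) : Out (St P) (Kk P) (Gm P) :=
  ⟨{ s with ok := s.ok && decide ((s.car none).1 = 0) },
    fun k => match k with
      | .qo _ => 1
      | _ => 0,
    fun k => match k with
      | .qi δ => [.fin, dg P (s.car (some δ)).1]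
      | _ => []⟩

/-- The treatment of one cell. -/
noncomputable def pCell (P : Par) : Pg P :=
  .seq (pRefill P) (.seq (.act cAct) (.seq (.act dAct) (.seq (eLoop P) (.act fAct))))

/-- The divisors divide the base. -/
def HD (P : Par) : Prop := ∀ κ, P.d κ ≠ 0 → P.d κ ∣ P.b

theorem ev_tail_of_dvd {b : ℤ} (hb : 2 ≤ b) (e : List ℤ) (he : ∀ x ∈ e, -1 ≤ x ∧ x ≤ b - 1)
    (y : ℤ) (h : ev b e = b * y) : ev b e.tail = y := by
  have h1 := ev_eq_head_tail b e
  have h2 : -1 ≤ e.headD 0 ∧ e.headD 0 ≤ b - 1 := by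
    cases e with
    | nil => simp; omega
    | cons x l => simpa using he x (by simp)
  by_contra hne
  rcases lt_or_gt_of_ne hne with hlt | hlt <;> nlinarith

theorem run_pCell (hC : HC P) (hD : HD P) (L : ℕ) (Bd : ℤ) (hL : ∀ κ j, |Mc P κ j| * Bd < P.b ^ L)
    (c : Cell P) (hc : c.2 < P.b ^ L) (l : List (Cell P)) (Qo Qi : P.Δ → List (List ℤ))
    (hne : ∀ δ, Qo δ ++ Qi δ ≠ []) (hV : ∀ δ, ∀ e ∈ Qo δ ++ Qi δ, VE P L e)
    (hB : |curV c (qval P fun δ => Qo δ ++ Qi δ)| ≤ Bd) (s : St P) (k : Sk P)
    (h0 : k.R = encR (c :: l)) (h1 : k.qo = fun δ => encQ P (Qo δ))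
    (h2 : k.qi = fun δ => (encQ P (Qi δ)).reverse) :
    ∃ (s' : St P) (Qo' Qi' : P.Δ → List (List ℤ)) (t : ℕ),
      Run (pCell P) s k s'
        { k with R := encR l, qo := fun δ => encQ P (Qo' δ),
                 qi := fun δ => (encQ P (Qi' δ)).reverse } t ∧
      t + 2 * pot P Qi' ≤ 2 * pot P Qi + (2 * L + 6 + 2 * (Fintype.card P.Δ * (L + 2))) ∧
      (∀ δ, Qo' δ ++ Qi' δ ≠ []) ∧ (∀ δ, ∀ e ∈ Qo' δ ++ Qi' δ, VE P L e) ∧
      (s'.ok = true ↔ P.d c.1 ∣ curV c (qval P fun δ => Qo δ ++ Qi δ)) ∧
      (s'.ok = true → (qval P fun δ => Qo' δ ++ Qi' δ) =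
        nextQ c (qval P fun δ => Qo δ ++ Qi δ)) := by
  have hb : (2 : ℤ) ≤ P.b := by exact_mod_cast P.hb
  obtain ⟨s1, Qo1, Qi1, n, a, e1, e2, e3⟩ := run_pRefill Qo Qi s k h1 h2
  have hex : ∀ δ, ∃ e r, Qo1 δ = e :: r := fun δ => List.exists_cons_of_ne_nil (e2 δ (hne δ))
  choose e r her using hex
  have hVe : ∀ δ, VE P L (e δ) := fun δ => hV δ _ (by rw [← e1, her]; simp)
  have hex2 : ∀ δ, ∃ x t, e δ = x :: t := fun δ => List.exists_cons_of_ne_nil (hVe δ).1
  choose x t hxt using hex2
  let I : Option P.Δ → List ℤ := fun j => match j with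
    | none => (Nat.digits P.b c.2).map fun d : ℕ => (d : ℤ)
    | some δ => t δ
  let rest : Option P.Δ → List (Gm P) := fun j => match j with
    | none => encR l
    | some δ => .fin :: encQ P (r δ)
  have hrest : ∀ j, (rest j).head?.any isDig = false := by
    rintro (_ | δ)
    · exact encR_head l
    · simp [rest]
  have hI : ∀ j, ∀ y ∈ I j, -1 ≤ y ∧ y ≤ P.b - 1 := by
    rintro (_ | δ) y hy
    · obtain ⟨d, hd, rfl⟩ := List.mem_map.1 hy
      have := Nat.digits_lt_base (by have := P.hb; omega) hd
      omega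
    · exact (hVe δ).2.2 y (by rw [hxt]; exact List.mem_cons_of_mem _ hy)
  have hIl : ∀ j, (I j).length ≤ L := by
    rintro (_ | δ)
    · have := digs_length hc
      simpa [digs, I] using this
    · have := (hVe δ).2.1
      rw [hxt] at this
      simpa [I] using this
  have hcur : ∑ j, ev P.b (I j) = curV c (qval P fun δ => Qo δ ++ Qi δ) := by
    rw [Fintype.sum_option]
    simp only [I, ev_digits, curV, qval, ← e1, her, hxt]
    simp
  set v := curV c (qval P fun δ => Qo δ ++ Qi δ) with hv
  have b : Run (.act cAct) s1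
      { k with qo := fun δ => encQ P (Qo1 δ), qi := fun δ => (encQ P (Qi1 δ)).reverse }
      { s1 with κ := c.1, car := fun _ => clamp P 0 }
      { k with R := (I none).map (dg P) ++ rest none,
               qo := fun δ => (I (some δ)).map (dg P) ++ rest (some δ),
               qi := fun δ => (encQ P (Qi1 δ)).reverse } 1 := by
    refine Run.act (by simp [cAct, tops, Sk.fn, h0, encR, encC, clsOf]) fun j => ?_
    cases j with
    | R => simp [cAct, Out.app, Sk.fn, h0, encR, encC, I, rest, digs, Function.comp_def]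
    | qo δ => simp [cAct, Out.app, Sk.fn, I, rest, her, hxt, encQ, encE]
    | _ => simp [cAct, Out.app, Sk.fn]
  have hk : ∀ j, Sk.fn
      { k with R := (I none).map (dg P) ++ rest none,
               qo := fun δ => (I (some δ)).map (dg P) ++ rest (some δ),
               qi := fun δ => (encQ P (Qi1 δ)).reverse } (inK P j) =
      (I j).map (dg P) ++ rest j := by
    intro j; cases j <;> rfl
  have hx : xs (tops (Sk.fn
      { k with R := (I none).map (dg P) ++ rest none,
               qo := fun δ => (I (some δ)).map (dg P) ++ rest (some δ),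
               qi := fun δ => (encQ P (Qi1 δ)).reverse })) = ∑ j, (I j).headD 0 := by
    simp only [xs, tops, hk]
    exact Finset.sum_congr rfl fun j _ => val_head _ (hI j) _ (hrest j)
  have hsum : v = ∑ j, (I j).headD 0 + P.b * ∑ i, ev P.b (I i).tail := by
    rw [← hcur, Finset.mul_sum, ← Finset.sum_add_distrib]
    exact Finset.sum_congr rfl fun j _ => ev_eq_head_tail _ _
  have h00 : (clamp P 0).1 = 0 := clamp_val (by omega) (by omega)
  obtain ⟨s3, out, d1, d2, d3, d4, d5, d6⟩ := run_eLoop hC rest hrest L I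
    { s1 with κ := c.1, car := fun _ => clamp P 0,
              ok := decide ((if P.d c.1 = 0 then 1 else P.d c.1) ∣ ∑ j, (I j).headD 0) } _
    hI hIl hk (fun j => by
      simp only [h00, hcur, zero_add]
      have h3 : |Mc P c.1 j * v| ≤ |Mc P c.1 j| * Bd := by
        rw [abs_mul]
        exact mul_le_mul_of_nonneg_left hB (abs_nonneg _)
      have h4 := abs_lt.1 (h3.trans_lt (hL c.1 j))
      exact ⟨h4.1.le, h4.2⟩)
  simp only [h00, hcur, zero_add] at d5 d6
  have f : Run (.act fAct) s3
      { k with R := rest none, qo := fun δ => rest (some δ),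
               qi := fun δ => ((out (some δ)).map (dg P)).reverse ++ (encQ P (Qi1 δ)).reverse }
      { s3 with ok := s3.ok && decide ((s3.car none).1 = 0) }
      { k with R := encR l, qo := fun δ => encQ P (r δ),
               qi := fun δ =>
                 (encQ P (Qi1 δ ++ [out (some δ) ++ [(s3.car (some δ)).1]])).reverse } 1 := by
    refine Run.act rfl fun j => ?_
    cases j <;> simp [fAct, Out.app, Sk.fn, rest, encQ, encE]
  have hok : (s3.ok && decide ((s3.car none).1 = 0)) = true ↔ P.d c.1 ∣ v := by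
    simp only [Bool.and_eq_true, decide_eq_true_eq]
    rw [d6]
    simp only [decide_eq_true_eq, Mc]
    by_cases hd : P.d c.1 = 0
    · simp [hd]
    · simp only [hd, if_false, zero_mul, and_true]
      rw [hsum]
      exact (dvd_add_left ((hD _ hd).mul_right _)).symm
  have hnew : ∀ δ, ∀ y ∈ out (some δ) ++ [(s3.car (some δ)).1], -1 ≤ y ∧ y ≤ P.b - 1 := by
    intro δ y hy
    rcases List.mem_append.1 hy with hy | hy
    · have := d3 _ y hy
      omega
    · have := d4 (some δ)
      simp only [List.mem_singleton] at hy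
      omega
  refine ⟨_, r, fun δ => Qi1 δ ++ [out (some δ) ++ [(s3.car (some δ)).1]], _,
    a.seq (b.seq ((Run.act (by simp only [dAct, hx]; rfl) fun _ => rfl).seq (d1.seq f))),
    ?_, by simp, ?_, hok, ?_⟩
  · have : pot P (fun δ => Qi1 δ ++ [out (some δ) ++ [(s3.car (some δ)).1]]) ≤
        pot P Qi1 + Fintype.card P.Δ * (L + 2) := by
      have : Fintype.card P.Δ * (L + 2) = ∑ _δ : P.Δ, (L + 2) := by simp
      rw [this, pot, pot, ← Finset.sum_add_distrib]
      refine Finset.sum_le_sum fun δ _ => ?_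
      have := d2 (some δ)
      simp [encQ, encE]
      omega
    omega
  · intro δ y hy
    rw [← List.append_assoc] at hy
    rcases List.mem_append.1 hy with hy | hy
    · exact hV δ y (by rw [← e1, her]; exact List.mem_cons_of_mem _ hy)
    · simp only [List.mem_singleton] at hy
      subst hy
      refine ⟨by simp, ?_, hnew δ⟩
      have := d2 (some δ)
      simp
      omega
  · intro h
    have hdv := hok.1 h
    funext δ
    simp only [nextQ, ← hv]
    simp only [qval, ← e1, her, ← List.append_assoc, List.map_append, List.cons_append,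
      List.map_cons, List.tail_cons, List.map_nil]
    congr 2
    refine ev_tail_of_dvd hb _ (hnew δ) _ ?_
    rw [d5]
    simp only [Mc]
    by_cases hd : P.d c.1 = 0
    · simp [hd]
    · obtain ⟨y, hy⟩ := hD _ hd
      obtain ⟨z, hz⟩ := hdv
      rw [hy, hz, Int.mul_ediv_cancel_left _ hd, Int.mul_ediv_cancel_left _ hd]
      ring

/-- The reduction loop. -/
noncomputable def pRed (P : Par) : Pg P := .loop (fun s tp => s.ok && (tp .R).isSome) (pCell P)

theorem run_pRed (hC : HC P) (hD : HD P) (L : ℕ) (Bd : ℤ) (hL : ∀ κ j, |Mc P κ j| * Bd < P.b ^ L) :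
    ∀ (l : List (Cell P)) (Qo Qi : P.Δ → List (List ℤ)) (s : St P) (k : Sk P),
      (∀ c ∈ l, c.2 < P.b ^ L) → (∀ δ, Qo δ ++ Qi δ ≠ []) → (∀ δ, ∀ e ∈ Qo δ ++ Qi δ, VE P L e) →
      (s.ok = true → redBd P Bd l (qval P fun δ => Qo δ ++ Qi δ)) → k.R = encR l →
      (k.qo = fun δ => encQ P (Qo δ)) → (k.qi = fun δ => (encQ P (Qi δ)).reverse) →
      ∃ s' k', Run (pRed P) s k s' k'
          (2 * pot P Qi + l.length * (2 * L + 7 + 2 * (Fintype.card P.Δ * (L + 2))) + 1) ∧
        (s'.ok = true ↔ s.ok = true ∧ red P l (qval P fun δ => Qo δ ++ Qi δ)) := by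
  intro l
  induction l with
  | nil =>
    intro Qo Qi s k _ _ _ _ h0 _ _
    exact ⟨s, k, (Run.loop_false (by simp [tops, Sk.fn, h0, encR])).mono (by omega), by simp [red]⟩
  | cons c l ih =>
    intro Qo Qi s k hc hne hV hB h0 h1 h2
    by_cases hs : s.ok = true
    · obtain ⟨s1, Qo1, Qi1, t, a1, a2, a3, a4, a5, a6⟩ := run_pCell hC hD L Bd hL c
        (hc c (by simp)) l Qo Qi hne hV (hB hs).1 s k h0 h1 h2
      obtain ⟨s2, k2, b1, b2⟩ := ih Qo1 Qi1 s1
        { k with R := encR l, qo := fun δ => encQ P (Qo1 δ),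
                 qi := fun δ => (encQ P (Qi1 δ)).reverse } (fun x hx => hc x (List.mem_cons_of_mem _ hx))
        a3 a4 (fun h => by rw [a6 h]; exact (hB hs).2 (a5.1 h)) rfl rfl rfl
      refine ⟨s2, k2, (Run.loop_true (by simp [tops, Sk.fn, h0, encR, encC, hs]) a1 b1).mono ?_, ?_⟩
      · rw [List.length_cons, Nat.succ_mul l.length]
        omega
      · rw [b2]
        simp only [red, hs, true_and]
        constructor
        · rintro ⟨h3, h4⟩
          exact ⟨a5.1 h3, a6 h3 ▸ h4⟩
        · rintro ⟨h3, h4⟩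
          exact ⟨a5.2 h3, (a6 (a5.2 h3)).symm ▸ h4⟩
    · exact ⟨s, k, (Run.loop_false (by simp [hs])).mono (by omega), by simp [hs]⟩

/-- The part of the program run on words that pass the filter. -/
noncomputable def pHeavy (P : Par) : Pg P :=
  .seq (pInit P) (.seq (pRounds P P.r) (.seq (pUp P) (.seq (.loop (ne .o3) (bBody P))
    (.seq (moveAll .L .R) (.seq (pQueues P)
      (.seq (.act fun s _ => Out.skip { s with ok := true }) (pRed P)))))))

/-- The side of the box. -/
def side (P : Par) (ρ : ℕ) : ℕ := P.B + ρ * P.c1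

/-- All operations performed on the array. -/
def allOps (P : Par) (ρ : ℕ) (ops : List (Op P.r)) : List (Op P.r) :=
  (List.replicate ρ (allUp P.r P.p)).flatten ++ ops

/-- The array after all operations. -/
def finalTape (P : Par) (ρ : ℕ) (ops : List (Op P.r)) : Tape P :=
  (allOps P ρ ops).foldl (fun T o => tOp (genTok P.r (side P ρ) P.r) o T)
    (tUp ((genLab P (side P ρ) P.r).map fun κ => (κ, 0), []))

/-- The cells in decreasing order. -/
def finalCells (P : Par) (ρ : ℕ) (ops : List (Op P.r)) : List (Cell P) :=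
  (finalTape P ρ ops).1.reverse ++ (finalTape P ρ ops).2

/-- The lengths of the delay lines. -/
def delay (P : Par) (ρ : ℕ) (δ : P.Δ) : ℕ := ((genTok P.r (side P ρ) P.r).map (P.off δ)).sum.toNat

theorem encL_zero (lab : List (Fin P.r → P.Cl)) :
    encL (lab.map fun κ => ((κ, 0) : Cell P)) = lab.map .mk := by
  induction lab with
  | nil => rfl
  | cons κ lab ih =>
    simp only [encL] at *
    rw [List.map_cons, List.flatMap_cons, ih]
    simp [encC, digs]

theorem encL_length {ℓ X : ℕ} (hX : X < P.b ^ ℓ) (l : List (Cell P)) (h : ∀ c ∈ l, c.2 ≤ X) :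
    (encL l).length ≤ l.length * (ℓ + 1) := by
  induction l with
  | nil => simp [encL]
  | cons c l ih =>
    have h1 := ih fun x hx => h x (List.mem_cons_of_mem _ hx)
    have h2 := digs_length ((h c (by simp)).trans_lt hX)
    simp only [encL, encC] at *
    simp only [List.flatMap_cons, List.length_append, List.length_reverse, List.length_cons]
    rw [Nat.succ_mul l.length]
    omega

theorem run_pHeavy (hC : HC P) (hD : HD P) (hB : 1 ≤ P.B) (ρ : ℕ) (ops : List (Op P.r))
    (ℓ L : ℕ) (Bd : ℤ) (hℓ : (allOps P ρ ops).length < P.b ^ ℓ) (hℓL : ℓ ≤ L)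
    (hL : ∀ κ j, |Mc P κ j| * Bd < P.b ^ L) (hdel : ∀ δ, 1 ≤ delay P ρ δ)
    (hBd : redBd P Bd (finalCells P ρ ops) fun δ => List.replicate (delay P ρ δ) 0)
    (s : St P) (c : Fin P.r → Bool → List (Gm P)) (gp : List (Gm P)) :
    ∃ s' k', Run (pHeavy P) s
        { o3 := ops.map .op, cnt := c, gap := gp, rho := List.replicate ρ .u } s' k'
        (2 * ρ + P.r * (26 * side P ρ ^ P.r) + 2 * ℓ +
          (allOps P ρ ops).length * (((genTok P.r (side P ρ) P.r).length + 2) * (2 * ℓ + 8)) +
          2 * ((finalCells P ρ ops).length * (ℓ + 1)) + 4 * (genTok P.r (side P ρ) P.r).length +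
          (finalCells P ρ ops).length * (2 * L + 7 + 2 * (Fintype.card P.Δ * (L + 2))) + 11) ∧
      (s'.ok = true ↔ red P (finalCells P ρ ops) fun δ => List.replicate (delay P ρ δ) 0) := by
  have hb := P.hb
  have a := run_pInit ρ ops s
    { o3 := ops.map .op, cnt := c, gap := gp, rho := List.replicate ρ .u } rfl rfl rfl rfl
  obtain ⟨s1, b⟩ := run_pRounds (side P ρ) (by unfold side; omega) s
    { o3 := (allOps P ρ ops).map .op, cnt := c, gap := gp, dd := List.replicate (side P ρ) .u,
      L := [.mk fun _ => P.c0] } rfl rfl rfl rfl rfl rfl P.r le_rfl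
  have hT0 : TBd 0 (((genLab P (side P ρ) P.r).map fun κ => (κ, 0), []) : Tape P) := by
    rintro x (hx | hx)
    · obtain ⟨κ, -, rfl⟩ := List.mem_map.1 hx
      exact le_rfl
    · simp at hx
  have c1 := run_pUp (X := 0) (ℓ := ℓ) (by positivity) _ hT0 s1
    { o3 := (allOps P ρ ops).map .op, cnt := c, gap := gp, dd := List.replicate (side P ρ) .u,
      L := (genLab P (side P ρ) P.r).map .mk, str := (genTok P.r (side P ρ) P.r).map .st }
    (encL_zero _).symm rfl
  obtain ⟨s2, d, hT⟩ := run_bLoop hℓ (genTok P.r (side P ρ) P.r) (allOps P ρ ops) 0 _ s1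
    { o3 := (allOps P ρ ops).map .op, cnt := c, gap := gp, dd := List.replicate (side P ρ) .u,
      L := encL (tUp ((genLab P (side P ρ) P.r).map fun κ => (κ, 0), [])).1,
      R := encR (tUp ((genLab P (side P ρ) P.r).map fun κ => (κ, 0), [])).2,
      str := (genTok P.r (side P ρ) P.r).map .st } hT0.up (by omega) rfl rfl rfl rfl rfl rfl
  have e : Run (moveAll .L .R) s2
      { cnt := c, gap := gp, dd := List.replicate (side P ρ) .u,
        L := encL (finalTape P ρ ops).1, R := encR (finalTape P ρ ops).2,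
        str := (genTok P.r (side P ρ) P.r).map .st } s2
      { cnt := c, gap := gp, dd := List.replicate (side P ρ) .u,
        R := encR (finalCells P ρ ops), str := (genTok P.r (side P ρ) P.r).map .st }
      (2 * ((finalCells P ρ ops).length * (ℓ + 1)) + 1) := by
    refine Run.of_runs (runs_moveAll (by simp) _ _) (fun j => ?_) ?_
    · cases j <;> simp [Sk.fn, encL_reverse, finalCells, encR]
    · have h1 := encL_length hℓ (finalTape P ρ ops).1 fun x hx => hT x (Or.inl hx)
      have h2 : (finalTape P ρ ops).1.length * (ℓ + 1) ≤ (finalCells P ρ ops).length * (ℓ + 1) :=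
        Nat.mul_le_mul_right _ (by simp [finalCells])
      simp only [Sk.fn]
      omega
  have f := run_pQueues (genTok P.r (side P ρ) P.r) s2
    { cnt := c, gap := gp, dd := List.replicate (side P ρ) .u,
      R := encR (finalCells P ρ ops), str := (genTok P.r (side P ρ) P.r).map .st } rfl rfl rfl
  have hq : (qval P fun δ => List.replicate (delay P ρ δ) [0] ++ []) =
      fun δ => List.replicate (delay P ρ δ) 0 := by
    funext δ
    simp [qval]
  obtain ⟨s3, k3, g1, g2⟩ := run_pRed hC hD L Bd hL (finalCells P ρ ops)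
    (fun δ => List.replicate (delay P ρ δ) [0]) (fun _ => []) { s2 with ok := true }
    { cnt := c, gap := gp, dd := List.replicate (side P ρ) .u, R := encR (finalCells P ρ ops),
      qo := fun δ => encQ P (List.replicate (delay P ρ δ) [0]) }
    (fun x hx => by
      have h1 : x.2 ≤ (allOps P ρ ops).length := by
        apply hT x
        simpa [finalCells, finalTape] using hx
      exact (h1.trans_lt hℓ).trans_le (Nat.pow_le_pow_right (by omega) hℓL))
    (fun δ => by have := hdel δ; simp; omega)
    (fun δ e he => by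
      simp only [List.append_nil, List.mem_replicate] at he
      rw [he.2]
      refine ⟨by simp, by simp, ?_⟩
      simp
      omega)
    (fun _ => by rw [hq]; exact hBd) rfl rfl rfl
  refine ⟨s3, k3, (a.seq (b.seq (c1.seq (d.seq (e.seq (f.seq
    ((Run.act rfl fun _ => rfl).seq g1))))))).mono ?_, by rw [g2, hq]; simp⟩
  simp only [pot, encQ, List.flatMap_nil, List.length_nil, Finset.sum_const_zero]
  omega

end Pool.Agent.Lib.MP_2ec175_al
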