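import Pool.Agent.Lib.MP_2ec175_al.Dec
import Pool.Agent.Lib.MP_2ec175_al.Grp

/-!
The word problem of a finitely generated metabelian group has linear average-case complexity.
-/

set_option autoImplicit false
set_option linter.unusedSectionVars false

namespace Pool.Agent.Lib.MP_2ec175_al

open Function

/-- Unit moves with total displacement `u`. -/
def movesOf {r : ℕ} (u : Fin r → ℤ) : List (Op r) :=
  (List.finRange r).flatMap fun i => List.replicate (u i).natAbs (some (i, decide (0 ≤ u i)))

theorem disp_replicate {r : ℕ} (n : ℕ) (o : Op r) : disp (List.replicate n o) = n • mvOp o := by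
  simp [disp]

theorem disp_flatMap {r : ℕ} {β : Type} (l : List β) (F : β → List (Op r)) :
    disp (l.flatMap F) = (l.map fun x => disp (F x)).sum := by
  induction l with
  | nil => simp
  | cons x l ih => simp [ih]

theorem disp_movesOf {r : ℕ} (u : Fin r → ℤ) : disp (movesOf u) = u := by
  rw [movesOf, disp_flatMap, ← Fin.sum_univ_def]
  conv_rhs => rw [← Finset.univ_sum_single u]
  refine Finset.sum_congr rfl fun i _ => ?_
  rw [disp_replicate, mvOp, ← Pi.single_smul']
  congr 1
  by_cases h : 0 ≤ u i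
  · simp [h, abs_of_nonneg h]
  · simp [h, abs_of_neg (not_le.1 h)]

theorem vec_of_moves {r : ℕ} : ∀ (l : List (Op r)) (x : Fin r → ℤ), (∀ o ∈ l, o ≠ none) →
    vec x l = 0 := by
  intro l
  induction l with
  | nil => intro _ _; rfl
  | cons o l ih =>
    intro x h
    cases o with
    | none => exact absurd rfl (h none (by simp))
    | some m => exact ih _ fun o ho => h o (List.mem_cons_of_mem _ ho)

theorem nrm_add_mvOp {r : ℕ} (x : Fin r → ℤ) (o : Op r) : nrm (x + mvOp o) ≤ nrm x + 1 := by
  rcases o with _ | ⟨i, e⟩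
  · simp [mvOp]
  · have := nrm_add_single x i (if e then 1 else -1)
    simp only [mvOp]
    cases e <;> simp at this ⊢ <;> omega

theorem stays_length {r : ℕ} : ∀ (l : List (Op r)) (x : Fin r → ℤ),
    Stays (fun y => nrm y ≤ nrm x + l.length) x l := by
  intro l
  induction l with
  | nil => intro x; simp [Stays]
  | cons o l ih =>
    intro x
    refine ⟨by simp, (ih _).mono fun y hy => ?_⟩
    have := nrm_add_mvOp x o
    simp only [List.length_cons]
    omega

theorem opsG_length {α T : Type} [Fintype α] [Fintype T] {r : ℕ} (trs : T → α → T)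
    (prog : T → α → List (Op r)) :
    ∃ c : ℕ, (∀ t a, (prog t a).length ≤ c) ∧ ∀ w t, (opsG trs prog t w).length ≤ c * w.length := by
  obtain ⟨c, hc⟩ := (Set.finite_range fun x : T × α => (prog x.1 x.2).length).bddAbove
  have h : ∀ t a, (prog t a).length ≤ c := fun t a => hc ⟨(t, a), rfl⟩
  refine ⟨c, h, fun w => ?_⟩
  induction w with
  | nil => simp [opsG]
  | cons a w ih =>
    intro t
    have h1 := h t a
    have h2 := ih (trs t a)
    simp only [opsG, List.length_append, List.length_cons, mul_add]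
    omega

theorem sum_le_of_EW {m : ℕ} (cost : List (Fin m × Bool) → ℕ) (C : ℝ)
    (h : ∀ n, EW n (fun w => (cost w : ℝ)) ≤ C * ((n + 1) * (2 * m) ^ n)) :
    ∃ C' : ℕ, ∀ n : ℕ, ∑ v : Fin n → Fin m × Bool, cost (List.ofFn v) ≤ C' * (n + 1) * (2 * m) ^ n := by
  refine ⟨⌈C⌉₊, fun n => ?_⟩
  have h1 := (h n).trans (mul_le_mul_of_nonneg_right (Nat.le_ceil C) (by positivity))
  rw [EW, ← mul_assoc] at h1
  exact_mod_cast h1

theorem EW_linear {m : ℕ} (n : ℕ) (a : ℝ) :
    EW n (fun _ : List (Fin m × Bool) => a * (n + 1)) = a * ((n + 1) * (2 * m) ^ n) := by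
  rw [EW_const]
  simp
  ring

theorem light_case {m : ℕ} {Q H : Type} [AddCommGroup Q] [Fintype Q] [AddCommGroup H]
    (x : Fin m → Q) (φ : Q → Fin m × Bool → H) :
    ∃ (cost : List (Fin m × Bool) → ℕ) (C : ℕ),
      Dec (fun w => wsum x w = 0 ∧ pathSum x φ 0 w = 0) cost ∧
      ∀ n : ℕ, ∑ v : Fin n → Fin m × Bool, cost (List.ofFn v) ≤ C * (n + 1) * (2 * m) ^ n := by
  classical
  let H0 := AddSubgroup.closure (Set.range fun y : Q × (Fin m × Bool) => φ y.1 y.2)
  have : AddGroup.FG H0 := AddGroup.closure_finite_fg _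
  obtain ⟨r, T, i1, i2, ⟨e⟩⟩ := exists_equiv_fg H0
  let φ0 : Q → Fin m × Bool → H0 := fun q a => ⟨φ q a, AddSubgroup.subset_closure ⟨(q, a), rfl⟩⟩
  let θ : Q → Fin m × Bool → (Fin r → ℤ) × T := fun q a => e (φ0 q a)
  let trs : Q × T → Fin m × Bool → Q × T := fun t a => (t.1 + sg x a, t.2 + (θ t.1 a).2)
  let prog : Q × T → Fin m × Bool → List (Op r) := fun t a => movesOf (θ t.1 a).1
  have key : ∀ (w : List (Fin m × Bool)) (t : Q × T),
      w.foldl trs t = (t.1 + wsum x w, t.2 + (pathSum x θ t.1 w).2) ∧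
        disp (opsG trs prog t w) = (pathSum x θ t.1 w).1 := by
    intro w
    induction w with
    | nil => intro t; simp [pathSum, opsG]
    | cons a w ih =>
      intro t
      obtain ⟨h1, h2⟩ := ih (trs t a)
      rw [List.foldl_cons, h1, opsG, disp_append, h2]
      simp [trs, prog, pathSum, disp_movesOf, add_assoc]
  obtain ⟨c, -, hc⟩ := opsG_length trs prog
  obtain ⟨C, hC⟩ := sum_le_of_EW
    (fun w => 2 * (2 * w.length + 4 * (opsG trs prog (0, 0) w).length + 4)) (8 + 8 * c) fun n => by
      rw [← EW_linear]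
      refine EW_mono fun w hw => ?_
      have h1 : ((opsG trs prog (0, 0) w).length : ℝ) ≤ c * n := by
        rw [← hw]; exact_mod_cast hc w (0, 0)
      push_cast
      rw [hw]
      nlinarith [(Nat.cast_nonneg c : (0 : ℝ) ≤ c), (Nat.cast_nonneg n : (0 : ℝ) ≤ n)]
  refine ⟨_, C, (dec_light trs prog (fun t => decide (t = 0)) (0, 0)).congr fun w => ?_, hC⟩
  have h1 : pathSum x θ 0 w = e (pathSum x φ0 0 w) := (map_pathSum x φ0 e.toAddMonoidHom w 0).symm
  have h2 : pathSum x φ 0 w = ((pathSum x φ0 0 w : H0) : H) := (map_pathSum x φ0 H0.subtype w 0).symm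
  rw [(key w _).1, (key w _).2, h2]
  simp only [zero_add, decide_eq_true_eq, Prod.mk_eq_zero, ZeroMemClass.coe_eq_zero, and_assoc]
  refine and_congr_right fun _ => ?_
  rw [← e.map_eq_zero_iff, ← h1, Prod.ext_iff]
  exact and_comm

theorem exists_root (E : ℕ) (hE : 1 ≤ E) (n : ℕ) :
    ∃ y : ℕ, 1 ≤ y ∧ n + 1 ≤ y ^ E ∧ y ^ E ≤ 2 ^ E * (n + 1) := by
  have hex : ∃ y, n + 1 ≤ y ^ E := ⟨n + 1, Nat.le_self_pow (by omega) _⟩
  have h1 := Nat.find_spec hex
  have h2 := fun y => Nat.find_min hex (m := y)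
  generalize Nat.find hex = y at h1 h2
  have h3 : 1 ≤ y := by
    rcases Nat.eq_zero_or_pos y with rfl | h
    · rw [zero_pow (by omega)] at h1; omega
    · exact h
  refine ⟨y, h3, h1, ?_⟩
  rcases h3.eq_or_lt with rfl | h4
  · rw [one_pow]
    exact Nat.mul_pos (Nat.pow_pos (by norm_num)) (by omega)
  · have h5 := h2 (y - 1) (by omega)
    calc y ^ E ≤ (2 * (y - 1)) ^ E := Nat.pow_le_pow_left (by omega) _
      _ = 2 ^ E * (y - 1) ^ E := mul_pow _ _ _
      _ ≤ _ := Nat.mul_le_mul_left _ (by omega)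

theorem heavy_case {m r : ℕ} (hr : 1 ≤ r) {T H : Type} [AddCommGroup T] [Fintype T]
    [AddCommGroup H] (x : Fin m → (Fin r → ℤ) × T) (φ : (Fin r → ℤ) × T → Fin m × Bool → H)
    (hx : ∀ q, ∃ w, wsum x w = q) :
    ∃ (cost : List (Fin m × Bool) → ℕ) (C : ℕ),
      Dec (fun w => wsum x w = 0 ∧ ∀ z, pathSum x φ (z, 0) w = 0) cost ∧
      ∀ n : ℕ, ∑ v : Fin n → Fin m × Bool, cost (List.ofFn v) ≤ C * (n + 1) * (2 * m) ^ n := by
  classical
  let i0 : Fin r := ⟨0, hr⟩
  let p := Fintype.card (T × (Fin m × Bool)) + 1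
  have hp : 1 ≤ p := Nat.le_add_left _ _
  let idx : T × (Fin m × Bool) → ℕ := fun y => Fintype.equivFin _ y
  have idx_lt : ∀ y, idx y < p := fun y => (Fintype.equivFin _ y).2.trans (Nat.lt_succ_self _)
  have idx_inj : Injective idx := Fin.val_injective.comp (Fintype.equivFin _).injective
  let ψ : (Fin r → ℤ) × (T × (Fin m × Bool)) → Fin r → ℤ := fun y =>
    (p : ℤ) • y.1 + Pi.single i0 (idx y.2 : ℤ)
  have hψ : Injective ψ := by
    rintro ⟨z, y⟩ ⟨z', y'⟩ h
    have h0 := congrFun h i0
    simp only [ψ, Pi.add_apply, Pi.smul_apply, smul_eq_mul, Pi.single_eq_same] at h0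
    have h1 : (idx y : ℤ) < p := by exact_mod_cast idx_lt y
    have h2 : (idx y' : ℤ) < p := by exact_mod_cast idx_lt y'
    have h3 : z i0 = z' i0 := by
      by_contra hne
      rcases lt_or_gt_of_ne hne with hlt | hlt <;> nlinarith [Nat.cast_nonneg (α := ℤ) (idx y),
        Nat.cast_nonneg (α := ℤ) (idx y')]
    have h4 : y = y' := idx_inj (by rw [h3] at h0; omega)
    subst h4
    simp only [ψ, add_left_inj] at h
    rw [smul_right_injective _ (by omega : (p : ℤ) ≠ 0) h]
  let Φ : (Fin r → ℤ) → H := extend ψ (fun y => φ (y.1, y.2.1) y.2.2) 0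
  let Λ : (Fin r → ℤ) → ((Fin r → ℤ) →₀ ℤ) →+ H := fun z =>
    Finsupp.liftAddHom fun y => zmultiplesHom H (Φ (y + (p : ℤ) • z))
  have hΛ : ∀ z y c, Λ z (Finsupp.single y c) = c • Φ (y + (p : ℤ) • z) := by
    intro z y c; simp [Λ]
  let U : AddSubgroup ((Fin r → ℤ) →₀ ℤ) := ⨅ z, (Λ z).ker
  have hUm : ∀ v, v ∈ U ↔ ∀ z, Λ z v = 0 := fun v => by simp [U, AddSubgroup.mem_iInf]
  have hU : ∀ z : Fin r → ℤ, ∀ v ∈ U, tr ((p : ℤ) • z) v ∈ U := by
    intro z v hv
    rw [hUm] at hv ⊢
    intro z'
    have : (Λ z').comp (Finsupp.mapDomain.addMonoidHom (· + (p : ℤ) • z)) = Λ (z + z') := by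
      refine Finsupp.addHom_ext fun y c => ?_
      simp [hΛ, add_assoc]
    exact (DFunLike.congr_fun this v).trans (hv _)
  let mv : Fin m → Fin r → ℤ := fun i => (x i).1
  have hmv : ∀ w, wsum mv w = (wsum x w).1 := fun w => (map_wsum (AddMonoidHom.fst _ _) x w).symm
  have hsg : ∀ a, sg mv a = (sg x a).1 := fun a => (map_sg (AddMonoidHom.fst _ _) x a).symm
  let trs : T → Fin m × Bool → T := fun t a => t + (sg x a).2
  let prog : T → Fin m × Bool → List (Op r) := fun t a =>
    List.replicate (idx (t, a)) (some (i0, true)) ++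
      none :: (List.replicate (idx (t, a)) (some (i0, false)) ++ movesOf ((p : ℤ) • sg mv a))
  have e1 : ∀ n : ℕ, disp (List.replicate n (some (i0, true) : Op r)) = Pi.single i0 (n : ℤ) := by
    intro n
    rw [disp_replicate, mvOp, ← Pi.single_smul']
    simp
  have prog_disp : ∀ t a, disp (prog t a) = (p : ℤ) • sg mv a := by
    intro t a
    simp only [prog, disp_append, disp_cons, disp_replicate, mvOp, disp_movesOf, if_true,
      Bool.false_eq_true, if_false, Pi.single_neg, smul_neg]
    abel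
  have prog_vec : ∀ t a y, vec y (prog t a) = Finsupp.single (y + Pi.single i0 (idx (t, a) : ℤ)) 1 := by
    intro t a y
    simp only [prog]
    rw [vec_append, vec_of_moves _ _ (by simp), zero_add, vec, vec_of_moves, add_zero, e1]
    intro o ho
    simp only [movesOf, List.mem_append, List.mem_replicate, List.mem_flatMap] at ho
    rcases ho with ⟨-, rfl⟩ | ⟨i, -, -, rfl⟩ <;> simp
  have key1 : ∀ (w : List (Fin m × Bool)) (t : T), w.foldl trs t = t + (wsum x w).2 ∧
      disp (opsG trs prog t w) = (p : ℤ) • wsum mv w := by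
    intro w
    induction w with
    | nil => intro t; simp [opsG]
    | cons a w ih =>
      intro t
      rw [List.foldl_cons, (ih _).1, opsG, disp_append, (ih _).2, prog_disp]
      simp [trs, add_assoc]
  have key2 : ∀ (z' : Fin r → ℤ) (w : List (Fin m × Bool)) (z : Fin r → ℤ) (t : T),
      Λ z' (vec ((p : ℤ) • z) (opsG trs prog t w)) = pathSum x φ (z + z', t) w := by
    intro z' w
    induction w with
    | nil => intro z t; simp [opsG, vec, pathSum]
    | cons a w ih =>
      intro z t
      rw [opsG, vec_append, map_add, prog_vec, prog_disp, ← smul_add, ih, hΛ, one_smul, pathSum]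
      congr 1
      · have : (p : ℤ) • z + Pi.single i0 (idx (t, a) : ℤ) + (p : ℤ) • z' = ψ (z + z', (t, a)) := by
          simp only [ψ, smul_add]; abel
        rw [this]
        exact hψ.extend_apply _ _ _
      · congr 1
        ext1
        · simp [hsg, add_right_comm]
        · simp [trs]
  obtain ⟨c, hc1, hc⟩ := opsG_length trs prog
  have key3 : ∀ (R : ℕ) (w : List (Fin m × Bool)) (z : Fin r → ℤ) (t : T),
      (∀ k ≤ w.length, p * nrm (z + wsum mv (w.take k)) + c ≤ R) →
      Stays (fun y => nrm y ≤ R) ((p : ℤ) • z) (opsG trs prog t w) := by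
    have hn : ∀ z : Fin r → ℤ, nrm ((p : ℤ) • z) = p * nrm z := by
      intro z
      simp [nrm, Finset.mul_sum, Int.natAbs_mul]
    intro R w
    induction w with
    | nil =>
      intro z t h
      have := h 0 le_rfl
      simp only [opsG, Stays, hn]
      simp at this
      omega
    | cons a w ih =>
      intro z t h
      refine Stays.append ((stays_length _ _).mono fun y hy => ?_) ?_
      · have h1 := h 0 (Nat.zero_le _)
        have h2 := hc1 t a
        rw [hn] at hy
        simp at h1
        omega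
      · rw [prog_disp, ← smul_add]
        refine ih _ _ fun k hk => ?_
        have := h (k + 1) (by simpa using hk)
        simpa [add_assoc] using this
  obtain ⟨Cst, hCst⟩ := dec_heavy hr trs prog (fun t => decide (t = 0)) 0 hp U hU c
  choose y hy1 hy2 hy3 using exists_root (2 * (r + 2)) (by omega)
  let bad : List (Fin m × Bool) → Prop := fun w => ∃ k ≤ w.length,
    y w.length * y w.length ^ (r + 2) ≤ (p + c + 1) * (∑ j, (wsum mv (w.take k) j).natAbs + 1)
  let lam : List (Fin m × Bool) → ℕ := fun w =>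
    if bad w then (c + 1) * (w.length + 1) else y w.length * y w.length ^ (r + 2)
  let c2 := (p * r + 1) * c + 2 * (r + 2) + 1
  have hρ : ∀ w, rhoOf 0 0 (opsG trs prog 0 w) ≤ c * w.length := fun w =>
    (rhoOf_le _ _ _ _ (Nat.zero_le _) (stays_length _ _)).trans (by simpa [nrm] using hc w 0)
  have hdec := hCst lam (fun w => c2 * y w.length) fun w => by
    have h1 := hρ w
    have h2 := hc w 0
    have h3 := hy1 w.length
    have h4 := hy2 w.length
    refine ⟨?_, h2.trans (Nat.mul_le_mul_left _ ?_), ?_⟩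
    · simp only [lam]
      split_ifs with hb
      · nlinarith
      · have h5 : 0 < y w.length * y w.length ^ (r + 2) := by positivity
        have := rhoOf_le (y w.length * y w.length ^ (r + 2) - 1) (opsG trs prog 0 w) 0 0
          (Nat.zero_le _) (by
            have := key3 (y w.length * y w.length ^ (r + 2) - 1) w 0 0 fun k hk => by
              have h6 : ¬ _ := fun h => hb ⟨k, hk, h⟩
              rw [zero_add, nrm]
              generalize ∑ j, (wsum mv (w.take k) j).natAbs = N at *
              have : (p + c + 1) * (N + 1) = p * N + c + 1 + (p + c * N + N) := by ring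
              omega
            rwa [smul_zero] at this)
        omega
    · simp only [lam]
      split_ifs with hb
      · nlinarith [Nat.zero_le (c * (w.length + 1))]
      · calc w.length ≤ (y w.length ^ (r + 2)) ^ 2 := by rw [← pow_mul, mul_comm]; omega
          _ ≤ _ := Nat.pow_le_pow_left (Nat.le_mul_of_pos_left _ h3) _
    · have h5 : rhoOf 0 0 (opsG trs prog 0 w) * (p * r) + (opsG trs prog 0 w).length <
          2 ^ ((p * r + 1) * c + y w.length * (2 * (r + 2))) := by
        calc _ ≤ (c * w.length) * (p * r) + c * w.length := by gcongr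
          _ = ((p * r + 1) * c) * w.length := by ring
          _ ≤ ((p * r + 1) * c) * y w.length ^ (2 * (r + 2)) := by gcongr; omega
          _ < 2 ^ ((p * r + 1) * c) * (2 ^ y w.length) ^ (2 * (r + 2)) :=
            Nat.mul_lt_mul_of_lt_of_le Nat.lt_two_pow_self
              (Nat.pow_le_pow_left Nat.lt_two_pow_self.le _) (by positivity)
          _ = _ := by rw [← pow_mul, ← pow_add]
      have h6 := Nat.size_le.2 h5
      simp only [c2]
      nlinarith [Nat.le_mul_of_pos_right ((p * r + 1) * c) h3]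
  obtain ⟨Cp, hCp0, hCp⟩ := pass_bound mv (fun z => by
    obtain ⟨w, hw⟩ := hx (z, 0)
    exact ⟨w, by rw [hmv, hw]⟩) (2 ^ (2 * (r + 2))) (by positivity)
  obtain ⟨Cq, hCq0, hCq⟩ := tail_bound hr mv (p + c + 1) (1 + 2 * (r + 2) * (r + 1)) (by omega)
  obtain ⟨C, hC⟩ := sum_le_of_EW (fun w => 2 * (2 * w.length + 4 * (opsG trs prog 0 w).length + 6 +
      if disp (opsG trs prog 0 w) = 0 then Cst * (c2 * y w.length * lam w ^ (r + 1)) else 0))
    (12 + 8 * c + (2 * Cst * c2 * (Cp * 2 ^ (2 * (r + 2))) +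
      2 * Cst * c2 * ((c + 1) ^ (r + 1) * Cq))) fun n => by
    have h3 : (1 : ℝ) ≤ y n := by exact_mod_cast hy1 n
    have h4 : (n : ℝ) + 1 ≤ (y n : ℝ) ^ (2 * (r + 2)) := by exact_mod_cast hy2 n
    have h5 : (y n : ℝ) ^ (2 * (r + 2)) ≤ 2 ^ (2 * (r + 2)) * (n + 1) := by exact_mod_cast hy3 n
    have g1 := hCp n ((y n : ℝ) ^ (r + 2)) (by positivity) (by rw [← pow_mul, mul_comm]; exact h5)
    have g2 := hCq n (y n) (y n ^ (r + 2)) (hy1 n) (Nat.pow_pos (hy1 n))
      (by rw [← pow_mul, mul_comm]; have := hy2 n; omega)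
    calc _ ≤ EW n fun w => (12 + 8 * c) * (n + 1) +
          ((2 * Cst * c2 * (((y n : ℝ) ^ (r + 2)) ^ r * (y n : ℝ) ^ (2 * (r + 2)))) *
            (if wsum mv w = 0 then 1 else 0) +
          (2 * Cst * c2 * ((c + 1) ^ (r + 1) * (y n : ℝ) ^ (1 + 2 * (r + 2) * (r + 1)))) *
            (if ∃ k ≤ n, y n * y n ^ (r + 2) ≤
              (p + c + 1) * (∑ j, (wsum mv (w.take k) j).natAbs + 1) then 1 else 0)) := by
          refine EW_mono fun w hw => ?_
          subst hw
          have h1 : ((opsG trs prog 0 w).length : ℝ) ≤ c * w.length := by exact_mod_cast hc w 0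
          rw [Nat.cast_mul, Nat.cast_add, mul_add]
          refine add_le_add ?_ ?_
          · push_cast
            nlinarith [(Nat.cast_nonneg c : (0 : ℝ) ≤ c),
              (Nat.cast_nonneg w.length : (0 : ℝ) ≤ w.length)]
          · by_cases hd : disp (opsG trs prog 0 w) = 0
            swap
            · rw [if_neg hd]
              simp only [Nat.cast_zero, mul_zero]
              positivity
            have h2 : wsum mv w = 0 := by
              rw [(key1 w 0).2] at hd
              exact (smul_eq_zero_iff_right (by omega : (p : ℤ) ≠ 0)).1 hd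
            rw [if_pos hd, if_pos h2]
            simp only [lam]
            by_cases hb : bad w
            · rw [if_pos hb, if_pos hb]
              refine le_add_of_nonneg_of_le (by positivity) ?_
              push_cast
              calc (2 : ℝ) * (Cst * (c2 * y w.length * ((c + 1) * (w.length + 1)) ^ (r + 1)))
                  ≤ 2 * (Cst * (c2 * y w.length *
                    ((c + 1) * (y w.length : ℝ) ^ (2 * (r + 2))) ^ (r + 1))) := by gcongr
                _ = _ := by rw [mul_pow]; ring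
            · rw [if_neg hb, if_neg hb]
              push_cast
              refine le_of_eq ?_
              rw [mul_pow]
              ring
      _ ≤ (12 + 8 * c) * ((n + 1) * (2 * m) ^ n) +
          (2 * Cst * c2 * ((Cp * (2 * m) ^ n) * (2 ^ (2 * (r + 2)) * (n + 1))) +
          2 * Cst * c2 * ((c + 1) ^ (r + 1) * (Cq * ((n + 1) * (2 * m) ^ n)))) := by
          rw [EW_add, EW_add, EW_linear, EW_mul, EW_mul]
          refine add_le_add le_rfl (add_le_add ?_ ?_)
          · rw [mul_assoc (2 * (Cst : ℝ) * c2)]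
            refine mul_le_mul_of_nonneg_left ?_ (by positivity)
            rw [mul_right_comm, mul_comm _ (EW _ _)]
            exact mul_le_mul g1 h5 (by positivity) (by positivity)
          · rw [mul_assoc (2 * (Cst : ℝ) * c2), mul_assoc (((c : ℝ) + 1) ^ (r + 1)),
              mul_comm _ (EW _ _)]
            gcongr
      _ = _ := by ring
  refine ⟨_, C, hdec.congr fun w => ?_, hC⟩
  rw [(key1 w 0).1, (key1 w 0).2, hUm, hmv]
  have h1 : ∀ z, Λ z (vec 0 (opsG trs prog 0 w)) = pathSum x φ (z, 0) w := fun z => by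
    have := key2 z w 0 0
    rwa [smul_zero, zero_add] at this
  simp only [h1, zero_add, decide_eq_true_eq, smul_eq_zero_iff_right (by omega : (p : ℤ) ≠ 0)]
  refine and_congr_left fun _ => ?_
  rw [Prod.ext_iff]
  exact and_comm

theorem main (G : Type) [Group G] (hG : derivedSeries G 2 = ⊥) (m : ℕ) (f : Fin m → G)
    (hf : Subgroup.closure (Set.range f) = ⊤) :
    ∃ (cost : List (Fin m × Bool) → ℕ) (C : ℕ),
      Dec (fun w => FreeGroup.lift f (FreeGroup.mk w) = 1) cost ∧
      ∀ n : ℕ, ∑ v : Fin n → Fin m × Bool, cost (List.ofFn v) ≤ C * (n + 1) * (2 * m) ^ n := by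
  obtain ⟨r, T, i1, i2, x, H, i3, φ, h1, h2, h3⟩ := metabelian_paths G hG f hf
  rcases Nat.eq_zero_or_pos r with rfl | hr
  · obtain ⟨cost, C, h4, h5⟩ := light_case x φ
    exact ⟨cost, C, h4.congr fun w => ⟨fun h => (h3 w 0 h.1).1 h.2,
      fun h => ⟨h2 w h, (h3 w 0 (h2 w h)).2 h⟩⟩, h5⟩
  · obtain ⟨cost, C, h4, h5⟩ := heavy_case hr x φ h1
    exact ⟨cost, C, h4.congr fun w => ⟨fun h => (h3 w _ h.1).1 (h.2 0),
      fun h => ⟨h2 w h, fun z => (h3 w _ (h2 w h)).2 h⟩⟩, h5⟩

end Pool.Agent.Lib.MP_2ec175_al
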