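import Pool.Agent.Lib.MP_2ec175_al.Prob

/-!
Counting estimates for freely reduced random words: sums over reduced words and a tail bound for
the sums of initial segments.
-/

set_option autoImplicit false
set_option linter.unusedSectionVars false

namespace Pool.Agent.Lib.MP_2ec175_al

open Finset

open Classical in
/-- The sum of `Φ` over the words of length `n` with property `P`. -/
noncomputable def EP {α : Type} [Fintype α] (P : List α → Prop) (n : ℕ) (Φ : List α → ℝ) : ℝ :=
  EW n fun w => if P w then Φ w else 0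

section EP

variable {α : Type} [Fintype α] {P : List α → Prop}

theorem EP_mono {n : ℕ} {Φ Ψ : List α → ℝ} (h : ∀ w, w.length = n → P w → Φ w ≤ Ψ w) :
    EP P n Φ ≤ EP P n Ψ :=
  EW_mono fun w hw => by
    split_ifs with hP
    · exact h w hw hP
    · exact le_rfl

theorem EP_add (n : ℕ) (Φ Ψ : List α → ℝ) :
    EP P n (fun w => Φ w + Ψ w) = EP P n Φ + EP P n Ψ := by
  unfold EP
  rw [← EW_add]
  congr 1
  funext w
  split_ifs <;> simp

theorem EP_mul (n : ℕ) (c : ℝ) (Φ : List α → ℝ) : EP P n (fun w => c * Φ w) = c * EP P n Φ := by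
  unfold EP
  rw [← EW_mul]
  congr 1
  funext w
  split_ifs <;> simp

theorem EP_sum {ι : Type} (s : Finset ι) (n : ℕ) (Φ : ι → List α → ℝ) :
    EP P n (fun w => ∑ i ∈ s, Φ i w) = ∑ i ∈ s, EP P n (Φ i) := by
  unfold EP
  rw [← EW_sum]
  congr 1
  funext w
  split_ifs <;> simp

theorem EP_nonneg {n : ℕ} {Φ : List α → ℝ} (h : ∀ w, 0 ≤ Φ w) : 0 ≤ EP P n Φ :=
  EW_nonneg fun w => by
    split_ifs
    · exact h w
    · exact le_rfl

end EP

variable {m : ℕ}

/-- The letters that may follow `z` in a reduced word. -/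
def nx (z : Fin m × Bool) : Finset (Fin m × Bool) := univ.erase (z.1, !z.2)

theorem mem_nx {z a : Fin m × Bool} : a ∈ nx z ↔ (z.1 = a.1 → z.2 = a.2) := by
  rcases z with ⟨i, b⟩
  rcases a with ⟨j, c⟩
  simp only [nx, mem_erase, mem_univ, and_true, ne_eq, Prod.mk.injEq, not_and]
  constructor
  · intro h hij
    have := h hij.symm
    cases b <;> cases c <;> simp_all
  · intro h hij
    have := h hij.symm
    cases b <;> cases c <;> simp_all

theorem card_nx (z : Fin m × Bool) : ((nx z).card : ℝ) = 2 * m - 1 := by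
  have hm : 1 ≤ m * 2 := by have := z.1.pos; omega
  rw [nx, card_erase_of_mem (mem_univ _), card_univ, Fintype.card_prod, Fintype.card_fin,
    Fintype.card_bool, Nat.cast_sub hm]
  push_cast
  ring

theorem sum_sg_nx (c : Fin m → ℝ) (z : Fin m × Bool) : ∑ a ∈ nx z, sg c a = sg c z := by
  have h1 : ∑ a : Fin m × Bool, sg c a = 0 := by
    rw [Fintype.sum_prod_type]
    exact sum_eq_zero fun i _ => by simp [sg]
  have h2 := add_sum_erase univ (sg c) (mem_univ ((z.1, !z.2) : Fin m × Bool))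
  have h3 : sg c (z.1, !z.2) = -sg c z := by
    rcases z with ⟨i, _ | _⟩ <;> simp [sg]
  rw [h1, h3] at h2
  rw [nx]
  linarith

/-- The sum of `Φ` over the words `w` of length `n` such that `z w` is reduced. -/
noncomputable def EZ (z : Fin m × Bool) (n : ℕ) (Φ : List (Fin m × Bool) → ℝ) : ℝ :=
  EP (fun w => FreeGroup.IsReduced (z :: w)) n Φ

theorem EZ_zero (z : Fin m × Bool) (Φ : List (Fin m × Bool) → ℝ) : EZ z 0 Φ = Φ [] := by
  simp [EZ, EP, EW_zero]

theorem EZ_succ (z : Fin m × Bool) (n : ℕ) (Φ : List (Fin m × Bool) → ℝ) :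
    EZ z (n + 1) Φ = ∑ a ∈ nx z, EZ a n fun l => Φ (a :: l) := by
  classical
  unfold EZ EP
  rw [EW_succ, ← sum_filter_add_sum_filter_not univ (· ∈ nx z), filter_mem_eq_inter, univ_inter]
  have h0 : ∀ a ∈ univ.filter (fun a => ¬ a ∈ nx z), (EW n fun l =>
      if FreeGroup.IsReduced (z :: a :: l) then Φ (a :: l) else 0) = 0 := by
    intro a ha
    have h1 := (mem_filter.1 ha).2
    rw [mem_nx] at h1
    simp [FreeGroup.isReduced_cons_cons, h1, EW_const]
  rw [sum_eq_zero (s := univ.filter fun a => ¬ a ∈ nx z) fun a ha => by convert h0 a ha, add_zero]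
  refine sum_congr rfl fun a ha => ?_
  rw [mem_nx] at ha
  congr 1
  funext l
  have : FreeGroup.IsReduced (z :: a :: l) ↔ FreeGroup.IsReduced (a :: l) := by
    rw [FreeGroup.isReduced_cons_cons]
    exact and_iff_right ha
  simp only [this]

theorem EZ_const (c : ℝ) : ∀ (n : ℕ) (z : Fin m × Bool),
    EZ z n (fun _ => c) = (2 * m - 1) ^ n * c := by
  intro n
  induction n with
  | zero => intro z; simp [EZ_zero]
  | succ n ih =>
    intro z
    rw [EZ_succ]
    simp only [ih]
    rw [sum_const, nsmul_eq_mul, card_nx]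
    ring

theorem ER_le_sum (hm : 0 < m) (n : ℕ) {Φ : List (Fin m × Bool) → ℝ} (h : ∀ w, 0 ≤ Φ w) :
    EP FreeGroup.IsReduced n Φ ≤ ∑ z, EZ z n Φ := by
  classical
  unfold EZ EP
  rw [← EW_sum]
  refine EW_mono fun w _ => ?_
  have h0 : ∀ z ∈ (univ : Finset (Fin m × Bool)),
      0 ≤ (if FreeGroup.IsReduced (z :: w) then Φ w else 0) := fun z _ => by
    split_ifs
    · exact h w
    · exact le_rfl
  split_ifs with hw
  · obtain ⟨z, hz⟩ : ∃ z, FreeGroup.IsReduced (z :: w) := by
      cases w with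
      | nil => exact ⟨(⟨0, hm⟩, true), FreeGroup.IsReduced.singleton⟩
      | cons a l => exact ⟨a, FreeGroup.isReduced_cons_cons.2 ⟨fun _ => rfl, hw⟩⟩
    have := single_le_sum h0 (mem_univ z)
    rw [if_pos hz] at this
    convert this
  · convert sum_nonneg h0

theorem ER_le (hm : 0 < m) (n : ℕ) {Φ : List (Fin m × Bool) → ℝ} (h : ∀ w, 0 ≤ Φ w) {B : ℝ}
    (hB : ∀ z, EZ z n Φ ≤ B) : EP FreeGroup.IsReduced n Φ ≤ 2 * m * B := by
  refine (ER_le_sum hm n h).trans ((sum_le_card_nsmul _ _ _ fun z _ => hB z).trans (le_of_eq ?_))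
  rw [card_univ, Fintype.card_prod, Fintype.card_fin, Fintype.card_bool, nsmul_eq_mul]
  push_cast
  ring

theorem le_ER (hm : 0 < m) (n : ℕ) :
    (2 * m - 1 : ℝ) ^ n ≤ EP FreeGroup.IsReduced n fun _ : List (Fin m × Bool) => 1 := by
  classical
  have h := EZ_const (m := m) 1 n (⟨0, hm⟩, true)
  rw [mul_one] at h
  rw [← h]
  unfold EZ EP
  refine EW_mono fun w _ => ?_
  split_ifs with h1 h2
  · exact le_rfl
  · refine absurd ?_ h2
    cases w with
    | nil => exact FreeGroup.IsReduced.nil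
    | cons a l => exact (FreeGroup.isReduced_cons_cons.1 h1).2
  · exact zero_le_one
  · exact le_rfl

theorem EZ_exp_take (hm : 2 ≤ m) (c : Fin m → ℝ) (η : ℝ) (hη : 2 * η ≤ 1) (hc : ∀ i, |c i| ≤ η) :
    ∀ (n k : ℕ) (z : Fin m × Bool), EZ z n (fun w => Real.exp (wsum c (w.take k))) ≤
      (2 * m - 1) ^ n * Real.exp (sg c z / (2 * m - 2) + η + 4 * η ^ 2 * n) := by
  have hm' : (2 : ℝ) ≤ m := by exact_mod_cast hm
  have hsg : ∀ a, |sg c a| ≤ η := by
    rintro ⟨i, _ | _⟩ <;> simp [sg, hc]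
  have hη0 : 0 ≤ η := (abs_nonneg _).trans (hc ⟨0, by omega⟩)
  have hd : (0 : ℝ) < 2 * m - 2 := by linarith
  have hdiv : ∀ a, |sg c a / (2 * m - 2)| ≤ η / 2 := by
    intro a
    rw [abs_div, abs_of_pos hd, div_le_iff₀ hd]
    have := hsg a
    nlinarith
  have hq : (0 : ℝ) ≤ 2 * m - 1 := by linarith
  have base : ∀ (n : ℕ) (z : Fin m × Bool), (2 * m - 1 : ℝ) ^ n * 1 ≤
      (2 * m - 1) ^ n * Real.exp (sg c z / (2 * m - 2) + η + 4 * η ^ 2 * n) := by
    intro n z
    refine mul_le_mul_of_nonneg_left (Real.one_le_exp ?_) (by positivity)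
    have h1 := (abs_le.1 (hdiv z)).1
    have h2 : 0 ≤ 4 * η ^ 2 * n := by positivity
    linarith
  have step : ∀ z : Fin m × Bool, ∑ a ∈ nx z,
      Real.exp (sg c a + sg c a / (2 * m - 2) - sg c z / (2 * m - 2)) ≤
        (2 * m - 1) * Real.exp (4 * η ^ 2) := by
    intro z
    have h1 : ∀ a ∈ nx z, Real.exp (sg c a + sg c a / (2 * m - 2) - sg c z / (2 * m - 2)) ≤
        (1 + 4 * η ^ 2) + (sg c a + sg c a / (2 * m - 2) - sg c z / (2 * m - 2)) := by
      intro a _
      have a1 := abs_le.1 (hsg a)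
      have a2 := abs_le.1 (hdiv a)
      have a3 := abs_le.1 (hdiv z)
      generalize hX : sg c a + sg c a / (2 * m - 2) - sg c z / (2 * m - 2) = X
      have a4 : |X| ≤ 2 * η := abs_le.2 ⟨by linarith, by linarith⟩
      have a5 := (abs_le.1 (Real.abs_exp_sub_one_sub_id_le (a4.trans hη))).2
      have a6 : X ^ 2 ≤ (2 * η) ^ 2 := by
        rw [← sq_abs]; exact pow_le_pow_left₀ (abs_nonneg _) a4 2
      nlinarith
    refine (sum_le_sum h1).trans ?_
    rw [sum_add_distrib, sum_const, sum_sub_distrib, sum_const, sum_add_distrib, ← sum_div,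
      sum_sg_nx, nsmul_eq_mul, nsmul_eq_mul, card_nx]
    have h2 : sg c z + sg c z / (2 * m - 2) - (2 * m - 1) * (sg c z / (2 * m - 2)) = 0 := by
      have h4 := mul_div_cancel₀ (sg c z) hd.ne'
      linarith
    have h3 := Real.add_one_le_exp (4 * η ^ 2)
    rw [h2, add_zero]
    exact mul_le_mul_of_nonneg_left (by linarith) hq
  intro n
  induction n with
  | zero =>
    intro k z
    have := base 0 z
    simpa [EZ_zero] using this
  | succ n ih =>
    intro k z
    cases k with
    | zero =>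
      simp only [List.take_zero, wsum_nil, Real.exp_zero, EZ_const]
      exact base _ z
    | succ k =>
      rw [EZ_succ]
      simp only [List.take_succ_cons, wsum_cons, Real.exp_add]
      calc _ ≤ ∑ a ∈ nx z, ((2 * m - 1) ^ n * Real.exp (sg c z / (2 * m - 2) + η + 4 * η ^ 2 * n)) *
            Real.exp (sg c a + sg c a / (2 * m - 2) - sg c z / (2 * m - 2)) := by
            refine sum_le_sum fun a _ => ?_
            unfold EZ
            rw [EP_mul]
            refine (mul_le_mul_of_nonneg_left (ih k a) (Real.exp_pos _).le).trans (le_of_eq ?_)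
            rw [mul_left_comm, ← Real.exp_add, mul_assoc ((2 * m - 1 : ℝ) ^ n), ← Real.exp_add]
            congr 2
            ring
        _ ≤ ((2 * m - 1) ^ n * Real.exp (sg c z / (2 * m - 2) + η + 4 * η ^ 2 * n)) *
            ((2 * m - 1) * Real.exp (4 * η ^ 2)) := by
            rw [← mul_sum]
            exact mul_le_mul_of_nonneg_left (step z) (by positivity)
        _ = _ := by
            rw [← Real.exp_add, ← Real.exp_add, mul_mul_mul_comm, ← pow_succ, ← Real.exp_add]
            congr 2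
            push_cast
            ring

open Classical in
theorem tail_oneZ (hm : 2 ≤ m) (c : Fin m → ℝ) (H s t : ℝ) (hH : 0 < H) (hs : 1 ≤ s)
    (hc : ∀ i, 2 * |c i| ≤ H) (n : ℕ) (hn : n ≤ s ^ 2) (z : Fin m × Bool) :
    EZ z n (fun w => if ∃ k ≤ n, t * (H * s) ≤ |wsum c (w.take k)| then 1 else 0) ≤
      (n + 1) * (2 * Real.exp 2 * Real.exp (-t)) * (2 * m - 1) ^ n := by
  have hm' : (2 : ℝ) ≤ m := by exact_mod_cast hm
  have hq : (0 : ℝ) ≤ 2 * m - 1 := by linarith
  have hs0 : 0 < s := by linarith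
  have hHs : 0 < H * s := by positivity
  have key : ∀ e : ℝ, |e| = 1 → ∀ k, EZ z n (fun w => Real.exp (e / (H * s) * wsum c (w.take k))) ≤
      (2 * m - 1) ^ n * Real.exp 2 := by
    intro e he k
    have h0 : ∀ i, |e / (H * s) * c i| ≤ 1 / (2 * s) := by
      intro i
      rw [abs_mul, abs_div, he, abs_of_pos hHs, one_div_mul_eq_div,
        div_le_div_iff₀ hHs (by positivity)]
      have := hc i
      nlinarith
    have h4 : 1 / (2 * s) ≤ 1 / 2 := one_div_le_one_div_of_le (by norm_num) (by linarith)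
    have h1 := EZ_exp_take hm (fun i => e / (H * s) * c i) (1 / (2 * s)) (by linarith) h0 n k z
    have h3 : ∀ w, wsum (fun i => e / (H * s) * c i) w = e / (H * s) * wsum c w := fun w =>
      (map_wsum (AddMonoidHom.mulLeft (e / (H * s))) c w).symm
    simp only [h3] at h1
    refine h1.trans (mul_le_mul_of_nonneg_left (Real.exp_le_exp.2 ?_) (by positivity))
    have h5 : sg (fun i => e / (H * s) * c i) z ≤ 1 / 2 := by
      have := abs_le.1 ((h0 z.1).trans h4)
      unfold sg
      split_ifs <;> linarith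
    have h6 : sg (fun i => e / (H * s) * c i) z / (2 * m - 2) ≤ 1 / 2 := by
      rw [div_le_iff₀ (by linarith)]
      linarith
    have h7 : 4 * (1 / (2 * s)) ^ 2 * n ≤ 1 := by
      have : 4 * (1 / (2 * s)) ^ 2 * n = n / s ^ 2 := by field_simp; ring
      rw [this, div_le_one (by positivity)]
      exact hn
    linarith
  unfold EZ at key ⊢
  calc _ ≤ EP (fun w => FreeGroup.IsReduced (z :: w)) n fun w => ∑ k ∈ range (n + 1),
        Real.exp (-t) * (Real.exp (1 / (H * s) * wsum c (w.take k)) +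
          Real.exp (-1 / (H * s) * wsum c (w.take k))) := by
        refine EP_mono fun w _ _ => ?_
        split_ifs with h
        · obtain ⟨k, hk, h⟩ := h
          refine le_trans ?_ (single_le_sum (f := fun k => Real.exp (-t) *
            (Real.exp (1 / (H * s) * wsum c (w.take k)) +
              Real.exp (-1 / (H * s) * wsum c (w.take k)))) (fun _ _ => by positivity)
            (mem_range.2 (Nat.lt_succ_of_le hk)))
          rw [mul_add, ← Real.exp_add, ← Real.exp_add]
          rw [← le_div_iff₀ hHs] at h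
          rcases le_total 0 (wsum c (w.take k)) with h0 | h0
          · rw [abs_of_nonneg h0] at h
            have : 1 ≤ Real.exp (-t + 1 / (H * s) * wsum c (w.take k)) :=
              Real.one_le_exp (by rw [one_div_mul_eq_div]; linarith)
            linarith [Real.exp_pos (-t + -1 / (H * s) * wsum c (w.take k))]
          · rw [abs_of_nonpos h0] at h
            have : 1 ≤ Real.exp (-t + -1 / (H * s) * wsum c (w.take k)) :=
              Real.one_le_exp (by
                rw [show -1 / (H * s) * wsum c (w.take k) = -wsum c (w.take k) / (H * s) by ring]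
                linarith)
            linarith [Real.exp_pos (-t + 1 / (H * s) * wsum c (w.take k))]
        · positivity
    _ ≤ ∑ _k ∈ range (n + 1), Real.exp (-t) * (2 * ((2 * m - 1) ^ n * Real.exp 2)) := by
        rw [EP_sum]
        refine sum_le_sum fun k _ => ?_
        rw [EP_mul, EP_add]
        have h1 := key 1 (by norm_num) k
        have h2 := key (-1) (by norm_num) k
        gcongr
        linarith
    _ = _ := by simp; ring

open Classical in
theorem tail_boundZ {r : ℕ} (hm : 2 ≤ m) (hr : 1 ≤ r) (mv : Fin m → Fin r → ℤ) (a q : ℕ)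
    (ha : 1 ≤ a) :
    ∃ Cq : ℝ, 0 ≤ Cq ∧ ∀ (n y s : ℕ) (z : Fin m × Bool), 1 ≤ y → 1 ≤ s → n ≤ s ^ 2 →
      EZ z n (fun w =>
        if ∃ k ≤ n, y * s ≤ a * (∑ j, (wsum mv (w.take k) j).natAbs + 1) then 1 else 0) *
        (y : ℝ) ^ q ≤ Cq * ((n + 1) * (2 * m - 1) ^ n) := by
  have hm' : (2 : ℝ) ≤ m := by exact_mod_cast hm
  have hq : (0 : ℝ) ≤ 2 * m - 1 := by linarith
  obtain ⟨H, hH1, hH⟩ : ∃ H : ℝ, 1 ≤ H ∧ ∀ i j, 2 * |(mv i j : ℝ)| ≤ H := by
    obtain ⟨M, hM⟩ := (Set.finite_range fun x : Fin m × Fin r => 2 * |(mv x.1 x.2 : ℝ)|).bddAbove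
    exact ⟨max M 1, le_max_right _ _, fun i j => (hM ⟨(i, j), rfl⟩).trans (le_max_left _ _)⟩
  have hr' : (1 : ℝ) ≤ r := by exact_mod_cast hr
  have ha' : (1 : ℝ) ≤ a := by exact_mod_cast ha
  set b : ℝ := a * r * H with hb
  have hb0 : 0 < b := by positivity
  refine ⟨r * (2 * Real.exp 2 * (Real.exp 1 * (q.factorial * b ^ q))), by positivity, ?_⟩
  intro n y s z hy hs hn
  have hy' : (1 : ℝ) ≤ y := by exact_mod_cast hy
  have hs' : (1 : ℝ) ≤ s := by exact_mod_cast hs
  have h1 : EZ z n (fun w => if ∃ k ≤ n, y * s ≤ a * (∑ j, (wsum mv (w.take k) j).natAbs + 1)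
      then (1 : ℝ) else 0) ≤ EZ z n fun w => ∑ j : Fin r,
        if ∃ k ≤ n, (y / b - 1) * (H * s) ≤ |wsum (fun i => (mv i j : ℝ)) (w.take k)|
        then 1 else 0 := by
    refine EP_mono fun w _ _ => ?_
    split_ifs with h
    · obtain ⟨k, hk, h⟩ := h
      obtain ⟨j, -, hj⟩ := exists_max_image univ (fun j => (wsum mv (w.take k) j).natAbs)
        ⟨⟨0, hr⟩, mem_univ _⟩
      have h2 : ∑ j, (wsum mv (w.take k) j).natAbs ≤ r * (wsum mv (w.take k) j).natAbs :=
        (sum_le_card_nsmul _ _ _ hj).trans (by simp)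
      refine le_trans ?_ (single_le_sum (f := fun j : Fin r =>
        if ∃ k ≤ n, (y / b - 1) * (H * s) ≤ |wsum (fun i => (mv i j : ℝ)) (w.take k)|
        then (1 : ℝ) else 0) (fun _ _ => by positivity) (mem_univ j))
      rw [if_pos]
      refine ⟨k, hk, ?_⟩
      have e : wsum (fun i => (mv i j : ℝ)) (w.take k) = ((wsum mv (w.take k) j : ℤ) : ℝ) :=
        (map_wsum ((Int.castAddHom ℝ).comp (Pi.evalAddMonoidHom (fun _ : Fin r => ℤ) j)) mv _).symm
      rw [e, ← Int.cast_abs, Int.abs_eq_natAbs, Int.cast_natCast]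
      generalize (wsum mv (w.take k) j).natAbs = x at *
      have h3 : (y : ℝ) * s ≤ a * (r * x + 1) := by
        have : y * s ≤ a * (r * x + 1) := h.trans (by gcongr)
        exact_mod_cast this
      have h4 : (y / b - 1) * (H * s) = y * s / (a * r) - H * s := by
        rw [hb]; field_simp
      have h5 : (y : ℝ) * s / (a * r) ≤ x + 1 := by
        rw [div_le_iff₀ (by positivity)]
        nlinarith
      have h6 : 1 ≤ H * s := by nlinarith
      linarith
    · positivity
  have h1' : (EZ z n fun w => ∑ j : Fin r,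
        if ∃ k ≤ n, (y / b - 1) * (H * s) ≤ |wsum (fun i => (mv i j : ℝ)) (w.take k)|
        then 1 else 0) = ∑ j : Fin r, EZ z n fun w =>
        if ∃ k ≤ n, (y / b - 1) * (H * s) ≤ |wsum (fun i => (mv i j : ℝ)) (w.take k)|
        then 1 else 0 := EP_sum _ _ _
  rw [h1'] at h1
  have h2 := (sum_le_card_nsmul univ _ _ fun j _ => tail_oneZ hm (fun i => (mv i j : ℝ)) H s
    (y / b - 1) (by linarith) hs' (fun i => hH i j) n (by exact_mod_cast hn) z)
  have h3 : Real.exp (-(y / b - 1)) * (y : ℝ) ^ q ≤ Real.exp 1 * (q.factorial * b ^ q) := by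
    have h4 := Real.pow_div_factorial_le_exp (y / b) (by positivity) q
    rw [neg_sub, Real.exp_sub, div_mul_eq_mul_div, div_le_iff₀ (Real.exp_pos _), mul_assoc]
    gcongr
    rw [div_pow, div_div, div_le_iff₀ (by positivity)] at h4
    linarith
  simp only [card_univ, Fintype.card_fin, nsmul_eq_mul] at h2
  calc _ ≤ (r * ((n + 1) * (2 * Real.exp 2 * Real.exp (-(y / b - 1))) * (2 * m - 1) ^ n)) *
        (y : ℝ) ^ q := mul_le_mul_of_nonneg_right (h1.trans h2) (by positivity)
    _ = r * (2 * Real.exp 2 * (Real.exp (-(y / b - 1)) * (y : ℝ) ^ q)) *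
        ((n + 1) * (2 * m - 1) ^ n) := by ring
    _ ≤ _ := by gcongr

end Pool.Agent.Lib.MP_2ec175_al
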