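import Pool.Agent.Lib.MP_2ec175_al.Nb1

/-!
Anti-concentration in several dimensions for freely reduced random words.
-/

set_option autoImplicit false
set_option linter.unusedSectionVars false

namespace Pool.Agent.Lib.MP_2ec175_al

open Finset

variable {m : ℕ}

theorem triple_le (z a : Fin m × Bool) (i0 : Fin m) (ha : a ∈ nx z) (hi : a.1 ≠ i0)
    (g : Fin m × Bool → Fin m × Bool → Fin m × Bool → ℝ) (M : ℝ) (hg : ∀ b c d, g b c d ≤ M) :
    ∑ b ∈ nx z, ∑ c ∈ nx b, ∑ d ∈ nx c, g b c d ≤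
      ((2 * m - 1) ^ 3 - 2) * M + (g a (i0, true) a + g a (i0, false) a) := by
  have e1 : ∑ b ∈ nx z, ∑ c ∈ nx b, ∑ d ∈ nx c, (M - g b c d) =
      (2 * m - 1) ^ 3 * M - ∑ b ∈ nx z, ∑ c ∈ nx b, ∑ d ∈ nx c, g b c d := by
    simp only [sum_sub_distrib, sum_const, nsmul_eq_mul, card_nx]
    ring
  have p0 : ∀ b c d, 0 ≤ M - g b c d := fun b c d => sub_nonneg.2 (hg b c d)
  have e2 : ∑ c ∈ nx a, ∑ d ∈ nx c, (M - g a c d) ≤
      ∑ b ∈ nx z, ∑ c ∈ nx b, ∑ d ∈ nx c, (M - g b c d) :=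
    single_le_sum (f := fun b => ∑ c ∈ nx b, ∑ d ∈ nx c, (M - g b c d))
      (fun b _ => sum_nonneg fun c _ => sum_nonneg fun d _ => p0 b c d) ha
  have e3 : ∑ c ∈ ({(i0, true), (i0, false)} : Finset (Fin m × Bool)), ∑ d ∈ nx c, (M - g a c d) ≤
      ∑ c ∈ nx a, ∑ d ∈ nx c, (M - g a c d) := by
    refine sum_le_sum_of_subset_of_nonneg (fun c hc => ?_)
      fun c _ _ => sum_nonneg fun d _ => p0 a c d
    rw [mem_nx]
    intro h
    simp only [mem_insert, mem_singleton] at hc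
    rcases hc with rfl | rfl <;> exact absurd h hi
  rw [sum_pair (by simp)] at e3
  have e4 : ∀ s : Bool, M - g a (i0, s) a ≤ ∑ d ∈ nx (i0, s), (M - g a (i0, s) d) := fun s =>
    single_le_sum (f := fun d => M - g a (i0, s) d) (fun d _ => p0 _ _ d)
      (mem_nx.2 fun h => absurd h.symm hi)
  have := e4 true
  have := e4 false
  linarith

section Anti

variable {J : Type} [Fintype J] [DecidableEq J] (h : Fin m → J → ℚ)

open Classical in
/-- The number of words reduced after `z` whose signed sum agrees with `x` on `S`. -/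
noncomputable def cntZ (z : Fin m × Bool) (n : ℕ) (S : Finset J) (x : J → ℚ) : ℝ :=
  EZ z n fun w => if ∀ j ∈ S, wsum h w j = x j then 1 else 0

theorem cntZ_nonneg (z : Fin m × Bool) (n : ℕ) (S : Finset J) (x : J → ℚ) :
    0 ≤ cntZ h z n S x := by
  unfold cntZ EZ
  exact EP_nonneg fun _ => by positivity

theorem cntZ_succ (z : Fin m × Bool) (n : ℕ) (S : Finset J) (x : J → ℚ) :
    cntZ h z (n + 1) S x = ∑ a ∈ nx z, cntZ h a n S (x - sg h a) := by
  unfold cntZ
  rw [EZ_succ]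
  refine sum_congr rfl fun a _ => ?_
  congr 1
  funext w
  simp only [wsum_cons, Pi.add_apply, Pi.sub_apply, eq_sub_iff_add_eq']

theorem cntZ_fiber (z : Fin m × Bool) (n : ℕ) (S : Finset J) (j : J) (hj : j ∉ S) (x : J → ℚ)
    (k : ℕ) : ∑ i ∈ range (k + 1), cntZ h z n (insert j S) (x - Pi.single j (2 * i - k : ℚ)) ≤
      cntZ h z n S x := by
  unfold cntZ EZ
  rw [← EP_sum]
  refine EP_mono fun w _ _ => ?_
  have e : ∀ i : ℕ, (∀ j' ∈ insert j S, wsum h w j' = (x - Pi.single j (2 * i - k : ℚ) : J → ℚ) j') ↔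
      wsum h w j = x j - (2 * i - k) ∧ ∀ j' ∈ S, wsum h w j' = x j' := by
    intro i
    rw [forall_mem_insert]
    refine and_congr (by simp) (forall₂_congr fun j' hj' => ?_)
    have : j' ≠ j := fun e => hj (e ▸ hj')
    simp [this]
  simp only [e]
  by_cases hS : ∀ j' ∈ S, wsum h w j' = x j'
  · rw [if_pos hS, sum_boole]
    norm_cast
    refine card_le_one.2 fun a ha b hb => ?_
    have h1 := (mem_filter.1 ha).2.1
    have h2 := (mem_filter.1 hb).2.1
    rw [h1] at h2
    have : (a : ℚ) = b := by push_cast at h2; linarith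
    exact_mod_cast this
  · simp [hS]

theorem cntZ_step (hm : 2 ≤ m) (n : ℕ) (S : Finset J) (j : J) (hj : j ∉ S) (i0 : Fin m)
    (h0 : h i0 = Pi.single j 1) (c : ℝ) (hc : ∀ z x, cntZ h z n S x ≤ c) :
    ∀ (L k : ℕ) (z : Fin m × Bool) (x : J → ℚ), ∑ i ∈ range (k + 1),
      (k.choose i : ℝ) * cntZ h z (n + 3 * L) (insert j S) (x - Pi.single j (2 * i - k : ℚ)) ≤
        c * (2 ^ k * ((2 * m - 1) ^ 3) ^ L * (1 / √(k + 1 + L * (1 / (2 * m - 1) ^ 3)))) := by
  have hm' : (2 : ℝ) ≤ m := by exact_mod_cast hm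
  have hc0 : 0 ≤ c := (cntZ_nonneg h (i0, true) n S 0).trans (hc _ 0)
  have hQ : (2 : ℝ) ≤ (2 * m - 1) ^ 3 :=
    le_trans (by norm_num) (pow_le_pow_left₀ (by norm_num) (by linarith : (3 : ℝ) ≤ 2 * m - 1) 3)
  obtain ⟨i1, hi1⟩ : ∃ i1 : Fin m, i1 ≠ i0 := by
    have : Nontrivial (Fin m) := Fin.nontrivial_iff_two_le.2 hm
    exact exists_ne i0
  intro L
  induction L with
  | zero =>
    intro k z x
    calc _ ≤ ∑ i ∈ range (k + 1), (2 ^ k / √(k + 1)) *
          cntZ h z n (insert j S) (x - Pi.single j (2 * i - k : ℚ)) :=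
          sum_le_sum fun i _ => mul_le_mul_of_nonneg_right (choose_le_div_sqrt k i)
            (cntZ_nonneg _ _ _ _ _)
      _ ≤ (2 ^ k / √(k + 1)) * c := by
          rw [← mul_sum]
          exact mul_le_mul_of_nonneg_left ((cntZ_fiber h z n S j hj x k).trans (hc z x))
            (by positivity)
      _ = _ := by simp; ring
  | succ L ih =>
    intro k z x
    let G : ℕ → Fin m × Bool → (J → ℚ) → ℝ := fun k z x => ∑ i ∈ range (k + 1),
      (k.choose i : ℝ) * cntZ h z (n + 3 * L) (insert j S) (x - Pi.single j (2 * i - k : ℚ))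
    have e1 : ∑ i ∈ range (k + 1), (k.choose i : ℝ) *
        cntZ h z (n + 3 * (L + 1)) (insert j S) (x - Pi.single j (2 * i - k : ℚ)) =
        ∑ b ∈ nx z, ∑ c ∈ nx b, ∑ d ∈ nx c, G k d (x - sg h b - sg h c - sg h d) := by
      rw [show n + 3 * (L + 1) = n + 3 * L + 1 + 1 + 1 by ring]
      simp only [cntZ_succ, mul_sum, G]
      rw [sum_comm]
      refine sum_congr rfl fun b _ => ?_
      rw [sum_comm]
      refine sum_congr rfl fun c _ => ?_
      rw [sum_comm]
      refine sum_congr rfl fun d _ => sum_congr rfl fun i _ => ?_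
      congr 2
      abel
    have ha : ((i1, z.2) : Fin m × Bool) ∈ nx z := mem_nx.2 fun _ => rfl
    generalize ha' : ((i1, z.2) : Fin m × Bool) = a at ha
    have hai : a.1 ≠ i0 := by rw [← ha']; exact hi1
    have e2 : G k a (x - sg h a - sg h (i0, true) - sg h a) +
        G k a (x - sg h a - sg h (i0, false) - sg h a) = G (k + 1) a (x - sg h a - sg h a) := by
      simp only [G]
      have e := sum_choose_succ_mul (fun (i _ : ℕ) => cntZ h a (n + 3 * L) (insert j S)
        (x - sg h a - sg h a - Pi.single j (2 * i - (k + 1 : ℕ) : ℚ))) k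
      rw [e, add_comm]
      generalize sg h a = u
      congr 1
      · refine sum_congr rfl fun i _ => ?_
        congr 2
        funext j'
        by_cases hj' : j' = j
        · subst hj'; simp [sg, h0]; ring
        · simp [sg, h0, hj']
      · refine sum_congr rfl fun i _ => ?_
        congr 2
        funext j'
        by_cases hj' : j' = j
        · subst hj'; simp [sg, h0]; ring
        · simp [sg, h0, hj']
    have e3 := triple_le z a i0 ha hai (fun b c d => G k d (x - sg h b - sg h c - sg h d)) _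
      fun b c d => ih k d _
    rw [e1]
    refine e3.trans ?_
    rw [e2]
    have e4 := ih (k + 1) a (x - sg h a - sg h a)
    generalize ((2 * m - 1 : ℝ) ^ 3) = Q at *
    have hQ0 : 0 < Q := by linarith
    have e5 := mix_ineq (2 / Q) (k + 1 + L * (1 / Q)) (by positivity)
      (by rw [div_le_one hQ0]; exact hQ)
      (by have : (0 : ℝ) ≤ k + L * (1 / Q) := by positivity
          linarith)
    have e6 : ((k + 1 : ℕ) : ℝ) + 1 + L * (1 / Q) = k + 1 + L * (1 / Q) + 1 := by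
      push_cast; ring
    have e7 : (k : ℝ) + 1 + (L + 1 : ℕ) * (1 / Q) = k + 1 + L * (1 / Q) + 2 / Q / 2 := by
      push_cast; ring
    rw [e6] at e4
    rw [e7]
    refine (add_le_add le_rfl e4).trans ?_
    generalize 1 / √((k : ℝ) + 1 + L * (1 / Q)) = A at *
    generalize 1 / √((k : ℝ) + 1 + L * (1 / Q) + 1) = B at *
    generalize 1 / √((k : ℝ) + 1 + L * (1 / Q) + 2 / Q / 2) = C at *
    calc (Q - 2) * (c * (2 ^ k * Q ^ L * A)) + c * (2 ^ (k + 1) * Q ^ L * B)
        = c * (2 ^ k * Q ^ (L + 1) * ((1 - 2 / Q) * A + 2 / Q * B)) := by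
          field_simp
          ring
      _ ≤ _ := by gcongr

theorem cntZ_prod (hm : 2 ≤ m) (ι : J → Fin m) (hι : ∀ j, h (ι j) = Pi.single j 1) (n L : ℕ)
    (S : Finset J) : ∀ z x, cntZ h z (n + S.card * (3 * L)) S x ≤
      (2 * m - 1) ^ (n + S.card * (3 * L)) * (1 / √(1 + L * (1 / (2 * m - 1) ^ 3))) ^ S.card := by
  induction S using Finset.induction_on with
  | empty =>
    intro z x
    simp [cntZ, EZ_const]
  | insert j S hj ih =>
    intro z x
    have := cntZ_step h hm _ S j hj (ι j) (hι j) _ ih L 0 z x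
    simp only [zero_add, range_one, sum_singleton, Nat.choose_self, Nat.cast_one, one_mul,
      CharP.cast_eq_zero, mul_zero, Pi.single_zero, sub_zero, pow_zero] at this
    rw [card_insert_of_notMem hj, Nat.succ_mul, ← add_assoc]
    refine this.trans (le_of_eq ?_)
    rw [← pow_mul, pow_add _ (n + S.card * (3 * L)), pow_succ _ S.card]
    ring

theorem anti_concentrationZ (hm : 2 ≤ m) (ι : J → Fin m) (hι : ∀ j, h (ι j) = Pi.single j 1)
    (A : ℝ) (hA : 0 ≤ A) :
    ∃ Cp : ℝ, 0 ≤ Cp ∧ ∀ (n : ℕ) (s : ℝ) (z : Fin m × Bool), 0 ≤ s → s ^ 2 ≤ A * (n + 1) →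
      cntZ h z n univ 0 * s ^ Fintype.card J ≤ Cp * (2 * m - 1) ^ n := by
  have hm' : (2 : ℝ) ≤ m := by exact_mod_cast hm
  have hq : (1 : ℝ) ≤ 2 * m - 1 := by linarith
  have hQ : (1 : ℝ) ≤ (2 * m - 1) ^ 3 := one_le_pow₀ hq
  refine ⟨√(A * ((2 * m - 1) ^ 3 * (Fintype.card J * 3))) ^ Fintype.card J, by positivity,
    fun n s z hs0 hs => ?_⟩
  rcases isEmpty_or_nonempty J with hJ | ⟨⟨j0⟩⟩
  · simp [cntZ, EZ_const]
  have hr : 0 < Fintype.card J := Fintype.card_pos_iff.2 ⟨j0⟩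
  have h1 := cntZ_prod h hm ι hι (n % (Fintype.card J * 3)) (n / (Fintype.card J * 3)) univ z 0
  rw [card_univ, ← mul_assoc, Nat.mod_add_div] at h1
  generalize Fintype.card J = r at *
  have h2 : (n : ℝ) + 1 ≤ (r * 3) * ((n / (r * 3) : ℕ) + 1) := by
    have := Nat.lt_mul_div_succ n (show 0 < r * 3 by omega)
    exact_mod_cast this
  generalize n / (r * 3) = L at *
  have hL : (0 : ℝ) ≤ L := Nat.cast_nonneg _
  generalize ((2 * m - 1 : ℝ) ^ 3) = Q at *
  have hQ0 : 0 < Q := by linarith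
  have h3 : 1 / √(1 + L * (1 / Q)) * s ≤ √(A * (Q * (r * 3))) := by
    rw [one_div_mul_eq_div, div_le_iff₀ (Real.sqrt_pos.2 (by positivity)),
      ← Real.sqrt_mul (by positivity)]
    refine Real.le_sqrt_of_sq_le (hs.trans ?_)
    rw [mul_assoc A]
    gcongr
    refine h2.trans ?_
    have : Q * (r * 3) * (1 + L * (1 / Q)) = (r * 3) * (L + Q) := by field_simp; ring
    rw [this]
    gcongr
  calc _ ≤ ((2 * m - 1) ^ n * (1 / √(1 + L * (1 / Q))) ^ r) * s ^ r := by gcongr
    _ = (1 / √(1 + L * (1 / Q)) * s) ^ r * (2 * m - 1) ^ n := by rw [mul_pow]; ring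
    _ ≤ _ := by gcongr

end Anti

end Pool.Agent.Lib.MP_2ec175_al
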