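import Pool.Agent.Lib.MP_2ec175_al.Main
import Pool.Agent.Lib.MP_2ec175_al.Nb2

/-!
The word problem of a finitely generated metabelian group has linear average time over freely
reduced words.
-/

set_option autoImplicit false
set_option linter.unusedSectionVars false

namespace Pool.Agent.Lib.MP_2ec175_al

open Function Finset

open Classical in
theorem pass_boundZ {m r : ℕ} (hm : 2 ≤ m) (mv : Fin m → Fin r → ℤ) (hmv : ∀ z, ∃ w, wsum mv w = z) (A : ℝ)
    (hA : 0 ≤ A) :
    ∃ Cp : ℝ, 0 ≤ Cp ∧ ∀ (n : ℕ) (s : ℝ) (z : Fin m × Bool), 0 ≤ s → s ^ 2 ≤ A * (n + 1) →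
      EZ z n (fun w => if wsum mv w = 0 then 1 else 0) * s ^ r ≤ Cp * (2 * m - 1) ^ n := by
  let c : (Fin r → ℤ) →+ (Fin r → ℚ) := AddMonoidHom.compLeft (Int.castAddHom ℚ) (Fin r)
  let v : Fin m → Fin r → ℚ := fun i => c (mv i)
  have hspan : Submodule.span ℚ (Set.range v) = ⊤ := by
    have h1 : ∀ w, wsum v w ∈ Submodule.span ℚ (Set.range v) := by
      intro w
      induction w with
      | nil => simp
      | cons a w ih =>
        rw [wsum_cons]
        refine Submodule.add_mem _ ?_ ih
        have := Submodule.subset_span (R := ℚ) (Set.mem_range_self (f := v) a.1)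
        unfold sg
        split_ifs
        · exact this
        · exact Submodule.neg_mem _ this
    rw [eq_top_iff, ← (Pi.basisFun ℚ (Fin r)).span_eq, Submodule.span_le]
    rintro _ ⟨j, rfl⟩
    obtain ⟨w, hw⟩ := hmv (Pi.single j 1)
    have : Pi.basisFun ℚ (Fin r) j = wsum v w := by
      rw [← map_wsum c mv w, hw]
      funext i
      simp [c, Pi.single_apply]
    rw [this]
    exact h1 w
  obtain ⟨J, ι, hι, h1, h2⟩ := exists_linearIndependent' ℚ v
  have : Finite J := Finite.of_injective ι hι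
  let _ : Fintype J := Fintype.ofFinite J
  let b : Module.Basis J ℚ (Fin r → ℚ) := Module.Basis.mk h2 (by rw [h1, hspan])
  have hcard : Fintype.card J = r := by
    rw [← Module.finrank_eq_card_basis b]; simp
  obtain ⟨Cp, hCp, h3⟩ := anti_concentrationZ (fun i => b.equivFun (v i)) hm ι (fun j => by
    have : v (ι j) = b j := by simp [b]
    rw [this]
    funext j'
    simp [Pi.single_apply, eq_comm]) A hA
  refine ⟨Cp, hCp, fun n s z hs0 hs => le_trans ?_ (h3 n s z hs0 hs)⟩
  rw [hcard]
  unfold cntZ EZ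
  refine mul_le_mul_of_nonneg_right (EP_mono fun w _ _ => ?_) (by positivity)
  split_ifs with h4 h5
  · exact le_rfl
  · exfalso
    apply h5
    intro j _
    have := map_wsum (b.equivFun.toLinearMap.toAddMonoidHom.comp c) mv w
    rw [h4, map_zero] at this
    exact (congrFun this j).symm
  · exact zero_le_one
  · exact le_rfl

theorem pos_of_span {m r : ℕ} (hr : 1 ≤ r) (mv : Fin m → Fin r → ℤ)
    (hmv : ∀ z, ∃ w, wsum mv w = z) : ∃ i, mv i ≠ 0 := by
  by_contra hn
  push Not at hn
  obtain ⟨w, hw⟩ := hmv fun _ => 1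
  have h0 : ∀ w, wsum mv w = 0 := by
    intro w
    induction w with
    | nil => rfl
    | cons a w ih => rw [wsum_cons, ih]; simp [sg, hn]
  rw [h0] at hw
  exact absurd (congrFun hw ⟨0, hr⟩) (by simp)

theorem one_letter {r : ℕ} (mv : Fin 1 → Fin r → ℤ) (h : mv 0 ≠ 0) (w : List (Fin 1 × Bool))
    (hw : FreeGroup.IsReduced w) (h0 : wsum mv w = 0) : w = [] := by
  have key : ∀ (l : List (Fin 1 × Bool)) (a : Fin 1 × Bool), FreeGroup.IsReduced (a :: l) →
      wsum mv l = l.length • sg mv a := by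
    intro l
    induction l with
    | nil => intro a _; simp
    | cons b l ih =>
      intro a hab
      obtain ⟨h1, h2⟩ := FreeGroup.isReduced_cons_cons.1 hab
      have h3 : a = b := Prod.ext (Subsingleton.elim _ _) (h1 (Subsingleton.elim _ _))
      subst h3
      rw [wsum_cons, ih a h2, List.length_cons, succ_nsmul']
  cases w with
  | nil => rfl
  | cons a l =>
    exfalso
    rw [wsum_cons, key l a hw, ← succ_nsmul'] at h0
    have h1 : sg mv a = 0 := (smul_eq_zero_iff_right (Nat.succ_ne_zero _)).1 h0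
    apply h
    rcases a with ⟨i, _ | _⟩ <;> simpa [sg, Subsingleton.elim i 0] using h1

open Classical in
theorem pass_boundR {m r : ℕ} (hr : 1 ≤ r) (mv : Fin m → Fin r → ℤ)
    (hmv : ∀ z, ∃ w, wsum mv w = z) (A : ℝ) (hA : 0 ≤ A) :
    ∃ Cp : ℝ, 0 ≤ Cp ∧ ∀ (n : ℕ) (s : ℝ), 0 ≤ s → s ^ 2 ≤ A * (n + 1) →
      EP FreeGroup.IsReduced n (fun w => if wsum mv w = 0 then 1 else 0) * s ^ r ≤
        Cp * EP FreeGroup.IsReduced n fun _ : List (Fin m × Bool) => 1 := by
  obtain ⟨i, hi⟩ := pos_of_span hr mv hmv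
  have hm0 : 0 < m := i.pos
  rcases Nat.lt_or_ge m 2 with hm | hm
  · obtain rfl : m = 1 := by omega
    refine ⟨√A ^ r, by positivity, fun n s hs0 hs => ?_⟩
    rw [mul_comm, ← EP_mul, ← EP_mul]
    refine EP_mono fun w hw hred => ?_
    split_ifs with h0
    · have h1 := one_letter mv (Subsingleton.elim i 0 ▸ hi) w hred h0
      subst h1
      subst hw
      have h2 : s ≤ √A := Real.le_sqrt_of_sq_le (by simpa using hs)
      gcongr
    · rw [mul_zero]; positivity
  · obtain ⟨Cp, h0, h1⟩ := pass_boundZ hm mv hmv A hA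
    refine ⟨2 * m * Cp, by positivity, fun n s hs0 hs => ?_⟩
    rw [mul_comm, ← EP_mul]
    refine (ER_le hm0 n (fun w => by positivity) (B := Cp * (2 * m - 1) ^ n) fun z => ?_).trans ?_
    · have := h1 n s z hs0 hs
      unfold EZ at this ⊢
      rw [EP_mul, mul_comm]
      exact this
    · rw [← mul_assoc]
      exact mul_le_mul_of_nonneg_left (le_ER hm0 n) (by positivity)

open Classical in
theorem tail_boundR {m r : ℕ} (hr : 1 ≤ r) (mv : Fin m → Fin r → ℤ)
    (hmv : ∀ z, ∃ w, wsum mv w = z) (a q : ℕ) (ha : 1 ≤ a) :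
    ∃ Cq : ℝ, 0 ≤ Cq ∧ ∀ n y s : ℕ, 1 ≤ y → 1 ≤ s → n ≤ s ^ 2 →
      EP FreeGroup.IsReduced n (fun w => if wsum mv w = 0 ∧
        ∃ k ≤ n, y * s ≤ a * (∑ j, (wsum mv (w.take k) j).natAbs + 1) then 1 else 0) *
        (y : ℝ) ^ q ≤ Cq * ((n + 1) * EP FreeGroup.IsReduced n fun _ : List (Fin m × Bool) => 1) := by
  obtain ⟨i, hi⟩ := pos_of_span hr mv hmv
  have hm0 : 0 < m := i.pos
  rcases Nat.lt_or_ge m 2 with hm | hm
  · obtain rfl : m = 1 := by omega
    refine ⟨(a : ℝ) ^ q, by positivity, fun n y s hy hs hn => ?_⟩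
    rw [mul_comm, ← EP_mul, ← EP_mul, ← EP_mul]
    refine EP_mono fun w hw hred => ?_
    split_ifs with h0
    · have h1 := one_letter mv (Subsingleton.elim i 0 ▸ hi) w hred h0.1
      subst h1
      subst hw
      obtain ⟨-, k, -, hk⟩ := h0
      have h2 : y ≤ a := by
        have h3 : y * s ≤ a := by simpa using hk
        exact (Nat.le_mul_of_pos_right y hs).trans h3
      have h3 : (y : ℝ) ≤ a := by exact_mod_cast h2
      simp only [List.length_nil, Nat.cast_zero, zero_add, mul_one]
      gcongr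
    · rw [mul_zero]; positivity
  · obtain ⟨Cq, h0, h1⟩ := tail_boundZ hm hr mv a q ha
    refine ⟨2 * m * Cq, by positivity, fun n y s hy hs hn => ?_⟩
    rw [mul_comm, ← EP_mul]
    refine (ER_le hm0 n (fun w => by positivity)
      (B := Cq * ((n + 1) * (2 * m - 1) ^ n)) fun z => ?_).trans ?_
    · refine le_trans ?_ (h1 n y s z hy hs hn)
      unfold EZ
      rw [mul_comm (EP _ _ _), ← EP_mul]
      refine EP_mono fun w _ _ => mul_le_mul_of_nonneg_left ?_ (by positivity)
      split_ifs with h2 h3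
      · exact le_rfl
      · exact absurd h2.2 h3
      · exact zero_le_one
      · exact le_rfl
    · rw [← mul_assoc]
      have := le_ER hm0 n
      gcongr

theorem light_caseP {m : ℕ} {Q H : Type} [AddCommGroup Q] [Fintype Q] [AddCommGroup H]
    (x : Fin m → Q) (φ : Q → Fin m × Bool → H) :
    ∃ (cost : List (Fin m × Bool) → ℕ) (C : ℕ),
      Dec (fun w => wsum x w = 0 ∧ pathSum x φ 0 w = 0) cost ∧
      ∀ w, cost w ≤ C * (w.length + 1) := by
  classical
  let H0 := AddSubgroup.closure (Set.range fun y : Q × (Fin m × Bool) => φ y.1 y.2)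
  have : AddGroup.FG H0 := AddGroup.closure_finite_fg _
  obtain ⟨r, T, i1, i2, ⟨e⟩⟩ := exists_equiv_fg H0
  let φ0 : Q → Fin m × Bool → H0 := fun q a => ⟨φ q a, AddSubgroup.subset_closure ⟨(q, a), rfl⟩⟩
  let θ : Q → Fin m × Bool → (Fin r → ℤ) × T := fun q a => e (φ0 q a)
  let trs : Q × T → Fin m × Bool → Q × T := fun t a => (t.1 + sg x a, t.2 + (θ t.1 a).2)
  let prog : Q × T → Fin m × Bool → List (Op r) := fun t a => movesOf (θ t.1 a).1
  have key : ∀ (w : List (Fin m × Bool)) (t : Q × T),
      w.foldl trs t = (t.1 + wsum x w, t.2 + (pathSum x θ t.1 w).2) ∧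
        disp (opsG trs prog t w) = (pathSum x θ t.1 w).1 := by
    intro w
    induction w with
    | nil => intro t; simp [pathSum, opsG]
    | cons a w ih =>
      intro t
      obtain ⟨h1, h2⟩ := ih (trs t a)
      rw [List.foldl_cons, h1, opsG, disp_append, h2]
      simp [trs, prog, pathSum, disp_movesOf, add_assoc]
  obtain ⟨c, -, hc⟩ := opsG_length trs prog
  have hC : ∀ w : List (Fin m × Bool), 2 * (2 * w.length + 4 * (opsG trs prog (0, 0) w).length + 4) ≤
      (8 + 8 * c) * (w.length + 1) := fun w => by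
    have h1 := hc w (0, 0)
    nlinarith [Nat.zero_le c]
  refine ⟨_, _, (dec_light trs prog (fun t => decide (t = 0)) (0, 0)).congr fun w => ?_, hC⟩
  have h1 : pathSum x θ 0 w = e (pathSum x φ0 0 w) := (map_pathSum x φ0 e.toAddMonoidHom w 0).symm
  have h2 : pathSum x φ 0 w = ((pathSum x φ0 0 w : H0) : H) := (map_pathSum x φ0 H0.subtype w 0).symm
  rw [(key w _).1, (key w _).2, h2]
  simp only [zero_add, decide_eq_true_eq, Prod.mk_eq_zero, ZeroMemClass.coe_eq_zero, and_assoc]
  refine and_congr_right fun _ => ?_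
  rw [← e.map_eq_zero_iff, ← h1, Prod.ext_iff]
  exact and_comm

theorem heavy_caseR {m r : ℕ} (hr : 1 ≤ r) {T H : Type} [AddCommGroup T] [Fintype T]
    [AddCommGroup H] (x : Fin m → (Fin r → ℤ) × T) (φ : (Fin r → ℤ) × T → Fin m × Bool → H)
    (hx : ∀ q, ∃ w, wsum x w = q) :
    ∃ (cost : List (Fin m × Bool) → ℕ) (C : ℝ),
      Dec (fun w => wsum x w = 0 ∧ ∀ z, pathSum x φ (z, 0) w = 0) cost ∧
      ∀ n : ℕ, EP FreeGroup.IsReduced n (fun w => (cost w : ℝ)) ≤
        C * ((n + 1) * EP FreeGroup.IsReduced n fun _ : List (Fin m × Bool) => 1) := by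
  classical
  let i0 : Fin r := ⟨0, hr⟩
  let p := Fintype.card (T × (Fin m × Bool)) + 1
  have hp : 1 ≤ p := Nat.le_add_left _ _
  let idx : T × (Fin m × Bool) → ℕ := fun y => Fintype.equivFin _ y
  have idx_lt : ∀ y, idx y < p := fun y => (Fintype.equivFin _ y).2.trans (Nat.lt_succ_self _)
  have idx_inj : Injective idx := Fin.val_injective.comp (Fintype.equivFin _).injective
  let ψ : (Fin r → ℤ) × (T × (Fin m × Bool)) → Fin r → ℤ := fun y =>
    (p : ℤ) • y.1 + Pi.single i0 (idx y.2 : ℤ)
  have hψ : Injective ψ := by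
    rintro ⟨z, y⟩ ⟨z', y'⟩ h
    have h0 := congrFun h i0
    simp only [ψ, Pi.add_apply, Pi.smul_apply, smul_eq_mul, Pi.single_eq_same] at h0
    have h1 : (idx y : ℤ) < p := by exact_mod_cast idx_lt y
    have h2 : (idx y' : ℤ) < p := by exact_mod_cast idx_lt y'
    have h3 : z i0 = z' i0 := by
      by_contra hne
      rcases lt_or_gt_of_ne hne with hlt | hlt <;> nlinarith [Nat.cast_nonneg (α := ℤ) (idx y),
        Nat.cast_nonneg (α := ℤ) (idx y')]
    have h4 : y = y' := idx_inj (by rw [h3] at h0; omega)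
    subst h4
    simp only [ψ, add_left_inj] at h
    rw [smul_right_injective _ (by omega : (p : ℤ) ≠ 0) h]
  let Φ : (Fin r → ℤ) → H := extend ψ (fun y => φ (y.1, y.2.1) y.2.2) 0
  let Λ : (Fin r → ℤ) → ((Fin r → ℤ) →₀ ℤ) →+ H := fun z =>
    Finsupp.liftAddHom fun y => zmultiplesHom H (Φ (y + (p : ℤ) • z))
  have hΛ : ∀ z y c, Λ z (Finsupp.single y c) = c • Φ (y + (p : ℤ) • z) := by
    intro z y c; simp [Λ]
  let U : AddSubgroup ((Fin r → ℤ) →₀ ℤ) := ⨅ z, (Λ z).ker
  have hUm : ∀ v, v ∈ U ↔ ∀ z, Λ z v = 0 := fun v => by simp [U, AddSubgroup.mem_iInf]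
  have hU : ∀ z : Fin r → ℤ, ∀ v ∈ U, tr ((p : ℤ) • z) v ∈ U := by
    intro z v hv
    rw [hUm] at hv ⊢
    intro z'
    have : (Λ z').comp (Finsupp.mapDomain.addMonoidHom (· + (p : ℤ) • z)) = Λ (z + z') := by
      refine Finsupp.addHom_ext fun y c => ?_
      simp [hΛ, add_assoc]
    exact (DFunLike.congr_fun this v).trans (hv _)
  let mv : Fin m → Fin r → ℤ := fun i => (x i).1
  have hmv : ∀ w, wsum mv w = (wsum x w).1 := fun w => (map_wsum (AddMonoidHom.fst _ _) x w).symm
  have hsg : ∀ a, sg mv a = (sg x a).1 := fun a => (map_sg (AddMonoidHom.fst _ _) x a).symm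
  let trs : T → Fin m × Bool → T := fun t a => t + (sg x a).2
  let prog : T → Fin m × Bool → List (Op r) := fun t a =>
    List.replicate (idx (t, a)) (some (i0, true)) ++
      none :: (List.replicate (idx (t, a)) (some (i0, false)) ++ movesOf ((p : ℤ) • sg mv a))
  have e1 : ∀ n : ℕ, disp (List.replicate n (some (i0, true) : Op r)) = Pi.single i0 (n : ℤ) := by
    intro n
    rw [disp_replicate, mvOp, ← Pi.single_smul']
    simp
  have prog_disp : ∀ t a, disp (prog t a) = (p : ℤ) • sg mv a := by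
    intro t a
    simp only [prog, disp_append, disp_cons, disp_replicate, mvOp, disp_movesOf, if_true,
      Bool.false_eq_true, if_false, Pi.single_neg, smul_neg]
    abel
  have prog_vec : ∀ t a y, vec y (prog t a) = Finsupp.single (y + Pi.single i0 (idx (t, a) : ℤ)) 1 := by
    intro t a y
    simp only [prog]
    rw [vec_append, vec_of_moves _ _ (by simp), zero_add, vec, vec_of_moves, add_zero, e1]
    intro o ho
    simp only [movesOf, List.mem_append, List.mem_replicate, List.mem_flatMap] at ho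
    rcases ho with ⟨-, rfl⟩ | ⟨i, -, -, rfl⟩ <;> simp
  have key1 : ∀ (w : List (Fin m × Bool)) (t : T), w.foldl trs t = t + (wsum x w).2 ∧
      disp (opsG trs prog t w) = (p : ℤ) • wsum mv w := by
    intro w
    induction w with
    | nil => intro t; simp [opsG]
    | cons a w ih =>
      intro t
      rw [List.foldl_cons, (ih _).1, opsG, disp_append, (ih _).2, prog_disp]
      simp [trs, add_assoc]
  have key2 : ∀ (z' : Fin r → ℤ) (w : List (Fin m × Bool)) (z : Fin r → ℤ) (t : T),
      Λ z' (vec ((p : ℤ) • z) (opsG trs prog t w)) = pathSum x φ (z + z', t) w := by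
    intro z' w
    induction w with
    | nil => intro z t; simp [opsG, vec, pathSum]
    | cons a w ih =>
      intro z t
      rw [opsG, vec_append, map_add, prog_vec, prog_disp, ← smul_add, ih, hΛ, one_smul, pathSum]
      congr 1
      · have : (p : ℤ) • z + Pi.single i0 (idx (t, a) : ℤ) + (p : ℤ) • z' = ψ (z + z', (t, a)) := by
          simp only [ψ, smul_add]; abel
        rw [this]
        exact hψ.extend_apply _ _ _
      · congr 1
        ext1
        · simp [hsg, add_right_comm]
        · simp [trs]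
  obtain ⟨c, hc1, hc⟩ := opsG_length trs prog
  have key3 : ∀ (R : ℕ) (w : List (Fin m × Bool)) (z : Fin r → ℤ) (t : T),
      (∀ k ≤ w.length, p * nrm (z + wsum mv (w.take k)) + c ≤ R) →
      Stays (fun y => nrm y ≤ R) ((p : ℤ) • z) (opsG trs prog t w) := by
    have hn : ∀ z : Fin r → ℤ, nrm ((p : ℤ) • z) = p * nrm z := by
      intro z
      simp [nrm, Finset.mul_sum, Int.natAbs_mul]
    intro R w
    induction w with
    | nil =>
      intro z t h
      have := h 0 le_rfl
      simp only [opsG, Stays, hn]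
      simp at this
      omega
    | cons a w ih =>
      intro z t h
      refine Stays.append ((stays_length _ _).mono fun y hy => ?_) ?_
      · have h1 := h 0 (Nat.zero_le _)
        have h2 := hc1 t a
        rw [hn] at hy
        simp at h1
        omega
      · rw [prog_disp, ← smul_add]
        refine ih _ _ fun k hk => ?_
        have := h (k + 1) (by simpa using hk)
        simpa [add_assoc] using this
  obtain ⟨Cst, hCst⟩ := dec_heavy hr trs prog (fun t => decide (t = 0)) 0 hp U hU c
  choose y hy1 hy2 hy3 using exists_root (2 * (r + 2)) (by omega)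
  let bad : List (Fin m × Bool) → Prop := fun w => ∃ k ≤ w.length,
    y w.length * y w.length ^ (r + 2) ≤ (p + c + 1) * (∑ j, (wsum mv (w.take k) j).natAbs + 1)
  let lam : List (Fin m × Bool) → ℕ := fun w =>
    if bad w then (c + 1) * (w.length + 1) else y w.length * y w.length ^ (r + 2)
  let c2 := (p * r + 1) * c + 2 * (r + 2) + 1
  have hρ : ∀ w, rhoOf 0 0 (opsG trs prog 0 w) ≤ c * w.length := fun w =>
    (rhoOf_le _ _ _ _ (Nat.zero_le _) (stays_length _ _)).trans (by simpa [nrm] using hc w 0)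
  have hdec := hCst lam (fun w => c2 * y w.length) fun w => by
    have h1 := hρ w
    have h2 := hc w 0
    have h3 := hy1 w.length
    have h4 := hy2 w.length
    refine ⟨?_, h2.trans (Nat.mul_le_mul_left _ ?_), ?_⟩
    · simp only [lam]
      split_ifs with hb
      · nlinarith
      · have h5 : 0 < y w.length * y w.length ^ (r + 2) := by positivity
        have := rhoOf_le (y w.length * y w.length ^ (r + 2) - 1) (opsG trs prog 0 w) 0 0
          (Nat.zero_le _) (by
            have := key3 (y w.length * y w.length ^ (r + 2) - 1) w 0 0 fun k hk => by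
              have h6 : ¬ _ := fun h => hb ⟨k, hk, h⟩
              rw [zero_add, nrm]
              generalize ∑ j, (wsum mv (w.take k) j).natAbs = N at *
              have : (p + c + 1) * (N + 1) = p * N + c + 1 + (p + c * N + N) := by ring
              omega
            rwa [smul_zero] at this)
        omega
    · simp only [lam]
      split_ifs with hb
      · nlinarith [Nat.zero_le (c * (w.length + 1))]
      · calc w.length ≤ (y w.length ^ (r + 2)) ^ 2 := by rw [← pow_mul, mul_comm]; omega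
          _ ≤ _ := Nat.pow_le_pow_left (Nat.le_mul_of_pos_left _ h3) _
    · have h5 : rhoOf 0 0 (opsG trs prog 0 w) * (p * r) + (opsG trs prog 0 w).length <
          2 ^ ((p * r + 1) * c + y w.length * (2 * (r + 2))) := by
        calc _ ≤ (c * w.length) * (p * r) + c * w.length := by gcongr
          _ = ((p * r + 1) * c) * w.length := by ring
          _ ≤ ((p * r + 1) * c) * y w.length ^ (2 * (r + 2)) := by gcongr; omega
          _ < 2 ^ ((p * r + 1) * c) * (2 ^ y w.length) ^ (2 * (r + 2)) :=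
            Nat.mul_lt_mul_of_lt_of_le Nat.lt_two_pow_self
              (Nat.pow_le_pow_left Nat.lt_two_pow_self.le _) (by positivity)
          _ = _ := by rw [← pow_mul, ← pow_add]
      have h6 := Nat.size_le.2 h5
      simp only [c2]
      nlinarith [Nat.le_mul_of_pos_right ((p * r + 1) * c) h3]
  have hmv' : ∀ z, ∃ w, wsum mv w = z := fun z => by
    obtain ⟨w, hw⟩ := hx (z, 0)
    exact ⟨w, by rw [hmv, hw]⟩
  obtain ⟨Cp, hCp0, hCp⟩ := pass_boundR hr mv hmv' (2 ^ (2 * (r + 2))) (by positivity)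
  obtain ⟨Cq, hCq0, hCq⟩ :=
    tail_boundR hr mv hmv' (p + c + 1) (1 + 2 * (r + 2) * (r + 1)) (by omega)
  have hC : ∀ n : ℕ, EP FreeGroup.IsReduced n (fun w =>
      ((2 * (2 * w.length + 4 * (opsG trs prog 0 w).length + 6 +
      if disp (opsG trs prog 0 w) = 0 then Cst * (c2 * y w.length * lam w ^ (r + 1)) else 0) : ℕ) : ℝ)) ≤
      (12 + 8 * c + (2 * Cst * c2 * (Cp * 2 ^ (2 * (r + 2))) +
        2 * Cst * c2 * ((c + 1) ^ (r + 1) * Cq))) *
        ((n + 1) * EP FreeGroup.IsReduced n fun _ : List (Fin m × Bool) => 1) := fun n => by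
    have h3 : (1 : ℝ) ≤ y n := by exact_mod_cast hy1 n
    have h4 : (n : ℝ) + 1 ≤ (y n : ℝ) ^ (2 * (r + 2)) := by exact_mod_cast hy2 n
    have h5 : (y n : ℝ) ^ (2 * (r + 2)) ≤ 2 ^ (2 * (r + 2)) * (n + 1) := by exact_mod_cast hy3 n
    have g1 := hCp n ((y n : ℝ) ^ (r + 2)) (by positivity) (by rw [← pow_mul, mul_comm]; exact h5)
    have g2 := hCq n (y n) (y n ^ (r + 2)) (hy1 n) (Nat.pow_pos (hy1 n))
      (by rw [← pow_mul, mul_comm]; have := hy2 n; omega)
    have g0 : 0 ≤ EP FreeGroup.IsReduced n fun _ : List (Fin m × Bool) => 1 :=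
      EP_nonneg fun _ => zero_le_one
    calc _ ≤ EP FreeGroup.IsReduced n fun w => ((12 + 8 * c) * (n + 1)) * 1 +
          ((2 * Cst * c2 * (((y n : ℝ) ^ (r + 2)) ^ r * (y n : ℝ) ^ (2 * (r + 2)))) *
            (if wsum mv w = 0 then 1 else 0) +
          (2 * Cst * c2 * ((c + 1) ^ (r + 1) * (y n : ℝ) ^ (1 + 2 * (r + 2) * (r + 1)))) *
            (if wsum mv w = 0 ∧ ∃ k ≤ n, y n * y n ^ (r + 2) ≤
              (p + c + 1) * (∑ j, (wsum mv (w.take k) j).natAbs + 1) then 1 else 0)) := by
          refine EP_mono fun w hw _ => ?_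
          subst hw
          have h1 : ((opsG trs prog 0 w).length : ℝ) ≤ c * w.length := by exact_mod_cast hc w 0
          rw [Nat.cast_mul, Nat.cast_add, mul_add]
          refine add_le_add ?_ ?_
          · push_cast
            nlinarith [(Nat.cast_nonneg c : (0 : ℝ) ≤ c),
              (Nat.cast_nonneg w.length : (0 : ℝ) ≤ w.length)]
          · by_cases hd : disp (opsG trs prog 0 w) = 0
            swap
            · rw [if_neg hd]
              simp only [Nat.cast_zero, mul_zero]
              positivity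
            have h2 : wsum mv w = 0 := by
              rw [(key1 w 0).2] at hd
              exact (smul_eq_zero_iff_right (by omega : (p : ℤ) ≠ 0)).1 hd
            rw [if_pos hd, if_pos h2]
            simp only [lam]
            by_cases hb : bad w
            · rw [if_pos hb, if_pos ⟨h2, hb⟩]
              refine le_add_of_nonneg_of_le (by positivity) ?_
              push_cast
              calc (2 : ℝ) * (Cst * (c2 * y w.length * ((c + 1) * (w.length + 1)) ^ (r + 1)))
                  ≤ 2 * (Cst * (c2 * y w.length *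
                    ((c + 1) * (y w.length : ℝ) ^ (2 * (r + 2))) ^ (r + 1))) := by gcongr
                _ = _ := by rw [mul_pow]; ring
            · rw [if_neg hb, if_neg fun h => hb h.2]
              push_cast
              refine le_of_eq ?_
              rw [mul_pow]
              ring
      _ ≤ ((12 + 8 * c) * (n + 1)) * (EP FreeGroup.IsReduced n fun _ : List (Fin m × Bool) => 1) +
          (2 * Cst * c2 * ((Cp * EP FreeGroup.IsReduced n fun _ : List (Fin m × Bool) => 1) *
            (2 ^ (2 * (r + 2)) * (n + 1))) +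
          2 * Cst * c2 * ((c + 1) ^ (r + 1) * (Cq * ((n + 1) *
            EP FreeGroup.IsReduced n fun _ : List (Fin m × Bool) => 1)))) := by
          rw [EP_add, EP_add, EP_mul, EP_mul, EP_mul]
          refine add_le_add le_rfl (add_le_add ?_ ?_)
          · rw [mul_assoc (2 * (Cst : ℝ) * c2)]
            refine mul_le_mul_of_nonneg_left ?_ (by positivity)
            rw [mul_right_comm, mul_comm _ (EP _ _ _)]
            exact mul_le_mul g1 h5 (by positivity) (by positivity)
          · rw [mul_assoc (2 * (Cst : ℝ) * c2), mul_assoc (((c : ℝ) + 1) ^ (r + 1)),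
              mul_comm _ (EP _ _ _)]
            gcongr
      _ = _ := by ring
  refine ⟨_, _, hdec.congr fun w => ?_, hC⟩
  rw [(key1 w 0).1, (key1 w 0).2, hUm, hmv]
  have h1 : ∀ z, Λ z (vec 0 (opsG trs prog 0 w)) = pathSum x φ (z, 0) w := fun z => by
    have := key2 z w 0 0
    rwa [smul_zero, zero_add] at this
  simp only [h1, zero_add, decide_eq_true_eq, smul_eq_zero_iff_right (by omega : (p : ℤ) ≠ 0)]
  refine and_congr_left fun _ => ?_
  rw [Prod.ext_iff]
  exact and_comm

theorem mainR (G : Type) [Group G] (hG : derivedSeries G 2 = ⊥) (m : ℕ) (f : Fin m → G)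
    (hf : Subgroup.closure (Set.range f) = ⊤) :
    ∃ (cost : List (Fin m × Bool) → ℕ) (C : ℝ),
      Dec (fun w => FreeGroup.lift f (FreeGroup.mk w) = 1) cost ∧
      ∀ n : ℕ, EP FreeGroup.IsReduced n (fun w => (cost w : ℝ)) ≤
        C * ((n + 1) * EP FreeGroup.IsReduced n fun _ : List (Fin m × Bool) => 1) := by
  obtain ⟨r, T, i1, i2, x, H, i3, φ, h1, h2, h3⟩ := metabelian_paths G hG f hf
  rcases Nat.eq_zero_or_pos r with rfl | hr
  · obtain ⟨cost, C, h4, h5⟩ := light_caseP x φ
    refine ⟨cost, C, h4.congr fun w => ⟨fun h => (h3 w 0 h.1).1 h.2,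
      fun h => ⟨h2 w h, (h3 w 0 (h2 w h)).2 h⟩⟩, fun n => ?_⟩
    rw [← EP_mul, ← EP_mul]
    refine EP_mono fun w hw _ => ?_
    subst hw
    rw [mul_one]
    exact_mod_cast h5 w
  · obtain ⟨cost, C, h4, h5⟩ := heavy_caseR hr x φ h1
    exact ⟨cost, C, h4.congr fun w => ⟨fun h => (h3 w _ h.1).1 (h.2 0),
      fun h => ⟨h2 w h, fun z => (h3 w _ (h2 w h)).2 h⟩⟩, h5⟩

end Pool.Agent.Lib.MP_2ec175_al
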