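import Mathlib

/-!
Counting estimates for random words: a tail bound for partial sums and an anti-concentration
bound in several dimensions.
-/

set_option autoImplicit false
set_option linter.unusedSectionVars false

namespace Pool.Agent.Lib.MP_2ec175_al

open Finset

/-- The sum of `Φ` over all words of length `n`. -/
noncomputable def EW {α : Type} [Fintype α] (n : ℕ) (Φ : List α → ℝ) : ℝ :=
  ∑ v : Fin n → α, Φ (List.ofFn v)

section EW

variable {α : Type} [Fintype α]

theorem EW_zero (Φ : List α → ℝ) : EW 0 Φ = Φ [] := by simp [EW]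

theorem EW_succ (n : ℕ) (Φ : List α → ℝ) :
    EW (n + 1) Φ = ∑ a, EW n fun l => Φ (a :: l) := by
  unfold EW
  rw [← (Fin.consEquiv fun _ : Fin (n + 1) => α).sum_comp, Fintype.sum_prod_type]
  simp [Fin.consEquiv, List.ofFn_succ]

theorem EW_mono {n : ℕ} {Φ Ψ : List α → ℝ} (h : ∀ w, w.length = n → Φ w ≤ Ψ w) :
    EW n Φ ≤ EW n Ψ :=
  sum_le_sum fun v _ => h _ (by simp)

theorem EW_add (n : ℕ) (Φ Ψ : List α → ℝ) : EW n (fun w => Φ w + Ψ w) = EW n Φ + EW n Ψ :=
  sum_add_distrib

theorem EW_mul (n : ℕ) (c : ℝ) (Φ : List α → ℝ) : EW n (fun w => c * Φ w) = c * EW n Φ :=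
  (mul_sum _ _ _).symm

theorem EW_sum {ι : Type} (s : Finset ι) (n : ℕ) (Φ : ι → List α → ℝ) :
    EW n (fun w => ∑ i ∈ s, Φ i w) = ∑ i ∈ s, EW n (Φ i) := sum_comm

theorem EW_const (n : ℕ) (c : ℝ) : EW n (fun _ : List α => c) = (Fintype.card α : ℝ) ^ n * c := by
  simp [EW]

theorem EW_nonneg {n : ℕ} {Φ : List α → ℝ} (h : ∀ w, 0 ≤ Φ w) : 0 ≤ EW n Φ :=
  sum_nonneg fun _ _ => h _

end EW

/-- The signed value of a letter. -/
def sg {m : ℕ} {M : Type} [AddCommGroup M] (h : Fin m → M) (a : Fin m × Bool) : M :=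
  if a.2 then h a.1 else -h a.1

/-- The signed sum of a word. -/
def wsum {m : ℕ} {M : Type} [AddCommGroup M] (h : Fin m → M) (w : List (Fin m × Bool)) : M :=
  (w.map (sg h)).sum

@[simp] theorem wsum_nil {m : ℕ} {M : Type} [AddCommGroup M] (h : Fin m → M) : wsum h [] = 0 := rfl

@[simp] theorem wsum_cons {m : ℕ} {M : Type} [AddCommGroup M] (h : Fin m → M) (a : Fin m × Bool)
    (w : List (Fin m × Bool)) : wsum h (a :: w) = sg h a + wsum h w := by simp [wsum]

theorem map_sg {m : ℕ} {M N : Type} [AddCommGroup M] [AddCommGroup N] (f : M →+ N) (h : Fin m → M)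
    (a : Fin m × Bool) : f (sg h a) = sg (fun i => f (h i)) a := by
  unfold sg; split_ifs <;> simp

theorem map_wsum {m : ℕ} {M N : Type} [AddCommGroup M] [AddCommGroup N] (f : M →+ N)
    (h : Fin m → M) (w : List (Fin m × Bool)) : f (wsum h w) = wsum (fun i => f (h i)) w := by
  induction w with
  | nil => simp
  | cons a w ih => simp [ih, map_sg]

/-! ### The tail bound -/

theorem sum_exp_sg {m : ℕ} (c : Fin m → ℝ) (η : ℝ) (hc : ∀ i, (c i) ^ 2 ≤ η) :
    ∑ a : Fin m × Bool, Real.exp (sg c a) ≤ (2 * m) * Real.exp (η / 2) := by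
  rw [Fintype.sum_prod_type]
  have : ∀ i ∈ (univ : Finset (Fin m)), ∑ b : Bool, Real.exp (sg c (i, b)) ≤
      2 * Real.exp (η / 2) := by
    intro i _
    have h1 := Real.cosh_le_exp_half_sq (c i)
    have h2 : Real.exp ((c i) ^ 2 / 2) ≤ Real.exp (η / 2) := Real.exp_le_exp.2 (by linarith [hc i])
    rw [Real.cosh_eq] at h1
    simp [sg]
    linarith
  refine (sum_le_card_nsmul _ _ _ this).trans (le_of_eq ?_)
  simp
  ring

theorem EW_exp_take {m : ℕ} (c : Fin m → ℝ) (η : ℝ) (hη : 0 ≤ η) (hc : ∀ i, (c i) ^ 2 ≤ η) :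
    ∀ n k : ℕ, EW n (fun w => Real.exp (wsum c (w.take k))) ≤
      (2 * m) ^ n * Real.exp (η * n / 2) := by
  intro n
  induction n with
  | zero => intro k; simp [EW_zero]
  | succ n ih =>
    intro k
    cases k with
    | zero =>
      simp only [List.take_zero, wsum_nil, Real.exp_zero, EW_const]
      have : (1 : ℝ) ≤ Real.exp (η * (n + 1 : ℕ) / 2) := Real.one_le_exp (by positivity)
      simp only [Fintype.card_prod, Fintype.card_fin, Fintype.card_bool, Nat.cast_mul,
        Nat.cast_ofNat, mul_comm (m : ℝ) 2]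
      gcongr
    | succ k =>
      rw [EW_succ]
      simp only [List.take_succ_cons, wsum_cons, Real.exp_add, EW_mul]
      rw [← sum_mul]
      calc _ ≤ ((2 * m) * Real.exp (η / 2)) * ((2 * m) ^ n * Real.exp (η * n / 2)) :=
            mul_le_mul (sum_exp_sg c η hc) (ih k) (EW_nonneg fun _ => (Real.exp_pos _).le)
              (by positivity)
        _ = _ := by
          rw [show η * (n + 1 : ℕ) / 2 = η / 2 + η * n / 2 by push_cast; ring, Real.exp_add]
          ring

open Classical in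
theorem tail_one {m : ℕ} (c : Fin m → ℝ) (H s t : ℝ) (hH : 0 < H) (hs : 0 < s)
    (hc : ∀ i, |c i| ≤ H) (n : ℕ) (hn : n ≤ s ^ 2) :
    EW n (fun w => if ∃ k ≤ n, t * (H * s) ≤ |wsum c (w.take k)| then 1 else 0) ≤
      (n + 1) * (2 * Real.exp (1 / 2) * Real.exp (-t)) * (2 * m) ^ n := by
  have hHs : 0 < H * s := by positivity
  have key : ∀ e : ℝ, e ^ 2 = 1 → ∀ k, EW n (fun w => Real.exp (e / (H * s) * wsum c (w.take k))) ≤
      (2 * m) ^ n * Real.exp (1 / 2) := by
    intro e he k
    have h1 := EW_exp_take (fun i => e / (H * s) * c i) (1 / s ^ 2) (by positivity) (fun i => by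
      have h2 : (c i) ^ 2 ≤ H ^ 2 := by
        rw [← sq_abs]; exact pow_le_pow_left₀ (abs_nonneg _) (hc i) 2
      rw [mul_pow, div_pow, he, mul_pow]
      calc 1 / (H ^ 2 * s ^ 2) * c i ^ 2 ≤ 1 / (H ^ 2 * s ^ 2) * H ^ 2 := by gcongr
        _ = 1 / s ^ 2 := by field_simp) n k
    have h3 : ∀ w, wsum (fun i => e / (H * s) * c i) w = e / (H * s) * wsum c w := fun w =>
      (map_wsum (AddMonoidHom.mulLeft (e / (H * s))) c w).symm
    simp only [h3] at h1
    refine h1.trans ?_
    gcongr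
    rw [div_mul_eq_mul_div, one_mul, div_le_one (by positivity)]
    exact hn
  calc _ ≤ EW n fun w => ∑ k ∈ range (n + 1), Real.exp (-t) *
        (Real.exp (1 / (H * s) * wsum c (w.take k)) +
          Real.exp (-1 / (H * s) * wsum c (w.take k))) := by
        refine EW_mono fun w _ => ?_
        split_ifs with h
        · obtain ⟨k, hk, h⟩ := h
          refine le_trans ?_ (single_le_sum (f := fun k => Real.exp (-t) *
            (Real.exp (1 / (H * s) * wsum c (w.take k)) +
              Real.exp (-1 / (H * s) * wsum c (w.take k)))) (fun _ _ => by positivity)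
            (mem_range.2 (Nat.lt_succ_of_le hk)))
          rw [mul_add, ← Real.exp_add, ← Real.exp_add]
          rw [← le_div_iff₀ hHs] at h
          rcases le_total 0 (wsum c (w.take k)) with h0 | h0
          · rw [abs_of_nonneg h0] at h
            have : 1 ≤ Real.exp (-t + 1 / (H * s) * wsum c (w.take k)) :=
              Real.one_le_exp (by rw [one_div_mul_eq_div]; linarith)
            linarith [Real.exp_pos (-t + -1 / (H * s) * wsum c (w.take k))]
          · rw [abs_of_nonpos h0] at h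
            have : 1 ≤ Real.exp (-t + -1 / (H * s) * wsum c (w.take k)) :=
              Real.one_le_exp (by
                rw [show -1 / (H * s) * wsum c (w.take k) = -wsum c (w.take k) / (H * s) by ring]
                linarith)
            linarith [Real.exp_pos (-t + 1 / (H * s) * wsum c (w.take k))]
        · positivity
    _ ≤ ∑ _k ∈ range (n + 1), Real.exp (-t) * (2 * ((2 * m) ^ n * Real.exp (1 / 2))) := by
        rw [EW_sum]
        refine sum_le_sum fun k _ => ?_
        rw [EW_mul, EW_add]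
        have h1 := key 1 (by norm_num) k
        have h2 := key (-1) (by norm_num) k
        gcongr
        linarith
    _ = _ := by simp; ring

open Classical in
theorem tail_bound {m r : ℕ} (hr : 1 ≤ r) (mv : Fin m → Fin r → ℤ) (a q : ℕ) (ha : 1 ≤ a) :
    ∃ Cq : ℝ, 0 ≤ Cq ∧ ∀ n y s : ℕ, 1 ≤ y → 1 ≤ s → n ≤ s ^ 2 →
      EW n (fun w => if ∃ k ≤ n, y * s ≤ a * (∑ j, (wsum mv (w.take k) j).natAbs + 1) then 1 else 0) *
        (y : ℝ) ^ q ≤ Cq * ((n + 1) * (2 * m) ^ n) := by
  obtain ⟨H, hH1, hH⟩ : ∃ H : ℝ, 1 ≤ H ∧ ∀ i j, |(mv i j : ℝ)| ≤ H := by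
    obtain ⟨M, hM⟩ := (Set.finite_range fun x : Fin m × Fin r => |(mv x.1 x.2 : ℝ)|).bddAbove
    exact ⟨max M 1, le_max_right _ _, fun i j => (hM ⟨(i, j), rfl⟩).trans (le_max_left _ _)⟩
  have hr' : (1 : ℝ) ≤ r := by exact_mod_cast hr
  have ha' : (1 : ℝ) ≤ a := by exact_mod_cast ha
  set b : ℝ := a * r * H with hb
  have hb0 : 0 < b := by positivity
  refine ⟨r * (2 * Real.exp (1 / 2) * (Real.exp 1 * (q.factorial * b ^ q))), by positivity, ?_⟩
  intro n y s hy hs hn
  have hy' : (1 : ℝ) ≤ y := by exact_mod_cast hy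
  have hs' : (1 : ℝ) ≤ s := by exact_mod_cast hs
  have h1 : EW n (fun w => if ∃ k ≤ n, y * s ≤ a * (∑ j, (wsum mv (w.take k) j).natAbs + 1)
      then (1 : ℝ) else 0) ≤ EW n fun w => ∑ j : Fin r,
        if ∃ k ≤ n, (y / b - 1) * (H * s) ≤ |wsum (fun i => (mv i j : ℝ)) (w.take k)|
        then 1 else 0 := by
    refine EW_mono fun w _ => ?_
    split_ifs with h
    · obtain ⟨k, hk, h⟩ := h
      obtain ⟨j, -, hj⟩ := exists_max_image univ (fun j => (wsum mv (w.take k) j).natAbs)
        ⟨⟨0, hr⟩, mem_univ _⟩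
      have h2 : ∑ j, (wsum mv (w.take k) j).natAbs ≤ r * (wsum mv (w.take k) j).natAbs :=
        (sum_le_card_nsmul _ _ _ hj).trans (by simp)
      refine le_trans ?_ (single_le_sum (f := fun j : Fin r =>
        if ∃ k ≤ n, (y / b - 1) * (H * s) ≤ |wsum (fun i => (mv i j : ℝ)) (w.take k)|
        then (1 : ℝ) else 0) (fun _ _ => by positivity) (mem_univ j))
      rw [if_pos]
      refine ⟨k, hk, ?_⟩
      have e : wsum (fun i => (mv i j : ℝ)) (w.take k) = ((wsum mv (w.take k) j : ℤ) : ℝ) :=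
        (map_wsum ((Int.castAddHom ℝ).comp (Pi.evalAddMonoidHom (fun _ : Fin r => ℤ) j)) mv _).symm
      rw [e, ← Int.cast_abs, Int.abs_eq_natAbs, Int.cast_natCast]
      generalize (wsum mv (w.take k) j).natAbs = x at *
      have h3 : (y : ℝ) * s ≤ a * (r * x + 1) := by
        have : y * s ≤ a * (r * x + 1) := h.trans (by gcongr)
        exact_mod_cast this
      have h4 : (y / b - 1) * (H * s) = y * s / (a * r) - H * s := by
        rw [hb]; field_simp
      have h5 : (y : ℝ) * s / (a * r) ≤ x + 1 := by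
        rw [div_le_iff₀ (by positivity)]
        nlinarith
      have h6 : 1 ≤ H * s := by nlinarith
      linarith
    · positivity
  rw [EW_sum] at h1
  have h2 := (sum_le_card_nsmul univ _ _ fun j _ => tail_one (fun i => (mv i j : ℝ)) H s (y / b - 1)
    (by linarith) (by linarith) (fun i => hH i j) n (by exact_mod_cast hn))
  have h3 : Real.exp (-(y / b - 1)) * (y : ℝ) ^ q ≤ Real.exp 1 * (q.factorial * b ^ q) := by
    have h4 := Real.pow_div_factorial_le_exp (y / b) (by positivity) q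
    rw [neg_sub, Real.exp_sub, div_mul_eq_mul_div, div_le_iff₀ (Real.exp_pos _), mul_assoc]
    gcongr
    rw [div_pow, div_div, div_le_iff₀ (by positivity)] at h4
    linarith
  simp only [card_univ, Fintype.card_fin, nsmul_eq_mul] at h2
  calc _ ≤ (r * ((n + 1) * (2 * Real.exp (1 / 2) * Real.exp (-(y / b - 1))) * (2 * m) ^ n)) *
        (y : ℝ) ^ q := mul_le_mul_of_nonneg_right (h1.trans h2) (by positivity)
    _ = r * (2 * Real.exp (1 / 2) * (Real.exp (-(y / b - 1)) * (y : ℝ) ^ q)) *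
        ((n + 1) * (2 * m) ^ n) := by ring
    _ ≤ _ := by gcongr

/-! ### Anti-concentration -/

theorem centralBinom_sq (j : ℕ) : (j.centralBinom : ℝ) ^ 2 * (2 * j + 1) ≤ 16 ^ j := by
  induction j with
  | zero => simp
  | succ j ih =>
    have h : ((j : ℝ) + 1) * (j + 1).centralBinom = 2 * (2 * j + 1) * j.centralBinom := by
      exact_mod_cast Nat.succ_mul_centralBinom_succ j
    have hj : (0 : ℝ) ≤ j := Nat.cast_nonneg _
    have e : ((j + 1).centralBinom : ℝ) = 2 * (2 * j + 1) * j.centralBinom / (j + 1) := by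
      rw [eq_div_iff (by positivity), ← h]; ring
    rw [e, div_pow, div_mul_eq_mul_div, div_le_iff₀ (by positivity), pow_succ (16 : ℝ)]
    push_cast
    calc (2 * (2 * (j : ℝ) + 1) * j.centralBinom) ^ 2 * (2 * (j + 1) + 1)
        = ((j.centralBinom : ℝ) ^ 2 * (2 * j + 1)) * (4 * (2 * j + 1) * (2 * j + 3)) := by ring
      _ ≤ (16 : ℝ) ^ j * (16 * (j + 1) ^ 2) :=
        mul_le_mul ih (by nlinarith) (by positivity) (by positivity)
      _ = _ := by ring

theorem choose_sq_le (k i : ℕ) : (k.choose i : ℝ) ^ 2 * (k + 1) ≤ 4 ^ k := by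
  have h0 : (k.choose i : ℝ) ≤ k.choose (k / 2) := by exact_mod_cast Nat.choose_le_middle i k
  refine le_trans (by gcongr : _ ≤ (k.choose (k / 2) : ℝ) ^ 2 * (k + 1)) ?_
  rcases Nat.even_or_odd' k with ⟨j, rfl | rfl⟩
  · have := centralBinom_sq j
    rw [Nat.mul_div_cancel_left _ (by norm_num), pow_mul, ← Nat.centralBinom_eq_two_mul_choose]
    push_cast
    norm_num
    exact this
  · have h1 := centralBinom_sq (j + 1)
    have h2 : (j + 1).centralBinom = 2 * (2 * j + 1).choose j := by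
      rw [Nat.centralBinom_eq_two_mul_choose, show 2 * (j + 1) = 2 * j + 1 + 1 by ring,
        Nat.choose_succ_succ', Nat.choose_symm_half]
      ring
    rw [show (2 * j + 1) / 2 = j by omega, pow_succ (4 : ℝ), pow_mul]
    rw [h2, pow_succ (16 : ℝ)] at h1
    push_cast at h1 ⊢
    norm_num
    nlinarith [sq_nonneg ((2 * j + 1).choose j : ℝ)]

theorem choose_le_div_sqrt (k i : ℕ) : (k.choose i : ℝ) ≤ 2 ^ k / √(k + 1) := by
  rw [le_div_iff₀ (Real.sqrt_pos.2 (by positivity))]
  refine (abs_le_of_sq_le_sq' ?_ (by positivity)).2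
  rw [mul_pow, Real.sq_sqrt (by positivity), ← pow_mul, mul_comm k 2, pow_mul]
  norm_num
  exact choose_sq_le k i

theorem mix_ineq (l y : ℝ) (hl0 : 0 ≤ l) (hl1 : l ≤ 1) (hy : 1 ≤ y) :
    (1 - l) * (1 / √y) + l * (1 / √(y + 1)) ≤ 1 / √(y + l / 2) := by
  refine (abs_le_of_sq_le_sq' ?_ (by positivity)).2
  have e1 : (1 / √y) ^ 2 = 1 / y := by rw [div_pow, Real.sq_sqrt (by linarith), one_pow]
  have e2 : (1 / √(y + 1)) ^ 2 = 1 / (y + 1) := by rw [div_pow, Real.sq_sqrt (by linarith), one_pow]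
  have e3 : (1 / √(y + l / 2)) ^ 2 = 1 / (y + l / 2) := by
    rw [div_pow, Real.sq_sqrt (by linarith), one_pow]
  rw [e3]
  generalize 1 / √y = A at *
  generalize 1 / √(y + 1) = B at *
  calc ((1 - l) * A + l * B) ^ 2 ≤ (1 - l) * A ^ 2 + l * B ^ 2 := by
        nlinarith [mul_nonneg (mul_nonneg hl0 (sub_nonneg.2 hl1)) (sq_nonneg (A - B))]
    _ = (y + 1 - l) / (y * (y + 1)) := by rw [e1, e2]; field_simp; ring
    _ ≤ 1 / (y + l / 2) := by
        rw [div_le_div_iff₀ (by positivity) (by positivity)]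
        nlinarith

section Anti

variable {m : ℕ} {J : Type} [Fintype J] [DecidableEq J] (h : Fin m → J → ℚ)

open Classical in
/-- The number of words whose signed sum agrees with `x` on the coordinates in `S`. -/
noncomputable def cnt (n : ℕ) (S : Finset J) (x : J → ℚ) : ℝ :=
  EW n fun w => if ∀ j ∈ S, wsum h w j = x j then 1 else 0

theorem cnt_nonneg (n : ℕ) (S : Finset J) (x : J → ℚ) : 0 ≤ cnt h n S x :=
  EW_nonneg fun _ => by positivity

theorem cnt_succ (n : ℕ) (S : Finset J) (x : J → ℚ) :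
    cnt h (n + 1) S x = ∑ a, cnt h n S (x - sg h a) := by
  unfold cnt
  rw [EW_succ]
  refine sum_congr rfl fun a _ => ?_
  congr 1
  funext w
  simp only [wsum_cons, Pi.add_apply, Pi.sub_apply, eq_sub_iff_add_eq']

theorem cnt_fiber (n : ℕ) (S : Finset J) (j : J) (hj : j ∉ S) (x : J → ℚ) (k : ℕ) :
    ∑ i ∈ range (k + 1), cnt h n (insert j S) (x - Pi.single j (2 * i - k : ℚ)) ≤ cnt h n S x := by
  unfold cnt
  rw [← EW_sum]
  refine EW_mono fun w _ => ?_
  have e : ∀ i : ℕ, (∀ j' ∈ insert j S, wsum h w j' = (x - Pi.single j (2 * i - k : ℚ) : J → ℚ) j') ↔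
      wsum h w j = x j - (2 * i - k) ∧ ∀ j' ∈ S, wsum h w j' = x j' := by
    intro i
    rw [forall_mem_insert]
    refine and_congr (by simp) (forall₂_congr fun j' hj' => ?_)
    have : j' ≠ j := fun e => hj (e ▸ hj')
    simp [this]
  simp only [e]
  by_cases hS : ∀ j' ∈ S, wsum h w j' = x j'
  · rw [if_pos hS, sum_boole]
    norm_cast
    refine card_le_one.2 fun a ha b hb => ?_
    have h1 := (mem_filter.1 ha).2.1
    have h2 := (mem_filter.1 hb).2.1
    rw [h1] at h2
    have : (a : ℚ) = b := by push_cast at h2; linarith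
    exact_mod_cast this
  · simp [hS]

theorem cnt_step (n : ℕ) (S : Finset J) (j : J) (hj : j ∉ S) (i0 : Fin m)
    (h0 : h i0 = Pi.single j 1) (c : ℝ) (hc : ∀ x, cnt h n S x ≤ c) :
    ∀ (L k : ℕ) (x : J → ℚ), ∑ i ∈ range (k + 1),
      (k.choose i : ℝ) * cnt h (n + L) (insert j S) (x - Pi.single j (2 * i - k : ℚ)) ≤
        c * (2 ^ k * (2 * m) ^ L * (1 / √(k + 1 + L * (1 / m / 2)))) := by
  have hm : (1 : ℝ) ≤ m := by exact_mod_cast i0.pos
  have hc0 : 0 ≤ c := (cnt_nonneg h n S 0).trans (hc 0)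
  intro L
  induction L with
  | zero =>
    intro k x
    calc _ ≤ ∑ i ∈ range (k + 1), (2 ^ k / √(k + 1)) *
          cnt h n (insert j S) (x - Pi.single j (2 * i - k : ℚ)) :=
          sum_le_sum fun i _ => mul_le_mul_of_nonneg_right (choose_le_div_sqrt k i)
            (cnt_nonneg _ _ _ _)
      _ ≤ (2 ^ k / √(k + 1)) * c := by
          rw [← mul_sum]
          exact mul_le_mul_of_nonneg_left ((cnt_fiber h n S j hj x k).trans (hc x)) (by positivity)
      _ = _ := by simp; ring
  | succ L ih =>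
    intro k x
    let G : ℕ → (J → ℚ) → ℝ := fun k x => ∑ i ∈ range (k + 1),
      (k.choose i : ℝ) * cnt h (n + L) (insert j S) (x - Pi.single j (2 * i - k : ℚ))
    have e1 : ∑ i ∈ range (k + 1), (k.choose i : ℝ) *
        cnt h (n + (L + 1)) (insert j S) (x - Pi.single j (2 * i - k : ℚ)) =
        ∑ a, G k (x - sg h a) := by
      simp only [← add_assoc, cnt_succ, mul_sum, G]
      rw [sum_comm]
      simp only [sub_right_comm]
    have e2 : ∑ b : Bool, G k (x - sg h (i0, b)) = G (k + 1) x := by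
      simp only [G]
      have e := sum_choose_succ_mul (fun (i _ : ℕ) =>
        cnt h (n + L) (insert j S) (x - Pi.single j (2 * i - (k + 1 : ℕ) : ℚ))) k
      rw [e, Fintype.sum_bool, add_comm]
      congr 1
      · refine sum_congr rfl fun i _ => ?_
        congr 2
        funext j'
        by_cases hj' : j' = j
        · subst hj'; simp [sg, h0]; ring
        · simp [sg, h0, hj']
      · refine sum_congr rfl fun i _ => ?_
        congr 2
        funext j'
        by_cases hj' : j' = j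
        · subst hj'; simp [sg, h0]; ring
        · simp [sg, h0, hj']
    rw [e1, Fintype.sum_prod_type, ← add_sum_erase _ _ (mem_univ i0), e2]
    have e3 : ∑ i ∈ univ.erase i0, ∑ b : Bool, G k (x - sg h (i, b)) ≤
        (m - 1) * (2 * (c * (2 ^ k * (2 * m) ^ L * (1 / √(k + 1 + L * (1 / m / 2)))))) := by
      refine (sum_le_card_nsmul _ _ (2 * (c * (2 ^ k * (2 * m) ^ L *
        (1 / √(k + 1 + L * (1 / m / 2)))))) fun i _ => ?_).trans (le_of_eq ?_)
      · rw [Fintype.sum_bool, two_mul]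
        exact add_le_add (ih _ _) (ih _ _)
      · rw [card_erase_of_mem (mem_univ _), card_univ, Fintype.card_fin, nsmul_eq_mul,
          Nat.cast_sub i0.pos, Nat.cast_one]
    have e4 := ih (k + 1) x
    have e5 := mix_ineq (1 / m) (k + 1 + L * (1 / m / 2)) (by positivity)
      (by rw [div_le_one (by linarith)]; exact hm)
      (by have : (0 : ℝ) ≤ k + L * (1 / m / 2) := by positivity
          linarith)
    have e6 : ((k + 1 : ℕ) : ℝ) + 1 + L * (1 / m / 2) = k + 1 + L * (1 / m / 2) + 1 := by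
      push_cast; ring
    have e7 : (k : ℝ) + 1 + (L + 1 : ℕ) * (1 / m / 2) = k + 1 + L * (1 / m / 2) + 1 / m / 2 := by
      push_cast; ring
    rw [e6] at e4
    rw [e7]
    refine (add_le_add e4 e3).trans ?_
    generalize 1 / √((k : ℝ) + 1 + L * (1 / m / 2)) = A at *
    generalize 1 / √((k : ℝ) + 1 + L * (1 / m / 2) + 1) = B at *
    generalize 1 / √((k : ℝ) + 1 + L * (1 / m / 2) + 1 / m / 2) = C at *
    calc c * (2 ^ (k + 1) * (2 * m) ^ L * B) + (m - 1) * (2 * (c * (2 ^ k * (2 * m) ^ L * A)))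
        = c * (2 ^ k * (2 * m) ^ (L + 1) * ((1 - 1 / m) * A + 1 / m * B)) := by
          field_simp
          ring
      _ ≤ _ := by gcongr

theorem cnt_prod (ι : J → Fin m) (hι : ∀ j, h (ι j) = Pi.single j 1) (n L : ℕ) (S : Finset J) :
    ∀ x, cnt h (n + S.card * L) S x ≤
      (2 * m) ^ (n + S.card * L) * (1 / √(1 + L * (1 / m / 2))) ^ S.card := by
  induction S using Finset.induction_on with
  | empty =>
    intro x
    simp [cnt, EW_const, mul_comm]
  | insert j S hj ih =>
    intro x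
    have := cnt_step h _ S j hj (ι j) (hι j) _ ih L 0 x
    simp only [zero_add, range_one, sum_singleton, Nat.choose_self, Nat.cast_one, one_mul,
      CharP.cast_eq_zero, mul_zero, Pi.single_zero, sub_zero, pow_zero] at this
    rw [card_insert_of_notMem hj, Nat.succ_mul, ← add_assoc]
    refine this.trans (le_of_eq ?_)
    ring

theorem anti_concentration (ι : J → Fin m) (hι : ∀ j, h (ι j) = Pi.single j 1) (A : ℝ)
    (hA : 0 ≤ A) :
    ∃ Cp : ℝ, 0 ≤ Cp ∧ ∀ (n : ℕ) (s : ℝ), 0 ≤ s → s ^ 2 ≤ A * (n + 1) →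
      cnt h n univ 0 * s ^ Fintype.card J ≤ Cp * (2 * m) ^ n := by
  refine ⟨√(A * (2 * m * Fintype.card J)) ^ Fintype.card J, by positivity, fun n s hs0 hs => ?_⟩
  rcases isEmpty_or_nonempty J with hJ | ⟨⟨j0⟩⟩
  · simp [cnt, EW_const, mul_comm]
  have hm : (1 : ℝ) ≤ m := by exact_mod_cast (ι j0).pos
  have hr : 0 < Fintype.card J := Fintype.card_pos_iff.2 ⟨j0⟩
  have h1 := cnt_prod h ι hι (n % Fintype.card J) (n / Fintype.card J) univ 0
  rw [card_univ, Nat.mod_add_div] at h1
  generalize Fintype.card J = r at *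
  have h2 : (n : ℝ) + 1 ≤ r * ((n / r : ℕ) + 1) := by
    have := Nat.lt_mul_div_succ n hr
    exact_mod_cast this
  generalize n / r = L at *
  have hL : (0 : ℝ) ≤ L := Nat.cast_nonneg _
  have h3 : 1 / √(1 + L * (1 / m / 2)) * s ≤ √(A * (2 * m * r)) := by
    rw [one_div_mul_eq_div, div_le_iff₀ (Real.sqrt_pos.2 (by positivity)),
      ← Real.sqrt_mul (by positivity)]
    refine Real.le_sqrt_of_sq_le (hs.trans ?_)
    rw [mul_assoc A]
    gcongr
    refine h2.trans ?_
    have : 2 * (m : ℝ) * r * (1 + L * (1 / m / 2)) = r * (L + 2 * m) := by field_simp; ring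
    rw [this]
    gcongr
    linarith
  calc _ ≤ ((2 * m) ^ n * (1 / √(1 + L * (1 / m / 2))) ^ r) * s ^ r := by gcongr
    _ = (1 / √(1 + L * (1 / m / 2)) * s) ^ r * (2 * m) ^ n := by rw [mul_pow]; ring
    _ ≤ _ := by gcongr

end Anti

end Pool.Agent.Lib.MP_2ec175_al
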